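import Mathlib

/-! Definitions for the statement: closed hyperbolic surfaces, the Birman-Series set, simple
Anosov representations, the character variety and domains of discontinuity. -/

namespace K4H41.SA

open Matrix

/-- `SL(2,ℝ)`. Modulo `±1` it is the unit tangent bundle of the hyperbolic plane: the element `x`
is the image under `x` of the upward unit vector at the point `i`. -/
abbrev G2 := Matrix.SpecialLinearGroup (Fin 2) ℝ

/-- the matrix of an element -/
abbrev mt (g : G2) : Matrix (Fin 2) (Fin 2) ℝ := g.1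

/-- The geodesic flow of the hyperbolic plane is `x ↦ x * aflow t`. -/
noncomputable def aflow (t : ℝ) : G2 :=
  ⟨!![Real.exp (t / 2), 0; 0, Real.exp (-t / 2)], by
    rw [Matrix.det_fin_two_of, ← Real.exp_add]; ring_nf; simp⟩

/-- `SO(2)`, the stabiliser of the point `i`. The unit vectors `x` and `y` have the same
foot point in the hyperbolic plane if and only if `x⁻¹ * y` is in `SO(2)`. -/
def Orth (k : G2) : Prop := (mt k)ᵀ * mt k = 1

/-- `Γ` is a discrete torsion free cocompact subgroup of `SL(2,ℝ)`; then `Γ \ ℍ²` is a closed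
oriented hyperbolic surface with fundamental group `Γ` (and each such surface is of this form). -/
structure IsSurfaceGroup (Γ : Subgroup G2) : Prop where
  discrete : DiscreteTopology Γ
  torsionFree : ∀ g ∈ Γ, ∀ n : ℕ, 0 < n → g ^ n = 1 → g = 1
  cocompact : ∃ D : Set G2, IsCompact D ∧ ∀ x : G2, ∃ γ ∈ Γ, γ * x ∈ D

/-- The geodesic of `Γ \ ℍ²` with initial unit vector `x` is a simple closed geodesic: for some
`T > 0` the unit vectors at the times `0` and `T` agree, and it is injective on `[0, T)`. -/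
def IsSimpleClosed (Γ : Subgroup G2) (x : G2) : Prop :=
  ∃ T : ℝ, 0 < T ∧ (∃ γ ∈ Γ, mt (x * aflow T) = mt (γ * x) ∨ mt (x * aflow T) = -mt (γ * x)) ∧
    ∀ s t : ℝ, 0 ≤ s → s < t → t < T → ∀ γ ∈ Γ, ¬ Orth ((x * aflow s)⁻¹ * (γ * (x * aflow t)))

/-- The Birman-Series set (lifted to `SL(2,ℝ)`): the closure of the union of all the simple
closed geodesics in the unit tangent bundle. -/
def BirmanSeries (Γ : Subgroup G2) : Set G2 := closure {x | IsSimpleClosed Γ x}

/-- the norm of a vector for a Hermitian form -/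
noncomputable def hnorm {d : ℕ} (H : Matrix (Fin d) (Fin d) ℂ) (v : Fin d → ℂ) : ℝ :=
  Real.sqrt (star v ⬝ᵥ (H *ᵥ v)).re

/-- `ρ` is simple `k`-Anosov: over the Birman-Series set there are a continuous splitting of the
flat bundle, invariant under the flow (the projection `P x` of `ℂᵈ` onto `Eᵘ` along `Eˢ`, of rank
`k`), and a continuous Hermitian metric `H x` for which it is dominated. Sections of the flat bundle
over the unit tangent bundle of `Γ \ ℍ²` are the `ρ`-equivariant functions on `SL(2,ℝ)` that are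
invariant under `x ↦ -x`. -/
def IsSimpleAnosov (Γ : Subgroup G2) {d : ℕ} (k : ℕ)
    (ρ : Γ →* Matrix.SpecialLinearGroup (Fin d) ℂ) : Prop :=
  ∃ P H : G2 → Matrix (Fin d) (Fin d) ℂ,
    ContinuousOn P (BirmanSeries Γ) ∧ ContinuousOn H (BirmanSeries Γ) ∧
    (∀ x ∈ BirmanSeries Γ, P x * P x = P x ∧ (P x).rank = k) ∧
    (∀ x ∈ BirmanSeries Γ, (H x)ᴴ = H x ∧ ∀ v, v ≠ 0 → 0 < (star v ⬝ᵥ (H x *ᵥ v)).re) ∧
    (∀ x ∈ BirmanSeries Γ, ∀ γ : Γ,
      P ((γ : G2) * x) = (ρ γ).1 * P x * (ρ γ⁻¹).1 ∧ (ρ γ).1ᴴ * H ((γ : G2) * x) * (ρ γ).1 = H x) ∧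
    (∀ x ∈ BirmanSeries Γ, ∀ y, mt y = -mt x → P y = P x ∧ H y = H x) ∧
    (∀ x ∈ BirmanSeries Γ, ∀ t, P (x * aflow t) = P x) ∧
    ∃ C c : ℝ, 0 < C ∧ 0 < c ∧ ∀ x ∈ BirmanSeries Γ, ∀ v w : Fin d → ℂ, v ≠ 0 → w ≠ 0 →
      P x *ᵥ v = v → P x *ᵥ w = 0 → ∀ t : ℝ, 0 ≤ t →
        hnorm (H (x * aflow t)) w / hnorm (H x) w ≤
          C * Real.exp (-c * t) * (hnorm (H (x * aflow t)) v / hnorm (H x) v)

/-- the character of a representation -/
noncomputable def character {Γ : Subgroup G2} {d : ℕ}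
    (ρ : Γ →* Matrix.SpecialLinearGroup (Fin d) ℂ) : Γ → ℂ := fun g => (ρ g).1.trace

/-- The character variety of `Γ` in `SL(d,ℂ)` (the GIT quotient), as the set of the characters with
the topology of pointwise convergence. -/
def CharVar (Γ : Subgroup G2) (d : ℕ) : Type :=
  {χ : Γ → ℂ // ∃ ρ : Γ →* Matrix.SpecialLinearGroup (Fin d) ℂ, character ρ = χ}

noncomputable instance (Γ : Subgroup G2) (d : ℕ) : TopologicalSpace (CharVar Γ d) :=
  instTopologicalSpaceSubtype

/-- the action of an automorphism by precomposition with its inverse -/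
noncomputable def act {Γ : Subgroup G2} {d : ℕ} (φ : MulAut Γ) (χ : CharVar Γ d) : CharVar Γ d :=
  ⟨fun g => χ.1 (φ⁻¹ g), by
    obtain ⟨ρ, hρ⟩ := χ.2
    exact ⟨ρ.comp (φ⁻¹ : MulAut Γ).toMonoidHom, by rw [← hρ]; rfl⟩⟩

/-- `Mod(S) = Out(Γ)` (as the set of the cosets of the inner automorphisms, which act
trivially on the character variety) -/
abbrev Outer (Γ : Subgroup G2) : Type := MulAut Γ ⧸ (MulAut.conj : Γ →* MulAut Γ).range

/-- A domain of discontinuity: open, invariant, and for every compact subset `K` only finitely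
many elements of `Out(Γ)` move `K` to a set which meets `K`. -/
def IsDoD {Γ : Subgroup G2} {d : ℕ} (A : Set (CharVar Γ d)) : Prop :=
  IsOpen A ∧ (∀ φ : MulAut Γ, ∀ χ ∈ A, act φ χ ∈ A) ∧
    ∀ K : Set (CharVar Γ d), K ⊆ A → IsCompact K →
      {q : Outer Γ | ∃ φ : MulAut Γ, (φ : Outer Γ) = q ∧ (act φ '' K ∩ K).Nonempty}.Finite

/-- maximal domains of discontinuity -/
def IsMaximalDoD {Γ : Subgroup G2} {d : ℕ} (A : Set (CharVar Γ d)) : Prop :=
  IsDoD A ∧ ∀ B : Set (CharVar Γ d), IsDoD B → A ⊆ B → B = A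

/-- the simple `k`-Anosov domain -/
def SimpleAnosovDomain (Γ : Subgroup G2) (d k : ℕ) : Set (CharVar Γ d) :=
  {χ | ∃ ρ : Γ →* Matrix.SpecialLinearGroup (Fin d) ℂ, character ρ = χ.1 ∧ IsSimpleAnosov Γ k ρ}

end K4H41.SA
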