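import Mathlib

/-! A matrix over a field of characteristic zero all of whose powers have trace zero is
nilpotent. -/

namespace K4H41.SA

open Matrix Polynomial

variable {K : Type*} [Field K] [CharZero K] {ι : Type*} [Fintype ι] [DecidableEq ι]

theorem idem_eq_zero {e : Matrix ι ι K} (he : e * e = e) (ht : e.trace = 0) : e = 0 := by
  have h1 : IsIdempotentElem (Matrix.toLin' e) := by
    change Matrix.toLin' e * Matrix.toLin' e = Matrix.toLin' e
    rw [Module.End.mul_eq_comp, ← Matrix.toLin'_mul, he]
  have h2 : LinearMap.trace K (ι → K) (Matrix.toLin' e) = 0 := by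
    rw [Matrix.trace_toLin'_eq, ht]
  have h3 := (LinearMap.IsIdempotentElem.trace_eq_zero_iff h1).mp h2
  exact (LinearEquiv.map_eq_zero_iff _).mp h3

theorem nilp_of_trace {X : Matrix ι ι K} (h : ∀ j : ℕ, 1 ≤ j → (X ^ j).trace = 0) :
    IsNilpotent X := by
  -- factor the characteristic polynomial
  have hp : X.charpoly ≠ 0 := X.charpoly_monic.ne_zero
  obtain ⟨q, hq, hq0⟩ := Polynomial.exists_eq_pow_rootMultiplicity_mul_and_not_dvd
    X.charpoly hp 0
  set k := X.charpoly.rootMultiplicity 0 with hk
  have hX : (Polynomial.X - C (0 : K)) = Polynomial.X := by simp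
  rw [hX] at hq hq0
  have hcop : IsCoprime ((Polynomial.X : K[X]) ^ (k + 1)) q := by
    apply IsCoprime.pow_left
    exact (Polynomial.prime_X.coprime_iff_not_dvd).mpr hq0
  obtain ⟨u, v, huv⟩ := hcop
  have hqX : X ^ k * aeval X q = 0 := by
    have := Matrix.aeval_self_charpoly X
    rw [hq, map_mul, map_pow, aeval_X] at this
    exact this
  -- trace of multiples of X
  have htr : ∀ r : K[X], (aeval X (r * Polynomial.X ^ (k + 1))).trace = 0 := by
    intro r
    rw [map_mul, map_pow, aeval_X, aeval_eq_sum_range, Finset.sum_mul, Matrix.trace_sum]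
    apply Finset.sum_eq_zero
    intro i _
    rw [smul_mul_assoc, ← pow_add, Matrix.trace_smul, h _ (by omega), smul_zero]
  set e := aeval X (u * Polynomial.X ^ (k + 1)) with he
  have hcomm : ∀ r s : K[X], aeval X r * aeval X s = aeval X s * aeval X r := by
    intro r s; rw [← map_mul, ← map_mul, mul_comm]
  have h1 : aeval X (u * Polynomial.X ^ (k + 1)) + aeval X (v * q) = 1 := by
    rw [← map_add, huv, map_one]
  have h2 : e * aeval X (v * q) = 0 := by
    rw [he, map_mul, map_mul, map_pow, aeval_X]
    have : X ^ (k + 1) * (aeval X v * aeval X q) = 0 := by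
      rw [hcomm v q, ← mul_assoc, pow_succ', mul_assoc X, hqX, mul_zero, zero_mul]
    rw [mul_assoc, this, mul_zero]
  have hid : e * e = e := by
    have : aeval X (v * q) = 1 - e := by rw [he, ← h1]; abel
    rw [this, mul_sub, mul_one] at h2
    exact (sub_eq_zero.mp h2).symm
  have he0 := idem_eq_zero hid (htr u)
  rw [← he, he0, zero_add] at h1
  refine ⟨k + 1, ?_⟩
  calc X ^ (k + 1) = X ^ (k + 1) * aeval X (v * q) := by rw [h1, mul_one]
    _ = X * (X ^ k * aeval X q) * aeval X v := by
        rw [map_mul, hcomm v q, pow_succ']; noncomm_ring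
    _ = 0 := by rw [hqX]; simp

end K4H41.SA
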