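import Mathlib
import Pool.Agent.K4H41.SA.Nil

/-! Tuples of matrices of minimal Hilbert-Schmidt norm in their conjugation orbits. -/

namespace K4H41.SA

open Matrix Filter Topology

variable {𝕜 : Type*} [RCLike 𝕜] {ι : Type*} [Fintype ι] [DecidableEq ι]

/-- the square of the Hilbert-Schmidt norm -/
noncomputable def hs (X : Matrix ι ι 𝕜) : ℝ := ∑ i, ∑ j, ‖X i j‖ ^ 2

omit [DecidableEq ι] in
theorem hs_nonneg (X : Matrix ι ι 𝕜) : 0 ≤ hs X :=
  Finset.sum_nonneg fun _ _ => Finset.sum_nonneg fun _ _ => by positivity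

omit [DecidableEq ι] in
theorem entry_le_hs (X : Matrix ι ι 𝕜) (i j : ι) : ‖X i j‖ ^ 2 ≤ hs X := by
  calc ‖X i j‖ ^ 2 ≤ ∑ j, ‖X i j‖ ^ 2 :=
        Finset.single_le_sum (f := fun j => ‖X i j‖ ^ 2) (fun _ _ => by positivity)
          (Finset.mem_univ j)
    _ ≤ hs X := Finset.single_le_sum (f := fun i => ∑ j, ‖X i j‖ ^ 2)
          (fun _ _ => Finset.sum_nonneg fun _ _ => by positivity) (Finset.mem_univ i)

omit [DecidableEq ι] in
theorem hs_eq_zero {X : Matrix ι ι 𝕜} (h : hs X ≤ 0) : X = 0 := by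
  ext i j
  have h1 := (entry_le_hs X i j).trans h
  have h2 : ‖X i j‖ = 0 := by
    have := norm_nonneg (X i j)
    nlinarith
  simpa using h2

omit [DecidableEq ι] in
theorem hs_zero : hs (0 : Matrix ι ι 𝕜) = 0 := by simp [hs]

omit [DecidableEq ι] in
theorem hs_smul (c : 𝕜) (X : Matrix ι ι 𝕜) : hs (c • X) = ‖c‖ ^ 2 * hs X := by
  simp [hs, Finset.mul_sum, norm_mul, mul_pow]

omit [DecidableEq ι] in
theorem continuous_hs : Continuous (hs : Matrix ι ι 𝕜 → ℝ) := by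
  unfold hs
  refine continuous_finsetSum _ fun i _ => continuous_finsetSum _ fun j _ => ?_
  have : Continuous fun X : Matrix ι ι 𝕜 => X i j := continuous_apply_apply i j
  fun_prop

omit [DecidableEq ι] in
theorem hs_eq_trace (X : Matrix ι ι 𝕜) : ((hs X : ℝ) : 𝕜) = (Xᴴ * X).trace := by
  simp only [hs, Matrix.trace, Matrix.diag, Matrix.mul_apply, Matrix.conjTranspose_apply]
  push_cast
  rw [Finset.sum_comm]
  refine Finset.sum_congr rfl fun i _ => Finset.sum_congr rfl fun j _ => ?_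
  rw [RCLike.star_def, RCLike.conj_mul]

omit [DecidableEq ι] in
theorem hs_add {X Y : Matrix ι ι 𝕜} (h : (Xᴴ * Y).trace = 0) : hs (X + Y) = hs X + hs Y := by
  have h' : (Yᴴ * X).trace = 0 := by
    have : (Yᴴ * X) = (Xᴴ * Y)ᴴ := by simp
    rw [this, Matrix.trace_conjTranspose, h, star_zero]
  have : ((hs (X + Y) : ℝ) : 𝕜) = ((hs X + hs Y : ℝ) : 𝕜) := by
    have e1 := hs_eq_trace X
    have e2 := hs_eq_trace Y
    rw [hs_eq_trace, RCLike.ofReal_add, e1, e2, Matrix.conjTranspose_add, add_mul, mul_add, mul_add]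
    simp only [Matrix.trace_add, h, h']
    ring
  exact_mod_cast this

/-- compression to three blocks -/
theorem hs_blocks {E A : Matrix ι ι 𝕜} (hE : Eᴴ = E) (hEE : E * E = E) (c : 𝕜) :
    hs (E * A * E + c • (E * A * (1 - E)) + (1 - E) * A * (1 - E)) =
      hs (E * A * E) + ‖c‖ ^ 2 * hs (E * A * (1 - E)) + hs ((1 - E) * A * (1 - E)) := by
  have hF : (1 - E)ᴴ = 1 - E := by simp [hE]
  have h0 : E * (1 - E) = 0 := by rw [mul_sub, mul_one, hEE, sub_self]
  have h0' : (1 - E) * E = 0 := by rw [sub_mul, one_mul, hEE, sub_self]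
  have t1 : ((E * A * E)ᴴ * (c • (E * A * (1 - E)))).trace = 0 := by
    rw [Matrix.mul_smul, Matrix.trace_smul]
    simp only [Matrix.conjTranspose_mul, hE]
    have : (E * (Aᴴ * E) * (E * A * (1 - E))).trace = 0 := by
      rw [show E * (Aᴴ * E) * (E * A * (1 - E)) = E * (Aᴴ * E * (E * A * (1 - E))) by
        simp only [Matrix.mul_assoc], Matrix.trace_mul_comm]
      rw [show Aᴴ * E * (E * A * (1 - E)) * E = Aᴴ * E * (E * A * ((1 - E) * E)) by
        simp only [Matrix.mul_assoc], h0']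
      simp
    rw [this, smul_zero]
  have t2 : ((E * A * E + c • (E * A * (1 - E)))ᴴ * ((1 - E) * A * (1 - E))).trace = 0 := by
    have : (E * A * E + c • (E * A * (1 - E)))ᴴ = (E * Aᴴ + star c • ((1 - E) * Aᴴ)) * E := by
      simp only [Matrix.conjTranspose_add, Matrix.conjTranspose_mul, hE, hF,
        Matrix.conjTranspose_smul, add_mul, Matrix.smul_mul, Matrix.mul_assoc]
    rw [this, Matrix.mul_assoc, show E * ((1 - E) * A * (1 - E)) = (E * (1 - E)) * A * (1 - E) by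
      simp only [Matrix.mul_assoc], h0]
    simp
  rw [hs_add t2, hs_add t1, hs_smul]

/-- the energy of a tuple -/
noncomputable def En {κ : Type*} [Fintype κ] (A : κ → Matrix ι ι 𝕜) : ℝ := ∑ k, hs (A k)

/-- conjugate of a tuple -/
def cj {κ : Type*} (h : (Matrix ι ι 𝕜)ˣ) (A : κ → Matrix ι ι 𝕜) : κ → Matrix ι ι 𝕜 :=
  fun k => (h : Matrix ι ι 𝕜) * A k * ((h⁻¹ : (Matrix ι ι 𝕜)ˣ) : Matrix ι ι 𝕜)

variable {κ : Type*} [Fintype κ]

omit [DecidableEq ι] in
theorem En_nonneg (A : κ → Matrix ι ι 𝕜) : 0 ≤ En A := Finset.sum_nonneg fun _ _ => hs_nonneg _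

omit [DecidableEq ι] in
theorem hs_le_En (A : κ → Matrix ι ι 𝕜) (k : κ) : hs (A k) ≤ En A :=
  Finset.single_le_sum (f := fun k => hs (A k)) (fun _ _ => hs_nonneg _) (Finset.mem_univ k)

omit [DecidableEq ι] in
theorem continuous_En : Continuous (En : (κ → Matrix ι ι 𝕜) → ℝ) := by
  unfold En
  refine continuous_finsetSum _ fun k _ => ?_
  exact continuous_hs.comp (continuous_apply k)

omit [Fintype κ] in
theorem cj_mul (h g : (Matrix ι ι 𝕜)ˣ) (A : κ → Matrix ι ι 𝕜) : cj (h * g) A = cj h (cj g A) := by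
  funext k
  simp [cj, Matrix.mul_assoc]

omit [Fintype κ] in
theorem continuous_cj (h : (Matrix ι ι 𝕜)ˣ) : Continuous (cj h : (κ → Matrix ι ι 𝕜) → _) := by
  unfold cj
  refine continuous_pi fun k => ?_
  have : Continuous fun A : κ → Matrix ι ι 𝕜 => A k := continuous_apply k
  fun_prop

/-- minimal tuples -/
def Minimal' (A : κ → Matrix ι ι 𝕜) : Prop := ∀ h : (Matrix ι ι 𝕜)ˣ, En A ≤ En (cj h A)

/-- an invariant subspace of a minimal tuple has an invariant orthogonal complement -/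
theorem Minimal'.compl {A : κ → Matrix ι ι 𝕜} (hA : Minimal' A) {E : Matrix ι ι 𝕜}
    (hE : Eᴴ = E) (hEE : E * E = E) (hinv : ∀ k, A k * E = E * A k * E) :
    ∀ k, E * A k = E * A k * E := by
  let h : (Matrix ι ι 𝕜)ˣ :=
    ⟨1 - (1 / 2 : 𝕜) • E, 1 + E, by
      have h1 : E * (1 + E) = E + E := by rw [mul_add, mul_one, hEE]
      rw [sub_mul, one_mul, Matrix.smul_mul, h1, smul_add]
      have : (1 / 2 : 𝕜) • E + (1 / 2 : 𝕜) • E = E := by
        rw [← add_smul]; norm_num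
      rw [this]; abel, by
      have h1 : (1 + E) * E = E + E := by rw [add_mul, one_mul, hEE]
      rw [mul_sub, mul_one, Matrix.mul_smul, h1, smul_add]
      have : (1 / 2 : 𝕜) • E + (1 / 2 : 𝕜) • E = E := by
        rw [← add_smul]; norm_num
      rw [this]; abel⟩
  have hz : ∀ k, (1 - E) * A k * E = 0 := fun k => by
    rw [sub_mul, sub_mul, one_mul, hinv k, sub_self]
  have hdec : ∀ k, A k = E * A k * E + (1 : 𝕜) • (E * A k * (1 - E)) + (1 - E) * A k * (1 - E) := by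
    intro k
    have := hz k
    rw [one_smul]
    calc A k = (E + (1 - E)) * A k * (E + (1 - E)) := by simp
      _ = E * A k * E + E * A k * (1 - E) + (1 - E) * A k * E + (1 - E) * A k * (1 - E) := by
          noncomm_ring
      _ = _ := by rw [this]; abel
  have hcj : ∀ k, cj h A k = E * A k * E + (1 / 2 : 𝕜) • (E * A k * (1 - E)) +
      (1 - E) * A k * (1 - E) := by
    intro k
    have h1 : (h : Matrix ι ι 𝕜) = (1 / 2 : 𝕜) • E + (1 - E) := by
      change 1 - (1 / 2 : 𝕜) • E = _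
      have : (1 / 2 : 𝕜) • E + (1 / 2 : 𝕜) • E = E := by
        rw [← add_smul]; norm_num
      nth_rw 3 [← this]
      abel
    have h2 : ((h⁻¹ : (Matrix ι ι 𝕜)ˣ) : Matrix ι ι 𝕜) = (2 : 𝕜) • E + (1 - E) := by
      change 1 + E = _
      rw [two_smul]; abel
    rw [cj, h1, h2]
    have h3 := hz k
    calc ((1 / 2 : 𝕜) • E + (1 - E)) * A k * ((2 : 𝕜) • E + (1 - E))
        = ((1 / 2 : 𝕜) * 2) • (E * A k * E) + (1 / 2 : 𝕜) • (E * A k * (1 - E)) +
          (2 : 𝕜) • ((1 - E) * A k * E) + (1 - E) * A k * (1 - E) := by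
          simp only [add_mul, mul_add, Matrix.smul_mul, Matrix.mul_smul, smul_smul]
          rw [mul_comm (2 : 𝕜) (1 / 2)]
          abel
      _ = _ := by rw [h3, smul_zero, add_zero]; norm_num
  have hmin := hA h
  have e1 : En A = ∑ k, (hs (E * A k * E) + ‖(1 : 𝕜)‖ ^ 2 * hs (E * A k * (1 - E)) +
      hs ((1 - E) * A k * (1 - E))) := by
    unfold En
    refine Finset.sum_congr rfl fun k _ => ?_
    rw [← hs_blocks hE hEE, ← hdec k]
  have e2 : En (cj h A) = ∑ k, (hs (E * A k * E) + ‖(1 / 2 : 𝕜)‖ ^ 2 * hs (E * A k * (1 - E)) +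
      hs ((1 - E) * A k * (1 - E))) := by
    unfold En
    refine Finset.sum_congr rfl fun k _ => ?_
    rw [← hs_blocks hE hEE, ← hcj k]
  have hn : ‖(1 / 2 : 𝕜)‖ = 1 / 2 := by simp
  rw [e1, e2, hn] at hmin
  simp only [norm_one, one_pow, one_mul, Finset.sum_add_distrib, ← Finset.mul_sum] at hmin
  have hs0 : ∑ k, hs (E * A k * (1 - E)) ≤ 0 := by
    have : 0 ≤ ∑ k, hs (E * A k * (1 - E)) := Finset.sum_nonneg fun _ _ => hs_nonneg _
    nlinarith
  intro k
  have h5 : hs (E * A k * (1 - E)) ≤ 0 :=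
    (Finset.single_le_sum (f := fun k => hs (E * A k * (1 - E))) (fun _ _ => hs_nonneg _)
      (Finset.mem_univ k)).trans hs0
  have h6 := hs_eq_zero h5
  rw [mul_sub, mul_one] at h6
  exact sub_eq_zero.mp h6

/-- the orthogonal projection onto a subspace, as a matrix -/
theorem exists_proj (W : Submodule 𝕜 (ι → 𝕜)) : ∃ E : Matrix ι ι 𝕜, Eᴴ = E ∧ E * E = E ∧
    (∀ x, E *ᵥ x ∈ W) ∧ ∀ x ∈ W, E *ᵥ x = x := by
  let e : EuclideanSpace 𝕜 ι ≃ₗ[𝕜] (ι → 𝕜) := WithLp.linearEquiv 2 𝕜 (ι → 𝕜)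
  let W' : Submodule 𝕜 (EuclideanSpace 𝕜 ι) := W.comap e.toLinearMap
  let P : EuclideanSpace 𝕜 ι →ₗ[𝕜] EuclideanSpace 𝕜 ι := W'.starProjection.toLinearMap
  let b := EuclideanSpace.basisFun ι 𝕜
  let E : Matrix ι ι 𝕜 := LinearMap.toMatrixOrthonormal b P
  have hPP : P * P = P := by
    ext1 x
    exact congrArg (fun f => f x) (Submodule.isIdempotentElem_starProjection (K := W'))
  have hP : star P = P := by
    have h1 : LinearMap.IsSymmetric P := Submodule.starProjection_isSymmetric W'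
    exact (LinearMap.isSymmetric_iff_isSelfAdjoint P).mp h1
  have hmul : ∀ x : ι → 𝕜, E *ᵥ x = e (P (e.symm x)) := by
    intro x
    have h1 : E *ᵥ (b.toBasis.repr (e.symm x)) = b.toBasis.repr (P (e.symm x)) := by
      exact LinearMap.toMatrix_mulVec_repr b.toBasis b.toBasis P (e.symm x)
    have h2 : ∀ y : EuclideanSpace 𝕜 ι, (b.toBasis.repr y : ι → 𝕜) = e y := by
      intro y; ext i; simp [b, e]
    rw [h2, h2] at h1
    simpa using h1
  refine ⟨E, ?_, ?_, ?_, ?_⟩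
  · have : star E = E := by
      change star (LinearMap.toMatrixOrthonormal b P) = _
      rw [← map_star, hP]
    exact this
  · change LinearMap.toMatrixOrthonormal b P * LinearMap.toMatrixOrthonormal b P = _
    rw [← map_mul, hPP]
  · intro x
    rw [hmul]
    have : P (e.symm x) ∈ W' := Submodule.starProjection_apply_mem W' _
    exact this
  · intro x hx
    rw [hmul]
    have h1 : e.symm x ∈ W' := by
      change e (e.symm x) ∈ W
      simpa using hx
    have : P (e.symm x) = e.symm x := Submodule.starProjection_eq_self_iff.mpr h1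
    rw [this]; simp

/-- a nonzero invariant subspace contains a nonzero vector killed by a nil left ideal -/
theorem common_kernel (𝒜 J : Submodule 𝕜 (Matrix ι ι 𝕜)) (hJ : J ≤ 𝒜)
    (hmul : ∀ X ∈ 𝒜, ∀ Y ∈ J, X * Y ∈ J) (hnil : ∀ Y ∈ J, IsNilpotent Y)
    (U : Submodule 𝕜 (ι → 𝕜)) (hU : U ≠ ⊥) (hinv : ∀ X ∈ 𝒜, ∀ u ∈ U, X *ᵥ u ∈ U) :
    ∃ u ∈ U, u ≠ 0 ∧ ∀ Y ∈ J, Y *ᵥ u = 0 := by
  obtain ⟨W, ⟨hWU, hW0, hWinv⟩, hmin⟩ := (wellFounded_lt (α := Submodule 𝕜 (ι → 𝕜))).has_min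
    {W | W ≤ U ∧ W ≠ ⊥ ∧ ∀ X ∈ 𝒜, ∀ w ∈ W, X *ᵥ w ∈ W} ⟨U, le_rfl, hU, hinv⟩
  obtain ⟨w, hw, hw0⟩ := W.ne_bot_iff.mp hW0
  refine ⟨w, hWU hw, hw0, fun Y hY => ?_⟩
  by_contra hne
  let ev : Matrix ι ι 𝕜 →ₗ[𝕜] (ι → 𝕜) :=
    { toFun := fun X => X *ᵥ w
      map_add' := fun X Y => Matrix.add_mulVec X Y w
      map_smul' := fun c X => Matrix.smul_mulVec c X w }
  have h1 : J.map ev ≤ W := by
    rintro _ ⟨X, hX, rfl⟩
    exact hWinv X (hJ hX) w hw
  have h2 : J.map ev ≠ ⊥ := by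
    intro h
    have : ev Y ∈ J.map ev := ⟨Y, hY, rfl⟩
    rw [h, Submodule.mem_bot] at this
    exact hne this
  have h3 : ∀ X ∈ 𝒜, ∀ v ∈ J.map ev, X *ᵥ v ∈ J.map ev := by
    rintro X hX _ ⟨Z, hZ, rfl⟩
    refine ⟨X * Z, hmul X hX Z hZ, ?_⟩
    change (X * Z) *ᵥ w = X *ᵥ (Z *ᵥ w)
    rw [Matrix.mulVec_mulVec]
  have h4 : J.map ev = W := by
    by_contra hne'
    exact hmin _ ⟨h1.trans hWU, h2, h3⟩ (lt_of_le_of_ne h1 hne')
  have h5 : w ∈ J.map ev := by rw [h4]; exact hw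
  obtain ⟨Z, hZ, hZw⟩ := h5
  have hZw' : Z *ᵥ w = w := hZw
  obtain ⟨n, hn⟩ := hnil Z hZ
  have h6 : ∀ m : ℕ, (Z ^ m) *ᵥ w = w := by
    intro m
    induction m with
    | zero => simp
    | succ m ih => rw [pow_succ, ← Matrix.mulVec_mulVec, hZw', ih]
  have := h6 n
  rw [hn, Matrix.zero_mulVec] at this
  exact hw0 this.symm

end K4H41.SA
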