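import Mathlib
import Pool.Agent.K4H41.SA.Min
import Pool.Agent.K4H41.SA.Defs

/-! `SL(2,ℝ)`: Hilbert-Schmidt norm, diagonalisation, decompositions. -/

namespace K4H41.SA

open Matrix Filter Topology

variable {𝕜 : Type*} [RCLike 𝕜] {ι : Type*} [Fintype ι] [DecidableEq ι]

omit [DecidableEq ι] in
theorem hs_mul (X Y : Matrix ι ι 𝕜) : hs (X * Y) ≤ hs X * hs Y := by
  have h1 : ∀ i j, ‖(X * Y) i j‖ ^ 2 ≤ (∑ k, ‖X i k‖ ^ 2) * ∑ k, ‖Y k j‖ ^ 2 := by
    intro i j
    calc ‖(X * Y) i j‖ ^ 2 ≤ (∑ k, ‖X i k‖ * ‖Y k j‖) ^ 2 := by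
          apply pow_le_pow_left₀ (norm_nonneg _)
          rw [Matrix.mul_apply]
          refine (norm_sum_le _ _).trans (Finset.sum_le_sum fun k _ => ?_)
          rw [norm_mul]
      _ ≤ _ := Finset.sum_mul_sq_le_sq_mul_sq _ _ _
  calc hs (X * Y) ≤ ∑ i, ∑ j, (∑ k, ‖X i k‖ ^ 2) * ∑ k, ‖Y k j‖ ^ 2 :=
        Finset.sum_le_sum fun i _ => Finset.sum_le_sum fun j _ => h1 i j
    _ = hs X * hs Y := by
        simp only [← Finset.mul_sum, ← Finset.sum_mul, hs]
        congr 1
        rw [Finset.sum_comm]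

theorem hs2 (X : Matrix (Fin 2) (Fin 2) ℝ) :
    hs X = X 0 0 ^ 2 + X 0 1 ^ 2 + X 1 0 ^ 2 + X 1 1 ^ 2 := by
  simp [hs, Fin.sum_univ_two]; ring

theorem det2 (g : G2) : mt g 0 0 * mt g 1 1 - mt g 0 1 * mt g 1 0 = 1 := by
  have := g.2
  rwa [Matrix.det_fin_two] at this

theorem hs_inv (g : G2) : hs (mt g⁻¹) = hs (mt g) := by
  have : mt g⁻¹ = !![mt g 1 1, -mt g 0 1; -mt g 1 0, mt g 0 0] := by
    change (g⁻¹ : G2).1 = _
    rw [Matrix.SpecialLinearGroup.coe_inv, Matrix.adjugate_fin_two]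
  rw [this, hs2, hs2]
  simp; ring

theorem two_le_hs (g : G2) : 2 ≤ hs (mt g) := by
  rw [hs2]
  have := det2 g
  nlinarith [sq_nonneg (mt g 0 0 - mt g 1 1), sq_nonneg (mt g 0 1 + mt g 1 0)]

/-- rotations -/
noncomputable def rot (θ : ℝ) : G2 :=
  ⟨!![Real.cos θ, -Real.sin θ; Real.sin θ, Real.cos θ], by
    rw [Matrix.det_fin_two_of]; have := Real.cos_sq_add_sin_sq θ; linarith⟩

theorem mt_aflow (t : ℝ) : mt (aflow t) = !![Real.exp (t / 2), 0; 0, Real.exp (-t / 2)] := rfl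
theorem mt_rot (θ : ℝ) : mt (rot θ) = !![Real.cos θ, -Real.sin θ; Real.sin θ, Real.cos θ] := rfl
theorem mt_mul (g h : G2) : mt (g * h) = mt g * mt h := rfl
theorem mt_one : mt 1 = 1 := rfl
theorem mt_inv_mul (g : G2) : mt g⁻¹ * mt g = 1 := by
  rw [← mt_mul, inv_mul_cancel, mt_one]
theorem mt_mul_inv (g : G2) : mt g * mt g⁻¹ = 1 := by
  rw [← mt_mul, mul_inv_cancel, mt_one]

theorem aflow_add (s t : ℝ) : aflow (s + t) = aflow s * aflow t := by
  apply Subtype.ext
  change !![Real.exp ((s + t) / 2), 0; 0, Real.exp (-(s + t) / 2)] =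
    !![Real.exp (s / 2), 0; 0, Real.exp (-s / 2)] * !![Real.exp (t / 2), 0; 0, Real.exp (-t / 2)]
  rw [Matrix.mul_fin_two]
  simp only [mul_zero, add_zero, zero_mul, zero_add, ← Real.exp_add]
  congr 2 <;> ring_nf

theorem aflow_zero : aflow 0 = 1 := by
  apply Subtype.ext
  ext i j
  fin_cases i <;> fin_cases j <;> simp [aflow]

theorem aflow_neg (t : ℝ) : aflow (-t) = (aflow t)⁻¹ := by
  rw [eq_inv_iff_mul_eq_one, ← aflow_add]; simp [aflow_zero]

theorem Orth.inv {k : G2} (h : Orth k) : Orth k⁻¹ := by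
  have h1 : mt k * (mt k)ᵀ = 1 := mul_eq_one_comm.mp h
  have h2 : mt k⁻¹ = (mt k)ᵀ := by
    have h3 : mt k⁻¹ * mt k = 1 := mt_inv_mul k
    calc mt k⁻¹ = mt k⁻¹ * (mt k * (mt k)ᵀ) := by rw [h1, mul_one]
      _ = (mt k)ᵀ := by rw [← mul_assoc, h3, one_mul]
  rw [Orth, h2, Matrix.transpose_transpose, h1]

theorem Orth.mul {k l : G2} (hk : Orth k) (hl : Orth l) : Orth (k * l) := by
  rw [Orth] at *
  change (mt k * mt l)ᵀ * (mt k * mt l) = 1
  rw [Matrix.transpose_mul, Matrix.mul_assoc, ← Matrix.mul_assoc _ (mt k), hk, one_mul, hl]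

theorem orth_rot (θ : ℝ) : Orth (rot θ) := by
  rw [Orth, mt_rot]
  have h := Real.cos_sq_add_sin_sq θ
  ext i j
  fin_cases i <;> fin_cases j <;> simp [Matrix.mul_apply, Fin.sum_univ_two] <;> nlinarith

theorem orth_one : Orth (1 : G2) := by simp [Orth]

theorem rot_neg (θ : ℝ) : rot (-θ) = (rot θ)⁻¹ := by
  rw [eq_inv_iff_mul_eq_one]
  apply Subtype.ext
  have h := Real.cos_sq_add_sin_sq θ
  change mt (rot (-θ)) * mt (rot θ) = 1
  rw [mt_rot, mt_rot]
  ext i j
  fin_cases i <;> fin_cases j <;> simp [Matrix.mul_apply, Fin.sum_univ_two] <;> nlinarith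

theorem hs_trace (X : Matrix (Fin 2) (Fin 2) ℝ) : hs X = (Xᵀ * X).trace := by
  have := hs_eq_trace X
  simpa using this

theorem hs_orth_left {k : G2} (hk : Orth k) (X : Matrix (Fin 2) (Fin 2) ℝ) :
    hs (mt k * X) = hs X := by
  rw [hs_trace, hs_trace, Matrix.transpose_mul, Matrix.mul_assoc, ← Matrix.mul_assoc _ (mt k), hk,
    one_mul]

theorem hs_transpose (X : Matrix (Fin 2) (Fin 2) ℝ) : hs Xᵀ = hs X := by
  rw [hs2, hs2]; simp; ring

theorem hs_orth_right {k : G2} (hk : Orth k) (X : Matrix (Fin 2) (Fin 2) ℝ) :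
    hs (X * mt k) = hs X := by
  rw [← hs_transpose, Matrix.transpose_mul]
  have h1 : mt k * (mt k)ᵀ = 1 := mul_eq_one_comm.mp hk
  rw [hs_trace, hs_trace, Matrix.transpose_mul, Matrix.transpose_transpose,
    Matrix.transpose_transpose]
  rw [show X * mt k * ((mt k)ᵀ * Xᵀ) = X * (mt k * (mt k)ᵀ) * Xᵀ by simp only [Matrix.mul_assoc],
    h1, mul_one, Matrix.trace_mul_comm]

theorem hs_aflow (t : ℝ) : hs (mt (aflow t)) = Real.exp t + Real.exp (-t) := by
  rw [hs2, mt_aflow]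
  simp only [Matrix.of_apply, Matrix.cons_val', Matrix.cons_val_zero,
    Matrix.cons_val_one, Matrix.cons_val_fin_one, sq, ← Real.exp_add]
  ring_nf

/-- diagonalisation of symmetric matrices by rotations -/
theorem sym_diag {a b d : ℝ} (h : a * d - b ^ 2 = 1) :
    ∃ (θ t : ℝ) (ε : ℝ), 0 ≤ t ∧ (ε = 1 ∨ ε = -1) ∧
      !![a, b; b, d] = ε • (mt (rot θ) * mt (aflow t) * mt (rot (-θ))) := by
  let z : ℂ := ⟨(a - d) / 2, b⟩
  let r : ℝ := ‖z‖
  let φ : ℝ := Complex.arg z
  have h1 : r * Real.cos φ = (a - d) / 2 := Complex.norm_mul_cos_arg z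
  have h2 : r * Real.sin φ = b := Complex.norm_mul_sin_arg z
  have hr : 0 ≤ r := norm_nonneg z
  have hφ := Real.cos_sq_add_sin_sq φ
  set m : ℝ := (a + d) / 2 with hm
  have hr2 : r ^ 2 = ((a - d) / 2) ^ 2 + b ^ 2 := by
    rw [← h1, ← h2]; nlinarith
  have hprod : (m + r) * (m - r) = 1 := by
    have : (m + r) * (m - r) = m ^ 2 - r ^ 2 := by ring
    rw [this, hr2, hm, ← h]; ring
  have hc : Real.cos φ = Real.cos (φ / 2) ^ 2 - Real.sin (φ / 2) ^ 2 := by
    have := Real.cos_two_mul (φ / 2)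
    have h3 := Real.cos_sq_add_sin_sq (φ / 2)
    rw [show 2 * (φ / 2) = φ by ring] at this
    linarith
  have hs' : Real.sin φ = 2 * Real.sin (φ / 2) * Real.cos (φ / 2) := by
    have := Real.sin_two_mul (φ / 2)
    rwa [show 2 * (φ / 2) = φ by ring] at this
  have h3 := Real.cos_sq_add_sin_sq (φ / 2)
  have ha : a = m + r * (Real.cos (φ / 2) ^ 2 - Real.sin (φ / 2) ^ 2) := by
    rw [← hc, h1, hm]; ring
  have hd : d = m - r * (Real.cos (φ / 2) ^ 2 - Real.sin (φ / 2) ^ 2) := by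
    rw [← hc, h1, hm]; ring
  have hb : b = r * (2 * Real.sin (φ / 2) * Real.cos (φ / 2)) := by rw [← hs', h2]
  by_cases hpos : 0 < m + r
  · have hpos' : 0 < m - r := by
      by_contra hcon
      push Not at hcon
      nlinarith
    have hge : 1 ≤ m + r := by nlinarith
    refine ⟨φ / 2, 2 * Real.log (m + r), 1, by have := Real.log_nonneg hge; linarith, Or.inl rfl, ?_⟩
    have e1 : Real.exp (2 * Real.log (m + r) / 2) = m + r := by
      rw [show 2 * Real.log (m + r) / 2 = Real.log (m + r) by ring, Real.exp_log hpos]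
    have e2 : Real.exp (-(2 * Real.log (m + r)) / 2) = m - r := by
      rw [show -(2 * Real.log (m + r)) / 2 = -Real.log (m + r) by ring, Real.exp_neg,
        Real.exp_log hpos]
      exact (eq_inv_of_mul_eq_one_right hprod).symm
    rw [one_smul, mt_rot, mt_rot, mt_aflow, e1, e2, Matrix.mul_fin_two, Matrix.mul_fin_two,
      Real.cos_neg, Real.sin_neg]
    generalize Real.cos (φ / 2) = x at *
    generalize Real.sin (φ / 2) = y at *
    have f1 : a = (x * (m + r) + -y * 0) * x + (x * 0 + -y * (m - r)) * -y := by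
      rw [ha]; linear_combination (-m) * h3
    have f2 : b = (x * (m + r) + -y * 0) * -(-y) + (x * 0 + -y * (m - r)) * x := by
      rw [hb]; ring
    have f3 : b = (y * (m + r) + x * 0) * x + (y * 0 + x * (m - r)) * -y := by
      rw [hb]; ring
    have f4 : d = (y * (m + r) + x * 0) * -(-y) + (y * 0 + x * (m - r)) * x := by
      rw [hd]; linear_combination (-m) * h3
    rw [← f1, ← f2, ← f3, ← f4]
  · have hneg : m + r < 0 := by
      rcases lt_or_eq_of_le (not_lt.mp hpos) with h4 | h4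
      · exact h4
      · rw [h4, zero_mul] at hprod; exact absurd hprod (by norm_num)
    have hneg' : m - r < 0 := by linarith
    have hge : 1 ≤ -(m - r) := by nlinarith
    refine ⟨φ / 2 + Real.pi / 2, 2 * Real.log (-(m - r)), -1,
      by have := Real.log_nonneg hge; linarith, Or.inr rfl, ?_⟩
    have e1 : Real.exp (2 * Real.log (-(m - r)) / 2) = -(m - r) := by
      rw [show 2 * Real.log (-(m - r)) / 2 = Real.log (-(m - r)) by ring,
        Real.exp_log (by linarith)]
    have e2 : Real.exp (-(2 * Real.log (-(m - r))) / 2) = -(m + r) := by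
      rw [show -(2 * Real.log (-(m - r))) / 2 = -Real.log (-(m - r)) by ring, Real.exp_neg,
        Real.exp_log (by linarith)]
      have : -(m - r) * -(m + r) = 1 := by linarith
      exact (eq_inv_of_mul_eq_one_right this).symm
    have c1 : Real.cos (φ / 2 + Real.pi / 2) = -Real.sin (φ / 2) := Real.cos_add_pi_div_two _
    have c2 : Real.sin (φ / 2 + Real.pi / 2) = Real.cos (φ / 2) := Real.sin_add_pi_div_two _
    rw [mt_rot, mt_rot, mt_aflow, e1, e2, Matrix.mul_fin_two, Matrix.mul_fin_two,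
      Real.cos_neg, Real.sin_neg, c1, c2]
    generalize Real.cos (φ / 2) = x at *
    generalize Real.sin (φ / 2) = y at *
    have f1 : a = -1 * ((-y * -(m - r) + -x * 0) * -y + (-y * 0 + -x * -(m + r)) * -x) := by
      rw [ha]; linear_combination (-m) * h3
    have f2 : b = -1 * ((-y * -(m - r) + -x * 0) * -(-x) + (-y * 0 + -x * -(m + r)) * -y) := by
      rw [hb]; ring
    have f3 : b = -1 * ((x * -(m - r) + -y * 0) * -y + (x * 0 + -y * -(m + r)) * -x) := by
      rw [hb]; ring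
    have f4 : d = -1 * ((x * -(m - r) + -y * 0) * -(-x) + (x * 0 + -y * -(m + r)) * -y) := by
      rw [hd]; linear_combination (-m) * h3
    ext i j
    fin_cases i <;> fin_cases j
    · exact f1
    · exact f2
    · exact f3
    · exact f4

/-- Cartan decomposition -/
theorem kak (g : G2) : ∃ (k k' : G2) (t : ℝ), 0 ≤ t ∧ Orth k ∧ Orth k' ∧ g = k * aflow t * k' := by
  set a := mt g 0 0
  set b := mt g 0 1
  set c := mt g 1 0
  set d := mt g 1 1
  have hdet : a * d - b * c = 1 := det2 g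
  have hS : (mt g)ᵀ * mt g = !![a ^ 2 + c ^ 2, a * b + c * d; a * b + c * d, b ^ 2 + d ^ 2] := by
    ext i j
    fin_cases i <;> fin_cases j <;> simp [Matrix.mul_apply, Fin.sum_univ_two, a, b, c, d] <;> ring
  have hS1 : (a ^ 2 + c ^ 2) * (b ^ 2 + d ^ 2) - (a * b + c * d) ^ 2 = 1 := by
    have : (a ^ 2 + c ^ 2) * (b ^ 2 + d ^ 2) - (a * b + c * d) ^ 2 = (a * d - b * c) ^ 2 := by ring
    rw [this, hdet]; norm_num
  obtain ⟨θ, t, ε, ht, hε, heq⟩ := sym_diag hS1
  rw [← hS] at heq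
  have hε1 : ε = 1 := by
    rcases hε with h | h
    · exact h
    · exfalso
      have h1 := congrArg Matrix.trace heq
      rw [← hs_trace, Matrix.trace_smul, Matrix.trace_mul_comm, ← Matrix.mul_assoc] at h1
      have h2 : mt (rot (-θ)) * mt (rot θ) = 1 := by
        rw [rot_neg]
        exact mt_inv_mul _
      rw [h2, one_mul, h] at h1
      have h3 := two_le_hs g
      have h4 : (mt (aflow t)).trace = Real.exp (t / 2) + Real.exp (-t / 2) := by
        rw [mt_aflow]; simp [Matrix.trace_fin_two]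
      rw [h4] at h1
      have := Real.exp_pos (t / 2)
      have := Real.exp_pos (-t / 2)
      simp only [smul_eq_mul] at h1
      linarith
  rw [hε1, one_smul] at heq
  have hrr : mt (rot (-θ)) * mt (rot θ) = 1 := by
    rw [rot_neg]
    exact mt_inv_mul _
  have haf : mt (aflow (-(t / 2))) * mt (aflow t) * mt (aflow (-(t / 2))) = 1 := by
    have h1 : aflow (-(t / 2)) * aflow t * aflow (-(t / 2)) = 1 := by
      rw [← aflow_add, ← aflow_add]; ring_nf; exact aflow_zero
    exact congrArg (fun g : G2 => g.1) h1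
  have hat : (mt (aflow (-(t / 2))))ᵀ = mt (aflow (-(t / 2))) := by
    rw [mt_aflow]
    ext i j
    fin_cases i <;> fin_cases j <;> simp
  have hrt : (mt (rot θ))ᵀ = mt (rot (-θ)) := by
    rw [mt_rot, mt_rot]
    ext i j
    fin_cases i <;> fin_cases j <;> simp
  refine ⟨g * rot θ * aflow (-(t / 2)), rot (-θ), t / 2, by linarith, ?_, orth_rot _, ?_⟩
  · rw [Orth]
    change (mt g * mt (rot θ) * mt (aflow (-(t / 2))))ᵀ *
      (mt g * mt (rot θ) * mt (aflow (-(t / 2)))) = 1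
    rw [Matrix.transpose_mul, Matrix.transpose_mul, hat, hrt]
    calc mt (aflow (-(t / 2))) * (mt (rot (-θ)) * (mt g)ᵀ) *
          (mt g * mt (rot θ) * mt (aflow (-(t / 2))))
        = mt (aflow (-(t / 2))) * (mt (rot (-θ)) * ((mt g)ᵀ * mt g) * mt (rot θ)) *
          mt (aflow (-(t / 2))) := by simp only [Matrix.mul_assoc]
      _ = mt (aflow (-(t / 2))) * ((mt (rot (-θ)) * mt (rot θ)) * mt (aflow t) *
          (mt (rot (-θ)) * mt (rot θ))) * mt (aflow (-(t / 2))) := by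
          rw [heq]; simp only [Matrix.mul_assoc]
      _ = 1 := by rw [hrr, one_mul, mul_one, ← haf]
  · rw [mul_assoc (g * rot θ), ← aflow_add, show -(t / 2) + t / 2 = 0 by ring, aflow_zero, mul_one,
      rot_neg, mul_assoc, mul_inv_cancel, mul_one]

end K4H41.SA
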