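import Mathlib
import Pool.Agent.K4H41.SA.Group

/-! Decomposition of the elements of a cocompact discrete subgroup along a geodesic. -/

namespace K4H41.SA

open Matrix Filter Topology

/-- what we use about the surface group -/
structure SG (Γ : Subgroup G2) : Prop where
  fin : ∀ R : ℝ, {γ : Γ | hs (mt (γ : G2)) ≤ R}.Finite
  coc : ∃ M : ℝ, ∀ x : G2, ∃ γ : Γ, hs (mt ((γ : G2) * x)) ≤ M
  tf : ∀ γ : Γ, ∀ n : ℕ, 0 < n → γ ^ n = 1 → γ = 1

theorem hs_mt_mul (g h : G2) : hs (mt (g * h)) ≤ hs (mt g) * hs (mt h) := hs_mul _ _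

/-- the element `diag(4, 1/4)` -/
noncomputable def a4 : G2 := aflow (2 * Real.log 4)

theorem mt_a4 : mt a4 = !![4, 0; 0, 1 / 4] := by
  rw [a4, mt_aflow]
  have h1 : Real.exp (2 * Real.log 4 / 2) = 4 := by
    rw [show 2 * Real.log 4 / 2 = Real.log 4 by ring, Real.exp_log (by norm_num)]
  have h2 : Real.exp (-(2 * Real.log 4) / 2) = 1 / 4 := by
    rw [show -(2 * Real.log 4) / 2 = -Real.log 4 by ring, Real.exp_neg,
      Real.exp_log (by norm_num)]
    norm_num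
  rw [h1, h2]

theorem a4_pow (n : ℕ) : a4 ^ n = aflow (n * (2 * Real.log 4)) := by
  induction n with
  | zero => simp [aflow_zero]
  | succ n ih => rw [pow_succ, ih, a4, ← aflow_add]; push_cast; ring_nf

variable {Γ : Subgroup G2}

theorem decomp {M : ℝ} (hM : ∀ x : G2, ∃ γ : Γ, hs (mt ((γ : G2) * x)) ≤ M) (g : G2) :
    ∃ (N : ℕ) (γ : ℕ → Γ) (d : ℕ → G2), (∀ j, hs (mt (d j)) ≤ M) ∧
      (∀ j, ((γ j * (γ (j + 1))⁻¹ : Γ) : G2) = d j * a4 * (d (j + 1))⁻¹) ∧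
      hs (mt (γ 0 : G2)) ≤ M ∧ hs (mt ((γ N : G2) * g)) ≤ M * 32 ∧
      (16 : ℝ) ^ N ≤ hs (mt g) ∧ hs (mt g) ≤ 32 * 16 ^ N := by
  obtain ⟨k, k', t, ht, hk, hk', rfl⟩ := kak g
  have hμ : (1 : ℝ) ≤ Real.exp t := Real.one_le_exp ht
  obtain ⟨N, hN1, hN2⟩ := exists_nat_pow_near hμ (by norm_num : (1 : ℝ) < 16)
  choose γ hγ using fun j : ℕ => hM (k * a4 ^ j)
  have hM0 : 0 ≤ M := (hs_nonneg _).trans (hγ 0)
  have hhs : hs (mt (k * aflow t * k')) = Real.exp t + Real.exp (-t) := by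
    rw [mt_mul, hs_orth_right hk', mt_mul, hs_orth_left hk, hs_aflow]
  have he : 0 < Real.exp (-t) ∧ Real.exp (-t) ≤ 1 := by
    refine ⟨Real.exp_pos _, Real.exp_le_one_iff.mpr (by linarith)⟩
  refine ⟨N, γ, fun j => γ j * (k * a4 ^ j), hγ, ?_, ?_, ?_, ?_, ?_⟩
  · intro j
    simp only [Subgroup.coe_mul, Subgroup.coe_inv]
    rw [pow_succ]; group
  · have h1 := hγ 0
    rw [pow_zero, mul_one, mt_mul, hs_orth_right hk] at h1
    exact h1
  · have h1 : (γ N : G2) * (k * aflow t * k') =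
        ((γ N : G2) * (k * a4 ^ N)) * (aflow (t - N * (2 * Real.log 4)) * k') := by
      have h2 : a4 ^ N * aflow (t - N * (2 * Real.log 4)) = aflow t := by
        rw [a4_pow, ← aflow_add]; ring_nf
      rw [← h2]; group
    rw [h1]
    refine (hs_mt_mul _ _).trans (mul_le_mul (hγ N) ?_ (hs_nonneg _) hM0)
    rw [mt_mul, hs_orth_right hk', hs_aflow]
    have h4 : Real.exp (N * (2 * Real.log 4)) = 16 ^ N := by
      rw [← Real.rpow_natCast, Real.rpow_def_of_pos (by norm_num)]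
      congr 1
      rw [show (16 : ℝ) = 4 ^ 2 by norm_num, Real.log_pow]
      push_cast; ring
    rw [Real.exp_sub, Real.exp_neg, Real.exp_sub, h4]
    have h16 : (0 : ℝ) < 16 ^ N := by positivity
    have hexp := Real.exp_pos t
    have h5 : Real.exp t / 16 ^ N ≤ 16 := by
      rw [div_le_iff₀ h16]; rw [pow_succ] at hN2; linarith
    have h6 : (Real.exp t / 16 ^ N)⁻¹ ≤ 1 := by
      apply inv_le_one_of_one_le₀
      rw [le_div_iff₀ h16]; linarith
    linarith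
  · rw [hhs]; linarith
  · rw [hhs]; rw [pow_succ] at hN2
    have : (1 : ℝ) ≤ 16 ^ N := one_le_pow₀ (by norm_num)
    linarith

variable {𝕜 : Type*} [RCLike 𝕜] {ι : Type*} [Fintype ι] [DecidableEq ι]

/-- the finite generating set -/
noncomputable def gens (Γ : Subgroup G2) (R : ℝ) : Set Γ := {γ : Γ | hs (mt (γ : G2)) ≤ R}

/-- products along the decomposition -/
theorem decomp_prod {M : ℝ} (hM : ∀ x : G2, ∃ γ : Γ, hs (mt ((γ : G2) * x)) ≤ M) (g : Γ) :
    ∃ (N : ℕ) (δ : ℕ → Γ) (α β : Γ), (∀ j, hs (mt (δ j : G2)) ≤ M * 17 * M) ∧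
      hs (mt (α : G2)) ≤ M ∧ hs (mt (β : G2)) ≤ M * 32 ∧
      g = α * ((List.range N).map δ).prod * β ∧ (16 : ℝ) ^ N ≤ hs (mt (g : G2)) := by
  obtain ⟨N, γ, d, hd, hδ, h0, hN, h16, -⟩ := decomp hM (g : G2)
  have hM0 : 0 ≤ M := (hs_nonneg _).trans (hd 0)
  refine ⟨N, fun j => γ j * (γ (j + 1))⁻¹, (γ 0)⁻¹, γ N * g, ?_, ?_, ?_, ?_, h16⟩
  · intro j
    rw [hδ j]
    refine (hs_mt_mul _ _).trans (mul_le_mul ?_ ?_ (hs_nonneg _) (by positivity))
    · refine (hs_mt_mul _ _).trans (mul_le_mul (hd j) ?_ (hs_nonneg _) hM0)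
      rw [mt_a4, hs2]; norm_num
    · rw [hs_inv]; exact hd (j + 1)
  · rw [Subgroup.coe_inv, hs_inv]; exact h0
  · exact hN
  · have key : ∀ n : ℕ, ((List.range n).map fun j => γ j * (γ (j + 1))⁻¹).prod =
        γ 0 * (γ n)⁻¹ := by
      intro n
      induction n with
      | zero => simp
      | succ n ih =>
        rw [List.range_succ, List.map_append, List.prod_append, ih]
        simp
    rw [key]; group

theorem exists_gens (h : SG Γ) : ∃ S : Finset Γ, Submonoid.closure (S : Set Γ) = ⊤ := by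
  obtain ⟨M, hM⟩ := h.coc
  have hM0 : 0 ≤ M := by
    obtain ⟨γ, hγ⟩ := hM 1
    exact (hs_nonneg _).trans hγ
  let R := max (M * 17 * M) (M * 32)
  refine ⟨(h.fin R).toFinset, ?_⟩
  rw [eq_top_iff]
  intro g _
  obtain ⟨N, δ, α, β, hδ, hα, hβ, hg, -⟩ := decomp_prod hM g
  have hmem : ∀ γ : Γ, hs (mt (γ : G2)) ≤ R →
      γ ∈ Submonoid.closure (((h.fin R).toFinset : Finset Γ) : Set Γ) := fun γ hγ =>
    Submonoid.subset_closure (by simpa using hγ)
  rw [hg]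
  refine Submonoid.mul_mem _ (Submonoid.mul_mem _ (hmem α ?_) ?_) (hmem β (hβ.trans (le_max_right _ _)))
  · exact (hα.trans (by linarith)).trans (le_max_right _ _)
  · apply Submonoid.list_prod_mem
    intro x hx
    obtain ⟨j, -, rfl⟩ := List.mem_map.mp hx
    exact hmem _ ((hδ j).trans (le_max_left _ _))

/-- polynomial growth of all representations -/
theorem poly_growth (h : SG Γ) (ψ : Γ →* Matrix ι ι 𝕜) :
    ∃ (C : ℝ) (a : ℕ), 0 < C ∧ ∀ g : Γ, hs (ψ g) ≤ C * hs (mt (g : G2)) ^ a := by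
  obtain ⟨M, hM⟩ := h.coc
  let R := max (max (M * 17 * M) (M * 32)) M
  obtain ⟨L, hL⟩ : ∃ L : ℝ, ∀ γ : Γ, hs (mt (γ : G2)) ≤ R → hs (ψ γ) ≤ L := by
    have h1 : (Set.image (fun γ : Γ => hs (ψ γ)) {γ : Γ | hs (mt (γ : G2)) ≤ R}).Finite :=
      (h.fin R).image _
    obtain ⟨L, hL⟩ := h1.bddAbove
    exact ⟨L, fun γ hγ => hL ⟨γ, hγ, rfl⟩⟩
  let L' := max L 1
  obtain ⟨a, ha⟩ : ∃ a : ℕ, L' ≤ 16 ^ a := by
    obtain ⟨a, ha⟩ := pow_unbounded_of_one_lt L' (by norm_num : (1 : ℝ) < 16)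
    exact ⟨a, ha.le⟩
  have hL'1 : 1 ≤ L' := le_max_right _ _
  have hL' : ∀ γ : Γ, hs (mt (γ : G2)) ≤ R → hs (ψ γ) ≤ L' := fun γ hγ =>
    (hL γ hγ).trans (le_max_left _ _)
  refine ⟨(hs (1 : Matrix ι ι 𝕜) + 1) * L' * L', a, by
    have := hs_nonneg (1 : Matrix ι ι 𝕜); positivity, fun g => ?_⟩
  obtain ⟨N, δ, α, β, hδ, hα, hβ, hg, h16⟩ := decomp_prod hM g
  have key : ∀ n : ℕ, hs (ψ ((List.range n).map δ).prod) ≤ (hs (1 : Matrix ι ι 𝕜) + 1) * L' ^ n := by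
    intro n
    induction n with
    | zero => simp
    | succ n ih =>
      rw [List.range_succ, List.map_append, List.prod_append, map_mul]
      simp only [List.map_cons, List.map_nil, List.prod_singleton]
      refine (hs_mul _ _).trans ?_
      rw [pow_succ, ← mul_assoc]
      refine mul_le_mul ih (hL' _ ((hδ n).trans ((le_max_left _ _).trans (le_max_left _ _))))
        (hs_nonneg _) ?_
      have := hs_nonneg (1 : Matrix ι ι 𝕜); positivity
  rw [hg, map_mul, map_mul, ← hg]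
  have h1 := key N
  have h2 := hL' α (hα.trans (le_max_right _ _))
  have h3 := hL' β (hβ.trans ((le_max_right _ _).trans (le_max_left _ _)))
  have h4 : L' ^ N ≤ hs (mt (g : G2)) ^ a := by
    calc L' ^ N ≤ (16 ^ a) ^ N := pow_le_pow_left₀ (by linarith) ha N
      _ = (16 ^ N) ^ a := by rw [← pow_mul, ← pow_mul, mul_comm]
      _ ≤ _ := pow_le_pow_left₀ (by positivity) h16 a
  have h5 := hs_nonneg (1 : Matrix ι ι 𝕜)
  calc hs (ψ α * ψ ((List.range N).map δ).prod * ψ β)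
      ≤ hs (ψ α) * hs (ψ ((List.range N).map δ).prod) * hs (ψ β) :=
        (hs_mul _ _).trans (mul_le_mul_of_nonneg_right (hs_mul _ _) (hs_nonneg _))
    _ ≤ L' * ((hs (1 : Matrix ι ι 𝕜) + 1) * L' ^ N) * L' := by
        refine mul_le_mul (mul_le_mul h2 h1 (hs_nonneg _) (by linarith)) h3 (hs_nonneg _) (by positivity)
    _ = (hs (1 : Matrix ι ι 𝕜) + 1) * L' * L' * L' ^ N := by ring
    _ ≤ _ := mul_le_mul_of_nonneg_left h4 (by positivity)

end K4H41.SA
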