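import Mathlib
import Pool.Agent.K4H41.SA.Min

/-! Limits of conjugates of tuples of matrices with converging characters. -/

namespace K4H41.SA

open Matrix Filter Topology

variable {𝕜 : Type*} [RCLike 𝕜] {ι : Type*} [Fintype ι] [DecidableEq ι]
variable {κ : Type*} [Fintype κ]

omit [DecidableEq ι] in
theorem ultra_lim (𝒰 : Ultrafilter ℕ) (f : ℕ → κ → Matrix ι ι 𝕜) {C : ℝ}
    (hC : ∀ᶠ n in (𝒰 : Filter ℕ), En (f n) ≤ C) : ∃ B, Tendsto f 𝒰 (𝓝 B) := by
  have key : ∀ k i j, ∃ b : 𝕜, Tendsto (fun n => f n k i j) 𝒰 (𝓝 b) := by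
    intro k i j
    have h1 : ∀ᶠ n in (𝒰 : Filter ℕ), f n k i j ∈ Metric.closedBall (0 : 𝕜) (C + 1) := by
      filter_upwards [hC] with n hn
      have h2 := (entry_le_hs (f n k) i j).trans ((hs_le_En (f n) k).trans hn)
      rw [mem_closedBall_zero_iff]
      have h3 := norm_nonneg (f n k i j)
      nlinarith
    obtain ⟨b, -, hb⟩ := (isCompact_closedBall (0 : 𝕜) (C + 1)).ultrafilter_le_nhds'
      (𝒰.map fun n => f n k i j) h1
    exact ⟨b, hb⟩
  choose b hb using key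
  refine ⟨fun k i j => b k i j, ?_⟩
  refine tendsto_pi_nhds.mpr fun k => tendsto_pi_nhds.mpr fun i => tendsto_pi_nhds.mpr fun j => ?_
  exact hb k i j

/-- infimum of the energy over the conjugation orbit -/
noncomputable def mN (A : κ → Matrix ι ι 𝕜) : ℝ := ⨅ h : (Matrix ι ι 𝕜)ˣ, En (cj h A)

theorem mN_le (A : κ → Matrix ι ι 𝕜) (h : (Matrix ι ι 𝕜)ˣ) : mN A ≤ En (cj h A) :=
  ciInf_le ⟨0, by rintro _ ⟨h, rfl⟩; exact En_nonneg _⟩ h

theorem mN_nonneg (A : κ → Matrix ι ι 𝕜) : 0 ≤ mN A := le_ciInf fun _ => En_nonneg _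

theorem exists_near (A : κ → Matrix ι ι 𝕜) {ε : ℝ} (hε : 0 < ε) :
    ∃ h : (Matrix ι ι 𝕜)ˣ, En (cj h A) < mN A + ε :=
  exists_lt_of_ciInf_lt (lt_add_of_pos_right _ hε)

theorem lim_min (𝒰 : Ultrafilter ℕ) (A : ℕ → κ → Matrix ι ι 𝕜) (h : ℕ → (Matrix ι ι 𝕜)ˣ)
    (ε : ℕ → ℝ) (hε : Tendsto ε 𝒰 (𝓝 0)) (hh : ∀ n, En (cj (h n) (A n)) ≤ mN (A n) + ε n)
    {C : ℝ} (hC : ∀ᶠ n in (𝒰 : Filter ℕ), En (cj (h n) (A n)) ≤ C) :
    ∃ B, Tendsto (fun n => cj (h n) (A n)) 𝒰 (𝓝 B) ∧ Minimal' B := by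
  obtain ⟨B, hB⟩ := ultra_lim 𝒰 _ hC
  refine ⟨B, hB, fun g => ?_⟩
  have h1 : Tendsto (fun n => En (cj (h n) (A n)) - ε n) 𝒰 (𝓝 (En B - 0)) :=
    ((continuous_En.tendsto B).comp hB).sub hε
  have h2 : Tendsto (fun n => En (cj g (cj (h n) (A n)))) 𝒰 (𝓝 (En (cj g B))) :=
    (((continuous_En.comp (continuous_cj g)).tendsto B)).comp hB
  rw [sub_zero] at h1
  refine le_of_tendsto_of_tendsto h1 h2 (Eventually.of_forall fun n => ?_)
  have h3 := hh n
  have h4 := mN_le (A n) (g * h n)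
  rw [cj_mul] at h4
  simp only
  linarith

/-- words in a tuple -/
def wd (A : κ → Matrix ι ι 𝕜) (l : List κ) : Matrix ι ι 𝕜 := (l.map A).prod

omit [Fintype κ] in
theorem wd_cj (h : (Matrix ι ι 𝕜)ˣ) (A : κ → Matrix ι ι 𝕜) (l : List κ) :
    wd (cj h A) l = (h : Matrix ι ι 𝕜) * wd A l * ((h⁻¹ : (Matrix ι ι 𝕜)ˣ) : Matrix ι ι 𝕜) := by
  induction l with
  | nil => simp [wd]
  | cons k l ih =>
    have h1 : wd (cj h A) (k :: l) = cj h A k * wd (cj h A) l := by simp [wd]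
    have h2 : wd A (k :: l) = A k * wd A l := by simp [wd]
    rw [h1, ih, h2, cj]
    calc (h : Matrix ι ι 𝕜) * A k * ((h⁻¹ : (Matrix ι ι 𝕜)ˣ) : Matrix ι ι 𝕜) *
          ((h : Matrix ι ι 𝕜) * wd A l * ((h⁻¹ : (Matrix ι ι 𝕜)ˣ) : Matrix ι ι 𝕜))
        = (h : Matrix ι ι 𝕜) * A k * (((h⁻¹ : (Matrix ι ι 𝕜)ˣ) : Matrix ι ι 𝕜) *
          (h : Matrix ι ι 𝕜)) * wd A l * ((h⁻¹ : (Matrix ι ι 𝕜)ˣ) : Matrix ι ι 𝕜) := by
          simp only [Matrix.mul_assoc]
      _ = _ := by rw [Units.inv_mul, mul_one]; simp only [Matrix.mul_assoc]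

omit [Fintype κ] in
theorem trace_wd_cj (h : (Matrix ι ι 𝕜)ˣ) (A : κ → Matrix ι ι 𝕜) (l : List κ) :
    (wd (cj h A) l).trace = (wd A l).trace := by
  rw [wd_cj, Matrix.mul_assoc, Matrix.trace_mul_comm, Matrix.mul_assoc, Units.inv_mul, mul_one]

omit [Fintype κ] in
theorem continuous_wd (l : List κ) : Continuous fun A : κ → Matrix ι ι 𝕜 => wd A l := by
  induction l with
  | nil => simpa [wd] using continuous_const
  | cons k l ih =>
    have : (fun A : κ → Matrix ι ι 𝕜 => wd A (k :: l)) = fun A => A k * wd A l := by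
      funext A; simp [wd]
    rw [this]
    exact (continuous_apply k).mul ih

omit [Fintype κ] in
theorem wd_smul (c : 𝕜) (A : κ → Matrix ι ι 𝕜) (l : List κ) :
    wd (c • A) l = c ^ l.length • wd A l := by
  induction l with
  | nil => simp [wd]
  | cons k l ih =>
    have h1 : wd (c • A) (k :: l) = (c • A k) * wd (c • A) l := by simp [wd]
    have h2 : wd A (k :: l) = A k * wd A l := by simp [wd]
    rw [h1, ih, h2, List.length_cons, Matrix.smul_mul, Matrix.mul_smul, smul_smul, pow_succ']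

omit [DecidableEq ι] in
theorem continuous_trace' : Continuous fun A : Matrix ι ι 𝕜 => A.trace := by
  unfold Matrix.trace
  fun_prop

/-- a minimal tuple whose words have trace zero vanishes -/
theorem min_nil {B : κ → Matrix ι ι 𝕜} (hB : Minimal' B)
    (ht : ∀ l : List κ, l ≠ [] → (wd B l).trace = 0) : ∀ k, B k = 0 := by
  let S : Set (Matrix ι ι 𝕜) := {X | ∃ l : List κ, l ≠ [] ∧ X = wd B l}
  let J : Submodule 𝕜 (Matrix ι ι 𝕜) := Submodule.span 𝕜 S
  have hSS : ∀ X ∈ S, ∀ Y ∈ S, X * Y ∈ S := by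
    rintro _ ⟨l, hl, rfl⟩ _ ⟨m, hm, rfl⟩
    exact ⟨l ++ m, by simp [hl], by simp [wd]⟩
  have hmul : ∀ X ∈ J, ∀ Y ∈ J, X * Y ∈ J := by
    intro X hX Y hY
    induction hX, hY using Submodule.span_induction₂ with
    | mem_mem x y hx hy => exact Submodule.subset_span (hSS x hx y hy)
    | zero_left y hy => simp
    | zero_right x hx => simp
    | add_left x y z hx hy hz h1 h2 => rw [add_mul]; exact J.add_mem h1 h2
    | add_right x y z hx hy hz h1 h2 => rw [mul_add]; exact J.add_mem h1 h2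
    | smul_left r x y hx hy h1 => rw [Matrix.smul_mul]; exact J.smul_mem _ h1
    | smul_right r x y hx hy h1 => rw [Matrix.mul_smul]; exact J.smul_mem _ h1
  have htr : ∀ X ∈ J, X.trace = 0 := by
    intro X hX
    induction hX using Submodule.span_induction with
    | mem x hx => obtain ⟨l, hl, rfl⟩ := hx; exact ht l hl
    | zero => simp
    | add x y hx hy h1 h2 => rw [Matrix.trace_add, h1, h2, add_zero]
    | smul c x hx h1 => rw [Matrix.trace_smul, h1, smul_zero]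
  have hnil : ∀ X ∈ J, IsNilpotent X := by
    intro X hX
    apply nilp_of_trace
    intro j hj
    have : ∀ m : ℕ, X ^ (m + 1) ∈ J := by
      intro m
      induction m with
      | zero => simpa using hX
      | succ m ih => rw [pow_succ]; exact hmul _ ih _ hX
    obtain ⟨m, rfl⟩ := Nat.exists_eq_add_of_le' hj
    exact htr _ (this m)
  have hBJ : ∀ k, B k ∈ J := fun k => Submodule.subset_span ⟨[k], by simp, by simp [wd]⟩
  -- common kernel
  let Z : Submodule 𝕜 (ι → 𝕜) :=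
    { carrier := {v | ∀ Y ∈ J, Y *ᵥ v = 0}
      zero_mem' := fun Y _ => Matrix.mulVec_zero Y
      add_mem' := fun {a b} ha hb Y hY => by rw [Matrix.mulVec_add, ha Y hY, hb Y hY, add_zero]
      smul_mem' := fun c a ha Y hY => by rw [Matrix.mulVec_smul, ha Y hY, smul_zero] }
  obtain ⟨E, hE, hEE, hE1, hE2⟩ := exists_proj Z
  have hJE : ∀ Y ∈ J, Y * E = 0 := by
    intro Y hY
    apply Matrix.mulVec_injective
    funext v
    rw [← Matrix.mulVec_mulVec, Matrix.zero_mulVec]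
    exact hE1 v Y hY
  have hEB := hB.compl hE hEE (fun k => by rw [Matrix.mul_assoc, hJE _ (hBJ k), mul_zero])
  have hEB0 : ∀ k, E * B k = 0 := fun k => by
    rw [hEB k, Matrix.mul_assoc, hJE _ (hBJ k), mul_zero]
  have hEJ : ∀ Y ∈ J, E * Y = 0 := by
    intro Y hY
    induction hY using Submodule.span_induction with
    | mem x hx =>
      obtain ⟨l, hl, rfl⟩ := hx
      cases l with
      | nil => exact absurd rfl hl
      | cons k l =>
        have : wd B (k :: l) = B k * wd B l := by simp [wd]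
        rw [this, ← Matrix.mul_assoc, hEB0, zero_mul]
    | zero => simp
    | add x y hx hy h1 h2 => rw [mul_add, h1, h2, add_zero]
    | smul c x hx h1 => rw [Matrix.mul_smul, h1, smul_zero]
  let U : Submodule 𝕜 (ι → 𝕜) := LinearMap.ker (Matrix.mulVecLin E)
  by_cases hU : U = ⊥
  · -- E is injective
    have hE1' : E = 1 := by
      have hinj : Function.Injective (Matrix.mulVecLin E) := LinearMap.ker_eq_bot.mp hU
      apply Matrix.mulVec_injective
      funext v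
      apply hinj
      simp only [Matrix.mulVecLin_apply, Matrix.mulVec_mulVec, Matrix.one_mulVec]
      rw [hEE]
    intro k
    have := hEB0 k
    rwa [hE1', one_mul] at this
  · exfalso
    obtain ⟨v, hv, hv0, hvJ⟩ := common_kernel J J le_rfl hmul hnil U hU (by
      intro X hX v _
      change E *ᵥ (X *ᵥ v) = 0
      rw [Matrix.mulVec_mulVec, hEJ X hX, Matrix.zero_mulVec])
    have h1 : E *ᵥ v = v := hE2 v hvJ
    have h2 : E *ᵥ v = 0 := hv
    exact hv0 (h1.symm.trans h2)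

/-- tuples all of whose words have trace zero can be conjugated close to zero -/
theorem conj_small {A : κ → Matrix ι ι 𝕜} (ht : ∀ l : List κ, l ≠ [] → (wd A l).trace = 0)
    {ε : ℝ} (hε : 0 < ε) : ∃ h : (Matrix ι ι 𝕜)ˣ, En (cj h A) < ε := by
  let 𝒰 : Ultrafilter ℕ := hyperfilter ℕ
  have hpos : ∀ n : ℕ, 0 < 1 / ((n : ℝ) + 1) := fun n => by positivity
  have hle : ∀ n : ℕ, 1 / ((n : ℝ) + 1) ≤ 1 := fun n => by
    rw [div_le_one (by positivity)]; linarith [n.cast_nonneg (α := ℝ)]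
  choose h hh using fun n : ℕ => exists_near A (hpos n)
  have hε' : Tendsto (fun n : ℕ => 1 / ((n : ℝ) + 1)) 𝒰 (𝓝 0) :=
    (tendsto_one_div_add_atTop_nhds_zero_nat (𝕜 := ℝ)).mono_left Nat.hyperfilter_le_atTop
  obtain ⟨B, hB, hmin⟩ := lim_min 𝒰 (fun _ => A) h _ hε' (fun n => (hh n).le) (C := mN A + 1)
    (Eventually.of_forall fun n => by have := hh n; have := hle n; linarith)
  have hBt : ∀ l : List κ, l ≠ [] → (wd B l).trace = 0 := by
    intro l hl
    have h1 : Tendsto (fun n => (wd (cj (h n) A) l).trace) 𝒰 (𝓝 (wd B l).trace) :=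
      ((continuous_trace'.comp (continuous_wd l)).tendsto B).comp hB
    simp only [trace_wd_cj, ht l hl] at h1
    exact tendsto_nhds_unique h1 tendsto_const_nhds
  have hB0 := min_nil hmin hBt
  have h2 : Tendsto (fun n => En (cj (h n) A)) 𝒰 (𝓝 (En B)) :=
    (continuous_En.tendsto B).comp hB
  have h3 : En B = 0 := by simp [En, hB0, hs_zero]
  rw [h3] at h2
  obtain ⟨n, hn⟩ := (h2.eventually (gt_mem_nhds hε)).exists
  exact ⟨h n, hn⟩

omit [DecidableEq ι] in
theorem En_smul (c : 𝕜) (A : κ → Matrix ι ι 𝕜) : En (c • A) = ‖c‖ ^ 2 * En A := by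
  simp [En, hs_smul, Finset.mul_sum]

omit [Fintype κ] in
theorem cj_smul (c : 𝕜) (h : (Matrix ι ι 𝕜)ˣ) (A : κ → Matrix ι ι 𝕜) :
    cj h (c • A) = c • cj h A := by
  funext k; simp [cj]

/-- boundedness of the minimal energies when the traces of the words are bounded -/
theorem mN_bdd (𝒰 : Ultrafilter ℕ) (A : ℕ → κ → Matrix ι ι 𝕜)
    (ht : ∀ l : List κ, ∃ C : ℝ, ∀ᶠ n in (𝒰 : Filter ℕ), ‖(wd (A n) l).trace‖ ≤ C) :
    ∃ C, ∀ᶠ n in (𝒰 : Filter ℕ), mN (A n) ≤ C := by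
  by_contra hcon
  push Not at hcon
  have hlarge : ∀ C : ℝ, ∀ᶠ n in (𝒰 : Filter ℕ), C < mN (A n) := by
    intro C
    exact hcon C
  choose h hh using fun n : ℕ => exists_near (A n) one_pos
  let r : ℕ → ℝ := fun n => Real.sqrt (En (cj (h n) (A n)))
  have hr2 : ∀ n, r n ^ 2 = En (cj (h n) (A n)) := fun n => Real.sq_sqrt (En_nonneg _)
  have hrlarge : ∀ C : ℝ, ∀ᶠ n in (𝒰 : Filter ℕ), C < r n := by
    intro C
    filter_upwards [hlarge (C ^ 2), hlarge 0] with n hn _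
    have h1 := mN_le (A n) (h n)
    have h2 : C ^ 2 < r n ^ 2 := by rw [hr2]; linarith
    exact lt_of_pow_lt_pow_left₀ 2 (Real.sqrt_nonneg _) h2
  let Bn : ℕ → κ → Matrix ι ι 𝕜 := fun n => (((r n)⁻¹ : ℝ) : 𝕜) • cj (h n) (A n)
  have hBn : ∀ᶠ n in (𝒰 : Filter ℕ), En (Bn n) = 1 := by
    filter_upwards [hrlarge 0] with n hn
    simp only [Bn, En_smul, RCLike.norm_ofReal, ← hr2]
    rw [abs_of_pos (inv_pos.mpr hn)]
    field_simp
  obtain ⟨B, hB⟩ := ultra_lim 𝒰 Bn (C := 1) (by filter_upwards [hBn] with n hn using hn.le)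
  have hEB : En B = 1 := by
    have h1 : Tendsto (fun n => En (Bn n)) 𝒰 (𝓝 (En B)) := (continuous_En.tendsto B).comp hB
    have h2 : Tendsto (fun n => En (Bn n)) 𝒰 (𝓝 1) :=
      tendsto_const_nhds.congr' (by filter_upwards [hBn] with n hn using hn.symm)
    exact tendsto_nhds_unique h1 h2
  have hBt : ∀ l : List κ, l ≠ [] → (wd B l).trace = 0 := by
    intro l hl
    have h1 : Tendsto (fun n => (wd (Bn n) l).trace) 𝒰 (𝓝 (wd B l).trace) :=
      ((continuous_trace'.comp (continuous_wd l)).tendsto B).comp hB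
    obtain ⟨C, hC⟩ := ht l
    have h2 : Tendsto (fun n => (wd (Bn n) l).trace) 𝒰 (𝓝 0) := by
      rw [tendsto_zero_iff_norm_tendsto_zero]
      rw [Metric.tendsto_nhds]
      intro ε hε
      filter_upwards [hC, hrlarge 1, hrlarge ((|C| + 1) / ε)] with n h3 h4 h5
      have hlen : 1 ≤ l.length := by
        rcases l with _ | ⟨a, l⟩
        · exact absurd rfl hl
        · simp
      simp only [Bn]
      rw [wd_smul, Matrix.trace_smul, trace_wd_cj, norm_smul, norm_pow, RCLike.norm_ofReal,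
        dist_zero_right, Real.norm_eq_abs, abs_of_nonneg (by positivity),
        abs_of_pos (inv_pos.mpr (by linarith))]
      have h6 : (r n)⁻¹ ^ l.length ≤ (r n)⁻¹ := by
        have h7 : (r n)⁻¹ ≤ 1 := inv_le_one_of_one_le₀ h4.le
        calc (r n)⁻¹ ^ l.length ≤ (r n)⁻¹ ^ 1 :=
              pow_le_pow_of_le_one (by positivity) h7 hlen
          _ = _ := pow_one _
      have hrpos : 0 < r n := by linarith
      calc (r n)⁻¹ ^ l.length * ‖(wd (A n) l).trace‖ ≤ (r n)⁻¹ * (|C| + 1) := by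
            apply mul_le_mul h6 _ (norm_nonneg _) (by positivity)
            have := le_abs_self C
            linarith
        _ < ε := by
            rw [inv_mul_lt_iff₀ hrpos]
            rw [div_lt_iff₀ hε] at h5
            linarith
    exact tendsto_nhds_unique h1 h2
  obtain ⟨g, hg⟩ := conj_small hBt (ε := 1 / 4) (by norm_num)
  have h7 : Tendsto (fun n => En (cj g (Bn n))) 𝒰 (𝓝 (En (cj g B))) :=
    ((continuous_En.comp (continuous_cj g)).tendsto B).comp hB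
  obtain ⟨n, hn1, hn2, hn3⟩ := ((h7.eventually (gt_mem_nhds hg)).and
    ((hrlarge 0).and (hlarge 1))).exists
  have h8 : En (cj g (Bn n)) = (r n)⁻¹ ^ 2 * En (cj g (cj (h n) (A n))) := by
    simp only [Bn, cj_smul, En_smul, RCLike.norm_ofReal]
    rw [abs_of_pos (inv_pos.mpr hn2)]
  rw [h8, ← cj_mul] at hn1
  have h9 := mN_le (A n) (g * h n)
  have h10 : (r n)⁻¹ ^ 2 * mN (A n) < 1 / 4 :=
    lt_of_le_of_lt (mul_le_mul_of_nonneg_left h9 (by positivity)) hn1
  rw [inv_pow, hr2, inv_mul_lt_iff₀ (by rw [← hr2]; positivity)] at h10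
  have := hh n
  linarith

/-- the limit theorem for representations -/
theorem lim_rep {Γ : Type*} [Monoid Γ] (s : κ → Γ) (hs : Submonoid.closure (Set.range s) = ⊤)
    (𝒰 : Ultrafilter ℕ) (h𝒰 : (𝒰 : Filter ℕ) ≤ atTop) (ρ : ℕ → Γ →* Matrix ι ι 𝕜)
    (ht : ∀ γ : Γ, ∃ C : ℝ, ∀ᶠ n in (𝒰 : Filter ℕ), ‖(ρ n γ).trace‖ ≤ C) :
    ∃ (h : ℕ → (Matrix ι ι 𝕜)ˣ) (ρ' : Γ →* Matrix ι ι 𝕜),
      (∀ γ, Tendsto (fun n => (h n : Matrix ι ι 𝕜) * ρ n γ *
        (((h n)⁻¹ : (Matrix ι ι 𝕜)ˣ) : Matrix ι ι 𝕜)) 𝒰 (𝓝 (ρ' γ))) ∧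
      Minimal' (fun k => ρ' (s k)) := by
  let A : ℕ → κ → Matrix ι ι 𝕜 := fun n k => ρ n (s k)
  have hwd : ∀ n (l : List κ), wd (A n) l = ρ n ((l.map s).prod) := by
    intro n l
    simp only [wd, A, map_list_prod, List.map_map]
    rfl
  obtain ⟨C, hC⟩ := mN_bdd 𝒰 A (fun l => by
    obtain ⟨C, hC⟩ := ht (l.map s).prod
    exact ⟨C, by filter_upwards [hC] with n hn; rw [hwd]; exact hn⟩)
  have hpos : ∀ n : ℕ, 0 < 1 / ((n : ℝ) + 1) := fun n => by positivity
  have hle : ∀ n : ℕ, 1 / ((n : ℝ) + 1) ≤ 1 := fun n => by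
    rw [div_le_one (by positivity)]; linarith [n.cast_nonneg (α := ℝ)]
  choose h hh using fun n : ℕ => exists_near (A n) (hpos n)
  have hε' : Tendsto (fun n : ℕ => 1 / ((n : ℝ) + 1)) 𝒰 (𝓝 0) :=
    (tendsto_one_div_add_atTop_nhds_zero_nat (𝕜 := ℝ)).mono_left h𝒰
  obtain ⟨B, hB, hmin⟩ := lim_min 𝒰 A h _ hε' (fun n => (hh n).le) (C := C + 1)
    (by filter_upwards [hC] with n hn; have := hh n; have := hle n; linarith)
  let R : ℕ → Γ → Matrix ι ι 𝕜 := fun n γ => (h n : Matrix ι ι 𝕜) * ρ n γ *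
        (((h n)⁻¹ : (Matrix ι ι 𝕜)ˣ) : Matrix ι ι 𝕜)
  have hR1 : ∀ n, R n 1 = 1 := fun n => by simp [R]
  have hRm : ∀ n a b, R n (a * b) = R n a * R n b := by
    intro n a b
    simp only [R, map_mul]
    calc (h n : Matrix ι ι 𝕜) * (ρ n a * ρ n b) * (((h n)⁻¹ : (Matrix ι ι 𝕜)ˣ) : Matrix ι ι 𝕜)
        = (h n : Matrix ι ι 𝕜) * ρ n a * 1 * ρ n b *
          (((h n)⁻¹ : (Matrix ι ι 𝕜)ˣ) : Matrix ι ι 𝕜) := by simp only [mul_one, Matrix.mul_assoc]
      _ = _ := by rw [← Units.inv_mul (h n)]; simp only [Matrix.mul_assoc]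
  have hconv : ∀ γ : Γ, ∃ L, Tendsto (fun n => R n γ) 𝒰 (𝓝 L) := by
    intro γ
    have hγ : γ ∈ Submonoid.closure (Set.range s) := by rw [hs]; trivial
    induction hγ using Submonoid.closure_induction with
    | mem x hx =>
      obtain ⟨k, rfl⟩ := hx
      exact ⟨B k, (tendsto_pi_nhds.mp hB k)⟩
    | one => exact ⟨1, by simp only [hR1]; exact tendsto_const_nhds⟩
    | mul x y hx hy h1 h2 =>
      obtain ⟨L1, h1⟩ := h1
      obtain ⟨L2, h2⟩ := h2
      exact ⟨L1 * L2, by simp only [hRm]; exact h1.mul h2⟩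
  choose L hL using hconv
  let ρ' : Γ →* Matrix ι ι 𝕜 :=
    { toFun := L
      map_one' := tendsto_nhds_unique (hL 1) (by simp only [hR1]; exact tendsto_const_nhds)
      map_mul' := fun a b => tendsto_nhds_unique (hL (a * b)) (by
        simp only [hRm]; exact (hL a).mul (hL b)) }
  refine ⟨h, ρ', hL, ?_⟩
  have : (fun k => ρ' (s k)) = B := by
    funext k
    exact tendsto_nhds_unique (hL (s k)) (tendsto_pi_nhds.mp hB k)
  rw [this]
  exact hmin

/-- the trace form of the image algebra of a minimal representation is nondegenerate -/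
theorem nondeg {Γ : Type*} [Monoid Γ] (s : κ → Γ) (hs : Submonoid.closure (Set.range s) = ⊤)
    (ρ : Γ →* Matrix ι ι 𝕜) (hmin : Minimal' (fun k => ρ (s k)))
    {X : Matrix ι ι 𝕜} (hX : X ∈ Submodule.span 𝕜 (Set.range ρ))
    (hXt : ∀ γ, (X * ρ γ).trace = 0) : X = 0 := by
  let 𝒜 : Submodule 𝕜 (Matrix ι ι 𝕜) := Submodule.span 𝕜 (Set.range ρ)
  have hρ𝒜 : ∀ γ, ρ γ ∈ 𝒜 := fun γ => Submodule.subset_span ⟨γ, rfl⟩
  have hmulA : ∀ X ∈ 𝒜, ∀ Y ∈ 𝒜, X * Y ∈ 𝒜 := by
    intro X hX Y hY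
    induction hX, hY using Submodule.span_induction₂ with
    | mem_mem x y hx hy =>
      obtain ⟨a, rfl⟩ := hx; obtain ⟨b, rfl⟩ := hy
      rw [← map_mul]; exact hρ𝒜 _
    | zero_left y hy => simp
    | zero_right x hx => simp
    | add_left x y z hx hy hz h1 h2 => rw [add_mul]; exact 𝒜.add_mem h1 h2
    | add_right x y z hx hy hz h1 h2 => rw [mul_add]; exact 𝒜.add_mem h1 h2
    | smul_left r x y hx hy h1 => rw [Matrix.smul_mul]; exact 𝒜.smul_mem _ h1
    | smul_right r x y hx hy h1 => rw [Matrix.mul_smul]; exact 𝒜.smul_mem _ h1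
  have h1A : (1 : Matrix ι ι 𝕜) ∈ 𝒜 := by have := hρ𝒜 1; rwa [map_one] at this
  let J : Submodule 𝕜 (Matrix ι ι 𝕜) :=
    { carrier := {X | X ∈ 𝒜 ∧ ∀ Y ∈ 𝒜, (X * Y).trace = 0}
      zero_mem' := ⟨𝒜.zero_mem, fun Y _ => by simp⟩
      add_mem' := fun {a b} ha hb => ⟨𝒜.add_mem ha.1 hb.1, fun Y hY => by
        rw [add_mul, Matrix.trace_add, ha.2 Y hY, hb.2 Y hY, add_zero]⟩
      smul_mem' := fun c a ha => ⟨𝒜.smul_mem _ ha.1, fun Y hY => by
        rw [Matrix.smul_mul, Matrix.trace_smul, ha.2 Y hY, smul_zero]⟩ }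
  have hJA : J ≤ 𝒜 := fun X hX => hX.1
  have hleft : ∀ X ∈ 𝒜, ∀ Y ∈ J, X * Y ∈ J := by
    intro X hX Y hY
    refine ⟨hmulA X hX Y hY.1, fun Z hZ => ?_⟩
    rw [Matrix.mul_assoc, Matrix.trace_mul_comm, Matrix.mul_assoc]
    exact hY.2 _ (hmulA Z hZ X hX)
  have hright : ∀ Y ∈ J, ∀ X ∈ 𝒜, Y * X ∈ J := by
    intro Y hY X hX
    refine ⟨hmulA Y hY.1 X hX, fun Z hZ => ?_⟩
    rw [Matrix.mul_assoc]
    exact hY.2 _ (hmulA X hX Z hZ)
  have hnil : ∀ Y ∈ J, IsNilpotent Y := by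
    intro Y hY
    apply nilp_of_trace
    intro j hj
    obtain ⟨m, rfl⟩ := Nat.exists_eq_add_of_le' hj
    rw [pow_succ']
    apply hY.2
    clear hj
    induction m with
    | zero => simpa using h1A
    | succ m ih => rw [pow_succ]; exact hmulA _ ih _ hY.1
  let Z : Submodule 𝕜 (ι → 𝕜) :=
    { carrier := {v | ∀ Y ∈ J, Y *ᵥ v = 0}
      zero_mem' := fun Y _ => Matrix.mulVec_zero Y
      add_mem' := fun {a b} ha hb Y hY => by rw [Matrix.mulVec_add, ha Y hY, hb Y hY, add_zero]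
      smul_mem' := fun c a ha Y hY => by rw [Matrix.mulVec_smul, ha Y hY, smul_zero] }
  obtain ⟨E, hE, hEE, hE1, hE2⟩ := exists_proj Z
  have hinv : ∀ X ∈ 𝒜, X * E = E * X * E := by
    intro X hX
    apply Matrix.mulVec_injective
    funext v
    rw [← Matrix.mulVec_mulVec, ← Matrix.mulVec_mulVec, ← Matrix.mulVec_mulVec]
    symm
    apply hE2
    intro Y hY
    rw [Matrix.mulVec_mulVec]
    exact hE1 v _ (hright Y hY X hX)
  have hEs := hmin.compl hE hEE (fun k => hinv _ (hρ𝒜 _))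
  have hE𝒜 : ∀ X ∈ 𝒜, E * X = E * X * E := by
    have hΓ : ∀ γ : Γ, E * ρ γ = E * ρ γ * E := by
      intro γ
      have hγ : γ ∈ Submonoid.closure (Set.range s) := by rw [hs]; trivial
      induction hγ using Submonoid.closure_induction with
      | mem x hx => obtain ⟨k, rfl⟩ := hx; exact hEs k
      | one => simp [hEE]
      | mul x y hx hy h1 h2 =>
        rw [map_mul, ← Matrix.mul_assoc, h1]
        calc E * ρ x * E * ρ y = E * ρ x * (E * ρ y) := by simp only [Matrix.mul_assoc]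
          _ = E * ρ x * (E * ρ y * E) := by rw [← h2]
          _ = _ := by simp only [Matrix.mul_assoc]
    intro X hX
    induction hX using Submodule.span_induction with
    | mem x hx => obtain ⟨γ, rfl⟩ := hx; exact hΓ γ
    | zero => simp
    | add x y hx hy h1 h2 => rw [mul_add, add_mul, ← h1, ← h2]
    | smul c x hx h1 => rw [Matrix.mul_smul, Matrix.smul_mul, ← h1]
  let U : Submodule 𝕜 (ι → 𝕜) := LinearMap.ker (Matrix.mulVecLin E)
  have hJE : ∀ Y ∈ J, Y * E = 0 := by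
    intro Y hY
    apply Matrix.mulVec_injective
    funext v
    rw [← Matrix.mulVec_mulVec, Matrix.zero_mulVec]
    exact hE1 v Y hY
  have hXJ : X ∈ J := by
    refine ⟨hX, fun Y hY => ?_⟩
    induction hY using Submodule.span_induction with
    | mem x hx => obtain ⟨γ, rfl⟩ := hx; exact hXt γ
    | zero => simp
    | add x y hx hy h1 h2 => rw [mul_add, Matrix.trace_add, h1, h2, add_zero]
    | smul c x hx h1 => rw [Matrix.mul_smul, Matrix.trace_smul, h1, smul_zero]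
  by_cases hU : U = ⊥
  · have hE1' : E = 1 := by
      have hinj : Function.Injective (Matrix.mulVecLin E) := LinearMap.ker_eq_bot.mp hU
      apply Matrix.mulVec_injective
      funext v
      apply hinj
      simp only [Matrix.mulVecLin_apply, Matrix.mulVec_mulVec, Matrix.one_mulVec]
      rw [hEE]
    have := hJE X hXJ
    rwa [hE1', mul_one] at this
  · exfalso
    obtain ⟨v, hv, hv0, hvJ⟩ := common_kernel 𝒜 J hJA hleft hnil U hU (by
      intro X hX v hv
      have hv' : E *ᵥ v = 0 := hv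
      change E *ᵥ (X *ᵥ v) = 0
      rw [Matrix.mulVec_mulVec, hE𝒜 X hX, ← Matrix.mulVec_mulVec, hv', Matrix.mulVec_zero])
    have h1 : E *ᵥ v = v := hE2 v hvJ
    have h2 : E *ᵥ v = 0 := hv
    exact hv0 (h1.symm.trans h2)

end K4H41.SA
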