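import Mathlib
import Pool.Agent.K4H41.SA.Lim

/-! A representation with nondegenerate trace form and with the character
`p χ₀ + q`, where `χ₀` is the character of a two-dimensional absolutely irreducible
representation, is conjugate to the direct sum of `p` copies of that representation and of
`q` copies of the trivial one. -/

namespace K4H41.SA

open Matrix MonoidAlgebra
open scoped Kronecker

/-- block diagonal matrix: `p` copies of `g` and `q` ones -/
noncomputable def stdm (p q : ℕ) (g : Matrix (Fin 2) (Fin 2) ℂ) :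
    Matrix ((Fin p × Fin 2) ⊕ Fin q) ((Fin p × Fin 2) ⊕ Fin q) ℂ :=
  fromBlocks ((1 : Matrix (Fin p) (Fin p) ℂ) ⊗ₖ g) 0 0 1

theorem stdm_one (p q : ℕ) : stdm p q 1 = 1 := by
  rw [stdm, one_kronecker_one, fromBlocks_one]

theorem stdm_mul (p q : ℕ) (g h : Matrix (Fin 2) (Fin 2) ℂ) :
    stdm p q (g * h) = stdm p q g * stdm p q h := by
  rw [stdm, stdm, stdm, fromBlocks_multiply, ← mul_kronecker_mul]
  simp

theorem stdm_det (p q : ℕ) (g : Matrix (Fin 2) (Fin 2) ℂ) : (stdm p q g).det = g.det ^ p := by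
  rw [stdm, det_fromBlocks_zero₂₁, det_kronecker]
  simp

theorem stdm_trace (p q : ℕ) (g : Matrix (Fin 2) (Fin 2) ℂ) :
    (stdm p q g).trace = p * g.trace + q := by
  have h := trace_kronecker (1 : Matrix (Fin p) (Fin p) ℂ) g
  simp only [Matrix.trace, Matrix.diag, stdm, Fintype.sum_sum_type, fromBlocks_apply₁₁,
    fromBlocks_apply₂₂] at h ⊢
  rw [h]
  simp

theorem continuous_stdm (p q : ℕ) : Continuous (stdm p q) := by
  unfold stdm
  refine Continuous.matrix_fromBlocks ?_ continuous_const continuous_const continuous_const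
  refine continuous_matrix fun i j => ?_
  simp only [kroneckerMap_apply]
  have : Continuous fun g : Matrix (Fin 2) (Fin 2) ℂ => g i.2 j.2 := continuous_apply_apply _ _
  fun_prop

variable {Γ : Type*} [Group Γ] {ι : Type*} [Fintype ι] [DecidableEq ι]

/-- extension to the group algebra -/
noncomputable def ex (ρ : Γ →* Matrix ι ι ℂ) : MonoidAlgebra ℂ Γ →ₐ[ℂ] Matrix ι ι ℂ :=
  MonoidAlgebra.lift ℂ _ Γ ρ

/-- augmentation -/
noncomputable def aug : MonoidAlgebra ℂ Γ →ₐ[ℂ] ℂ := MonoidAlgebra.lift ℂ _ Γ 1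

theorem ex_single (ρ : Γ →* Matrix ι ι ℂ) (γ : Γ) (c : ℂ) :
    ex ρ (MonoidAlgebra.single γ c) = c • ρ γ := by simp [ex]

theorem aug_single (γ : Γ) (c : ℂ) : aug (MonoidAlgebra.single γ c) = c := by simp [aug]

theorem ex_mem (ρ : Γ →* Matrix ι ι ℂ) (x : MonoidAlgebra ℂ Γ) :
    ex ρ x ∈ Submodule.span ℂ (Set.range ρ) := by
  induction x using MonoidAlgebra.induction_linear with
  | zero => simp
  | add x y h1 h2 => rw [map_add]; exact Submodule.add_mem _ h1 h2
  | single γ c =>
    rw [ex_single]; exact Submodule.smul_mem _ _ (Submodule.subset_span ⟨γ, rfl⟩)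

theorem exists_ex {ρ : Γ →* Matrix ι ι ℂ} {Y : Matrix ι ι ℂ}
    (hY : Y ∈ Submodule.span ℂ (Set.range ρ)) : ∃ x, ex ρ x = Y := by
  induction hY using Submodule.span_induction with
  | mem y hy => obtain ⟨γ, rfl⟩ := hy; exact ⟨MonoidAlgebra.single γ 1, by rw [ex_single, one_smul]⟩
  | zero => exact ⟨0, map_zero _⟩
  | add x y hx hy h1 h2 =>
    obtain ⟨a, rfl⟩ := h1; obtain ⟨b, rfl⟩ := h2
    exact ⟨a + b, map_add _ _ _⟩
  | smul c x hx h1 => obtain ⟨a, rfl⟩ := h1; exact ⟨c • a, map_smul _ _ _⟩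

theorem iso_std {p q : ℕ} (ρ₀ : Γ →* Matrix (Fin 2) (Fin 2) ℂ)
    (hspan : Submodule.span ℂ (Set.range ρ₀) = ⊤) (hne : ∃ γ, ρ₀ γ ≠ 1)
    (ρ : Γ →* Matrix ι ι ℂ) (htr : ∀ γ, (ρ γ).trace = p * (ρ₀ γ).trace + q)
    (hnd : ∀ X ∈ Submodule.span ℂ (Set.range ρ), (∀ γ, (X * ρ γ).trace = 0) → X = 0)
    (e : (Fin p × Fin 2) ⊕ Fin q ≃ ι) :
    ∃ h : (Matrix ι ι ℂ)ˣ, ∀ γ, (h : Matrix ι ι ℂ) * ρ γ * ((h⁻¹ : (Matrix ι ι ℂ)ˣ) : Matrix ι ι ℂ) =
      (stdm p q (ρ₀ γ)).reindex e e := by
  -- the trace on the group algebra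
  have htr' : ∀ x, (ex ρ x).trace = p * (ex ρ₀ x).trace + q * aug x := by
    intro x
    induction x using MonoidAlgebra.induction_linear with
    | zero => simp
    | add x y h1 h2 => simp only [map_add, Matrix.trace_add, h1, h2]; ring
    | single γ c =>
      rw [ex_single, ex_single, aug_single, Matrix.trace_smul, Matrix.trace_smul, htr]
      simp only [smul_eq_mul]; ring
  have hker : ∀ x, ex ρ₀ x = 0 → aug x = 0 → ex ρ x = 0 := by
    intro x h1 h2
    refine hnd _ (ex_mem ρ x) fun γ => ?_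
    have h3 : ρ γ = ex ρ (MonoidAlgebra.single γ 1) := by rw [ex_single, one_smul]
    rw [h3, ← map_mul, htr', map_mul, map_mul, h1, h2]
    simp
  -- an element acting by zero in `ρ₀` and by one in the trivial representation
  have hpre : ∀ Y : Matrix (Fin 2) (Fin 2) ℂ, ∃ x, ex ρ₀ x = Y := fun Y =>
    exists_ex (by rw [hspan]; trivial)
  choose pre hpre using hpre
  obtain ⟨γ₀, hγ₀⟩ := hne
  obtain ⟨k, l, hkl⟩ : ∃ k l, (ρ₀ γ₀ - 1) k l ≠ 0 := by
    by_contra hcon
    push Not at hcon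
    apply hγ₀
    rw [← sub_eq_zero]
    ext i j
    exact hcon i j
  let N : Matrix (Fin 2) (Fin 2) ℂ := ρ₀ γ₀ - 1
  let y : MonoidAlgebra ℂ Γ := ∑ i : Fin 2, (N k l)⁻¹ • (pre (Matrix.single i k 1) *
    (MonoidAlgebra.single γ₀ 1 - 1) * pre (Matrix.single l i 1))
  have hy1 : ex ρ₀ y = 1 := by
    simp only [y, map_sum, map_smul, map_mul, map_sub, map_one, hpre, ex_single, one_smul]
    have : ∀ i : Fin 2, (N k l)⁻¹ • (Matrix.single i k (1 : ℂ) * (ρ₀ γ₀ - 1) * Matrix.single l i 1) =
        Matrix.single i i (1 : ℂ) := by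
      intro i
      change (N k l)⁻¹ • (Matrix.single i k (1 : ℂ) * N * Matrix.single l i 1) = _
      rw [Matrix.single_mul_mul_single]
      rw [Matrix.smul_single]
      congr 1
      have : N k l ≠ 0 := hkl
      rw [smul_eq_mul, one_mul, mul_one, inv_mul_cancel₀ this]
    simp only [this]
    exact Matrix.sum_single_one
  have hy2 : aug y = 0 := by
    simp only [y, map_sum, map_smul, map_mul, map_sub, map_one, aug_single, sub_self, mul_zero,
      zero_mul, smul_zero, Finset.sum_const_zero]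
  let z : MonoidAlgebra ℂ Γ := 1 - y
  have hz1 : ex ρ₀ z = 0 := by simp [z, hy1]
  have hz2 : aug z = 1 := by simp [z, hy2]
  -- matrix units
  let a : Fin 2 → Fin 2 → MonoidAlgebra ℂ Γ := fun i j =>
    pre (Matrix.single i j 1) - aug (pre (Matrix.single i j 1)) • z
  have ha1 : ∀ i j, ex ρ₀ (a i j) = Matrix.single i j 1 := by
    intro i j; simp [a, hpre, hz1]
  have ha2 : ∀ i j, aug (a i j) = 0 := by
    intro i j; simp [a, hz2]
  let E : Fin 2 → Fin 2 → Matrix ι ι ℂ := fun i j => ex ρ (a i j)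
  let E0 : Matrix ι ι ℂ := ex ρ z
  have hEE : ∀ i j l, E i j * E j l = E i l := by
    intro i j l
    have : ex ρ (a i j * a j l - a i l) = 0 := by
      apply hker
      · rw [map_sub, map_mul, ha1, ha1, ha1]; simp
      · rw [map_sub, map_mul, ha2, zero_mul, ha2, sub_zero]
    rw [map_sub, map_mul] at this
    exact sub_eq_zero.mp this
  have hEE0 : ∀ i j k l, j ≠ k → E i j * E k l = 0 := by
    intro i j k l hjk
    have : ex ρ (a i j * a k l) = 0 := by
      apply hker
      · rw [map_mul, ha1, ha1]; simp [hjk]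
      · rw [map_mul, ha2, ha2]; simp
    rw [map_mul] at this
    exact this
  have hE0E : ∀ i j, E0 * E i j = 0 := by
    intro i j
    have : ex ρ (z * a i j) = 0 := by
      apply hker
      · rw [map_mul, hz1]; simp
      · rw [map_mul, ha2]; simp
    rw [map_mul] at this
    exact this
  have hEE0' : ∀ i j, E i j * E0 = 0 := by
    intro i j
    have : ex ρ (a i j * z) = 0 := by
      apply hker
      · rw [map_mul, hz1]; simp
      · rw [map_mul, ha2]; simp
    rw [map_mul] at this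
    exact this
  have hE00 : E0 * E0 = E0 := by
    have : ex ρ (z * z - z) = 0 := by
      apply hker
      · rw [map_sub, map_mul, hz1]; simp
      · rw [map_sub, map_mul, hz2]; simp
    rw [map_sub, map_mul] at this
    exact sub_eq_zero.mp this
  have hρ : ∀ γ, ρ γ = ∑ i, ∑ j, ρ₀ γ i j • E i j + E0 := by
    intro γ
    have : ex ρ (MonoidAlgebra.single γ 1 - (∑ i, ∑ j, ρ₀ γ i j • a i j + z)) = 0 := by
      apply hker
      · simp only [map_sub, map_add, map_sum, map_smul, ha1, hz1, ex_single, one_smul, add_zero]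
        rw [sub_eq_zero]
        conv_lhs => rw [Matrix.matrix_eq_sum_single (ρ₀ γ)]
        refine Finset.sum_congr rfl fun i _ => Finset.sum_congr rfl fun j _ => ?_
        rw [Matrix.smul_single]; simp
      · simp only [map_sub, map_add, map_sum, map_smul, ha2, hz2, aug_single, smul_zero,
          Finset.sum_const_zero, zero_add, sub_self]
    rw [map_sub] at this
    have h2 := sub_eq_zero.mp this
    rw [ex_single, one_smul] at h2
    rw [h2]
    simp only [map_add, map_sum, map_smul, E, E0]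
  have hone : (1 : Matrix ι ι ℂ) = E 0 0 + E 1 1 + E0 := by
    have := hρ 1
    rw [map_one, map_one] at this
    simpa [Fin.sum_univ_two] using this
  -- dimensions
  have hEid : E 0 0 * E 0 0 = E 0 0 := hEE 0 0 0
  have htrE : (E 0 0).trace = p := by
    change (ex ρ (a 0 0)).trace = p
    rw [htr', ha1, ha2]; simp
  have htrE0 : E0.trace = q := by
    change (ex ρ z).trace = q
    rw [htr', hz1, hz2]; simp
  have hdim : ∀ (F : Matrix ι ι ℂ) (m : ℕ), F * F = F → F.trace = m →
      Module.finrank ℂ (LinearMap.range (Matrix.toLin' F)) = m := by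
    intro F m hF hm
    have h1 : IsIdempotentElem (Matrix.toLin' F) := by
      change Matrix.toLin' F * Matrix.toLin' F = Matrix.toLin' F
      rw [Module.End.mul_eq_comp, ← Matrix.toLin'_mul, hF]
    have h2 := (LinearMap.IsIdempotentElem.isProj_range _ h1).trace
    rw [Matrix.trace_toLin'_eq, hm] at h2
    exact_mod_cast h2.symm
  have hd1 := hdim _ p hEid htrE
  have hd2 := hdim _ q hE00 htrE0
  let R := LinearMap.range (Matrix.toLin' (E 0 0))
  let R0 := LinearMap.range (Matrix.toLin' E0)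
  let bR : Module.Basis (Fin p) ℂ R := Module.finBasisOfFinrankEq ℂ R hd1
  let bR0 : Module.Basis (Fin q) ℂ R0 := Module.finBasisOfFinrankEq ℂ R0 hd2
  have hR : ∀ v ∈ R, E 0 0 *ᵥ v = v := by
    rintro _ ⟨w, rfl⟩
    simp only [Matrix.toLin'_apply, Matrix.mulVec_mulVec]
    rw [hEid]
  have hR0 : ∀ v ∈ R0, E0 *ᵥ v = v := by
    rintro _ ⟨w, rfl⟩
    simp only [Matrix.toLin'_apply, Matrix.mulVec_mulVec]
    rw [hE00]
  let w : (Fin p × Fin 2) ⊕ Fin q → (ι → ℂ) :=
    Sum.elim (fun ki => E ki.2 0 *ᵥ (bR ki.1 : ι → ℂ)) (fun l => (bR0 l : ι → ℂ))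
  have hspanw : ⊤ ≤ Submodule.span ℂ (Set.range w) := by
    intro v _
    have hv : v = E 0 0 *ᵥ v + E 1 1 *ᵥ v + E0 *ᵥ v := by
      rw [← Matrix.add_mulVec, ← Matrix.add_mulVec, ← hone, Matrix.one_mulVec]
    have hi : ∀ i : Fin 2, E i i *ᵥ v ∈ Submodule.span ℂ (Set.range w) := by
      intro i
      have h1 : E 0 i *ᵥ v ∈ R := ⟨E 0 i *ᵥ v, by
        simp only [Matrix.toLin'_apply, Matrix.mulVec_mulVec]; rw [hEE]⟩
      have h2 := bR.sum_repr ⟨_, h1⟩
      have h3 : E 0 i *ᵥ v = ∑ k, (bR.repr ⟨_, h1⟩) k • (bR k : ι → ℂ) := by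
        have := congrArg (fun x : R => (x : ι → ℂ)) h2
        simp only [Submodule.coe_sum, Submodule.coe_smul] at this
        exact this.symm
      have h4 : E i i *ᵥ v = E i 0 *ᵥ (E 0 i *ᵥ v) := by
        rw [Matrix.mulVec_mulVec, hEE]
      rw [h4, h3, Matrix.mulVec_sum]
      refine Submodule.sum_mem _ fun k _ => ?_
      rw [Matrix.mulVec_smul]
      exact Submodule.smul_mem _ _ (Submodule.subset_span ⟨Sum.inl (k, i), rfl⟩)
    have h0 : E0 *ᵥ v ∈ Submodule.span ℂ (Set.range w) := by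
      have h1 : E0 *ᵥ v ∈ R0 := ⟨v, by simp only [Matrix.toLin'_apply]⟩
      have h2 := bR0.sum_repr ⟨_, h1⟩
      have h3 : E0 *ᵥ v = ∑ k, (bR0.repr ⟨_, h1⟩) k • (bR0 k : ι → ℂ) := by
        have := congrArg (fun x : R0 => (x : ι → ℂ)) h2
        simp only [Submodule.coe_sum, Submodule.coe_smul] at this
        exact this.symm
      rw [h3]
      refine Submodule.sum_mem _ fun k _ => ?_
      exact Submodule.smul_mem _ _ (Submodule.subset_span ⟨Sum.inr k, rfl⟩)
    rw [hv]
    exact Submodule.add_mem _ (Submodule.add_mem _ (hi 0) (hi 1)) h0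
  have hcard : Fintype.card ((Fin p × Fin 2) ⊕ Fin q) = Module.finrank ℂ (ι → ℂ) := by
    rw [Module.finrank_fintype_fun_eq_card, Fintype.card_congr e]
  let b : Module.Basis ((Fin p × Fin 2) ⊕ Fin q) ℂ (ι → ℂ) :=
    basisOfTopLeSpanOfCardEqFinrank w hspanw hcard
  have hb : ∀ x, b x = w x := fun x => by simp [b]
  -- action on the basis
  have hact : ∀ γ x, ρ γ *ᵥ w x = ∑ y, stdm p q (ρ₀ γ) y x • w y := by
    intro γ x
    rw [Fintype.sum_sum_type]
    rcases x with ⟨k, j⟩ | l
    · simp only [stdm, fromBlocks_apply₁₁, fromBlocks_apply₂₁, Matrix.zero_apply, zero_smul,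
        Finset.sum_const_zero, add_zero, kroneckerMap_apply]
      rw [Fintype.sum_prod_type]
      rw [Finset.sum_eq_single k]
      · simp only [Matrix.one_apply_eq, one_mul]
        change ρ γ *ᵥ (E j 0 *ᵥ (bR k : ι → ℂ)) = ∑ i, ρ₀ γ i j • (E i 0 *ᵥ (bR k : ι → ℂ))
        have h1 : ρ γ * E j 0 = ∑ i, ρ₀ γ i j • E i 0 := by
          rw [hρ γ, add_mul, hE0E, add_zero, Finset.sum_mul]
          refine Finset.sum_congr rfl fun i _ => ?_
          rw [Finset.sum_mul, Finset.sum_eq_single j]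
          · rw [Matrix.smul_mul, hEE]
          · intro m _ hm
            rw [Matrix.smul_mul, hEE0 i m j 0 hm, smul_zero]
          · simp
        rw [Matrix.mulVec_mulVec, h1, Matrix.sum_mulVec]
        exact Finset.sum_congr rfl fun i _ => Matrix.smul_mulVec _ _ _
      · intro k' _ hk'
        simp [Matrix.one_apply_ne hk']
      · simp
    · simp only [stdm, fromBlocks_apply₁₂, fromBlocks_apply₂₂, Matrix.zero_apply, zero_smul,
        Finset.sum_const_zero, zero_add]
      rw [Finset.sum_eq_single l]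
      · simp only [Matrix.one_apply_eq, one_smul]
        change ρ γ *ᵥ (bR0 l : ι → ℂ) = bR0 l
        have h1 := hR0 (bR0 l) (bR0 l).2
        conv_lhs => rw [← h1, Matrix.mulVec_mulVec, hρ γ, add_mul, hE00, Finset.sum_mul]
        have h2 : ∑ i, (∑ j, ρ₀ γ i j • E i j) * E0 = 0 := by
          apply Finset.sum_eq_zero
          intro i _
          rw [Finset.sum_mul]
          apply Finset.sum_eq_zero
          intro j _
          rw [Matrix.smul_mul, hEE0', smul_zero]
        rw [h2, zero_add, h1]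
      · intro l' _ hl'
        simp [Matrix.one_apply_ne hl']
      · simp
  -- the matrix of the basis
  let b' : Module.Basis ι ℂ (ι → ℂ) := b.reindex e
  let B : Matrix ι ι ℂ := (Pi.basisFun ℂ ι).toMatrix b'
  have hB : ∀ x y, B x y = w (e.symm y) x := by
    intro x y
    simp [B, b', Module.Basis.toMatrix_apply, hb]
  let B' : Matrix ι ι ℂ := b'.toMatrix (Pi.basisFun ℂ ι)
  have hBB' : B * B' = 1 := Module.Basis.toMatrix_mul_toMatrix_flip _ _
  have hB'B : B' * B = 1 := Module.Basis.toMatrix_mul_toMatrix_flip _ _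
  let h : (Matrix ι ι ℂ)ˣ := ⟨B', B, hB'B, hBB'⟩
  refine ⟨h, fun γ => ?_⟩
  change B' * ρ γ * B = _
  have hcomm : ρ γ * B = B * (stdm p q (ρ₀ γ)).reindex e e := by
    ext x y
    have h1 := congrFun (hact γ (e.symm y)) x
    rw [Matrix.mul_apply, Matrix.mul_apply]
    simp only [Matrix.mulVec, dotProduct] at h1
    simp only [hB]
    rw [h1, ← Equiv.sum_comp e.symm]
    simp only [Finset.sum_apply, Pi.smul_apply, smul_eq_mul]
    refine Finset.sum_congr rfl fun t _ => ?_
    rw [Matrix.reindex_apply, Matrix.submatrix_apply]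
    ring
  rw [Matrix.mul_assoc, hcomm, ← Matrix.mul_assoc, hB'B, one_mul]

end K4H41.SA
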