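import Mathlib
import Pool.Agent.K4H41.SA.Dec
import Pool.Agent.K4H41.SA.Iso

/-! Uniform growth of all representations close to the sum of copies of the inclusion and of
the trivial representation. -/

namespace K4H41.SA

open Matrix Filter Topology

/-- complexification -/
noncomputable def cm (X : Matrix (Fin 2) (Fin 2) ℝ) : Matrix (Fin 2) (Fin 2) ℂ :=
  X.map (fun r => (r : ℂ))

theorem cm_mul (X Y : Matrix (Fin 2) (Fin 2) ℝ) : cm (X * Y) = cm X * cm Y := by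
  ext i j
  simp [cm, Matrix.mul_apply]

theorem cm_one : cm 1 = 1 := by
  ext i j
  by_cases h : i = j
  · subst h; simp [cm]
  · simp [cm, h]

theorem cm_hs (X : Matrix (Fin 2) (Fin 2) ℝ) : hs (cm X) = hs X := by
  simp [hs, cm]

theorem cm_det (X : Matrix (Fin 2) (Fin 2) ℝ) : (cm X).det = (X.det : ℂ) := by
  simp [Matrix.det_fin_two, cm]

theorem cm_trace (X : Matrix (Fin 2) (Fin 2) ℝ) : (cm X).trace = (X.trace : ℂ) := by
  simp [Matrix.trace_fin_two, cm]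

abbrev II (p q : ℕ) := (Fin p × Fin 2) ⊕ Fin q

/-- the block representation of `SL(2,ℝ)` -/
noncomputable def sg (p q : ℕ) : G2 →* Matrix (II p q) (II p q) ℂ where
  toFun g := stdm p q (cm (mt g))
  map_one' := by rw [mt_one, cm_one, stdm_one]
  map_mul' g h := by rw [mt_mul, cm_mul, stdm_mul]

theorem sg_apply (p q : ℕ) (g : G2) : sg p q g = stdm p q (cm (mt g)) := rfl

theorem hs_stdm (p q : ℕ) (X : Matrix (Fin 2) (Fin 2) ℂ) :
    hs (stdm p q X) = p * hs X + q := by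
  have h1 : (stdm p q X)ᴴ = stdm p q Xᴴ := by
    rw [stdm, stdm, fromBlocks_conjTranspose, conjTranspose_kronecker]
    simp
  have h2 : ((hs (stdm p q X) : ℝ) : ℂ) = ((p * hs X + q : ℝ) : ℂ) := by
    have e := hs_eq_trace (stdm p q X)
    have e2 := hs_eq_trace X
    have e' : ((hs (stdm p q X) : ℝ) : ℂ) = ((stdm p q X)ᴴ * stdm p q X).trace := e
    have e2' : ((hs X : ℝ) : ℂ) = (Xᴴ * X).trace := e2
    rw [e', h1, ← stdm_mul, stdm_trace, ← e2']
    push_cast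
    rfl
  exact_mod_cast h2

theorem hs_sg (p q : ℕ) (g : G2) : hs (sg p q g) = p * hs (mt g) + q := by
  rw [sg_apply, hs_stdm, cm_hs]

theorem stdm_mulVec_inl (p q : ℕ) (X : Matrix (Fin 2) (Fin 2) ℂ) (u : II p q → ℂ) (k : Fin p)
    (i : Fin 2) : (stdm p q X *ᵥ u) (Sum.inl (k, i)) =
      X i 0 * u (Sum.inl (k, 0)) + X i 1 * u (Sum.inl (k, 1)) := by
  simp only [Matrix.mulVec, dotProduct, Fintype.sum_sum_type, stdm, fromBlocks_apply₁₁,
    fromBlocks_apply₁₂, Matrix.zero_apply, zero_mul, Finset.sum_const_zero, add_zero,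
    Fintype.sum_prod_type, kroneckerMap_apply]
  rw [Finset.sum_eq_single k]
  · simp [Fin.sum_univ_two]
  · intro k' _ hk
    simp [Matrix.one_apply_ne (Ne.symm hk)]
  · simp

theorem stdm_mulVec_inr (p q : ℕ) (X : Matrix (Fin 2) (Fin 2) ℂ) (u : II p q → ℂ) (l : Fin q) :
    (stdm p q X *ᵥ u) (Sum.inr l) = u (Sum.inr l) := by
  simp only [Matrix.mulVec, dotProduct, Fintype.sum_sum_type, stdm, fromBlocks_apply₂₁,
    fromBlocks_apply₂₂, Matrix.zero_apply, zero_mul, Finset.sum_const_zero, zero_add]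
  rw [Finset.sum_eq_single l]
  · simp
  · intro l' _ hl
    simp [Matrix.one_apply_ne (Ne.symm hl)]
  · simp

/-- the cone condition -/
def Cone {p q : ℕ} (u : II p q → ℂ) (m : ℝ) : Prop :=
  ∃ k : Fin p, m ≤ ‖u (Sum.inl (k, 0))‖ ∧ ∀ i, ‖u i‖ ≤ ‖u (Sum.inl (k, 0))‖

theorem cone_step {p q : ℕ} {E : Matrix (II p q) (II p q) ℂ}
    (hE : hs E * (Fintype.card (II p q) : ℝ) ^ 2 ≤ 1 / 4) {u : II p q → ℂ} {m : ℝ}
    (hu : Cone u m) : Cone ((sg p q a4 + E) *ᵥ u) (3 * m) := by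
  obtain ⟨k, hk, hmax⟩ := hu
  set m' := ‖u (Sum.inl (k, 0))‖ with hm'
  have hm'0 : 0 ≤ m' := norm_nonneg _
  have hEij : ∀ i j, ‖E i j‖ * (Fintype.card (II p q) : ℝ) ≤ 1 / 2 := by
    intro i j
    have h1 := entry_le_hs E i j
    have h2 : (‖E i j‖ * (Fintype.card (II p q) : ℝ)) ^ 2 ≤ (1 / 2) ^ 2 := by
      rw [mul_pow]
      calc ‖E i j‖ ^ 2 * (Fintype.card (II p q) : ℝ) ^ 2 ≤ hs E * (Fintype.card (II p q) : ℝ) ^ 2 :=
            mul_le_mul_of_nonneg_right h1 (by positivity)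
        _ ≤ _ := hE.trans (by norm_num)
    exact le_of_sq_le_sq h2 (by norm_num)
  have hcard : 0 < (Fintype.card (II p q) : ℝ) := by
    have : Nonempty (II p q) := ⟨Sum.inl (k, 0)⟩
    exact_mod_cast Fintype.card_pos
  have he : ∀ i, ‖(E *ᵥ u) i‖ ≤ m' / 2 := by
    intro i
    calc ‖(E *ᵥ u) i‖ ≤ ∑ j, ‖E i j‖ * ‖u j‖ := by
          simp only [Matrix.mulVec, dotProduct]
          refine (norm_sum_le _ _).trans (Finset.sum_le_sum fun j _ => ?_)
          rw [norm_mul]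
      _ ≤ ∑ j : II p q, (1 / 2 / (Fintype.card (II p q) : ℝ)) * m' := by
          refine Finset.sum_le_sum fun j _ => mul_le_mul ?_ (hmax j) (norm_nonneg _) (by positivity)
          rw [le_div_iff₀ hcard]; exact hEij i j
      _ = m' / 2 := by
          rw [Finset.sum_const, Finset.card_univ, nsmul_eq_mul]
          field_simp
  have hv : ∀ i, ((sg p q a4 + E) *ᵥ u) i = (sg p q a4 *ᵥ u) i + (E *ᵥ u) i := by
    intro i; rw [Matrix.add_mulVec]; rfl
  have h00 : cm (mt a4) 0 0 = 4 := by rw [mt_a4]; simp [cm]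
  have h01 : cm (mt a4) 0 1 = 0 := by rw [mt_a4]; simp [cm]
  have h10 : cm (mt a4) 1 0 = 0 := by rw [mt_a4]; simp [cm]
  have h11 : cm (mt a4) 1 1 = 1 / 4 := by rw [mt_a4]; simp [cm]
  have hx : ∀ l : Fin p, (sg p q a4 *ᵥ u) (Sum.inl (l, 0)) = 4 * u (Sum.inl (l, 0)) := by
    intro l; rw [sg_apply, stdm_mulVec_inl, h00, h01]; ring
  have hy : ∀ l : Fin p, (sg p q a4 *ᵥ u) (Sum.inl (l, 1)) = (1 / 4) * u (Sum.inl (l, 1)) := by
    intro l; rw [sg_apply, stdm_mulVec_inl, h10, h11]; ring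
  have hz : ∀ l : Fin q, (sg p q a4 *ᵥ u) (Sum.inr l) = u (Sum.inr l) := by
    intro l; rw [sg_apply, stdm_mulVec_inr]
  set v := (sg p q a4 + E) *ᵥ u with hvdef
  have hvk : 7 / 2 * m' ≤ ‖v (Sum.inl (k, 0))‖ := by
    rw [hv, hx]
    have h1 := norm_sub_le_norm_add (4 * u (Sum.inl (k, 0))) ((E *ᵥ u) (Sum.inl (k, 0)))
    have h2 := he (Sum.inl (k, 0))
    rw [norm_mul] at h1
    simp only [Complex.norm_ofNat] at h1
    linarith
  have : Nonempty (Fin p) := ⟨k⟩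
  obtain ⟨k', -, hk'⟩ := Finset.exists_max_image Finset.univ (fun l : Fin p => ‖v (Sum.inl (l, 0))‖)
    Finset.univ_nonempty
  have h7 : 7 / 2 * m' ≤ ‖v (Sum.inl (k', 0))‖ := hvk.trans (hk' k (Finset.mem_univ _))
  refine ⟨k', by linarith, fun i => ?_⟩
  rcases i with ⟨l, i⟩ | l
  · fin_cases i
    · exact hk' l (Finset.mem_univ _)
    · refine le_trans ?_ h7
      change ‖v (Sum.inl (l, 1))‖ ≤ _
      rw [hv, hy]
      refine (norm_add_le _ _).trans ?_
      rw [norm_mul]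
      have h1 := hmax (Sum.inl (l, 1))
      have h2 := he (Sum.inl (l, 1))
      have h3 : ‖(1 / 4 : ℂ)‖ = 1 / 4 := by norm_num
      rw [h3]
      linarith
  · refine le_trans ?_ h7
    rw [hv, hz]
    refine (norm_add_le _ _).trans ?_
    have h1 := hmax (Sum.inr l)
    have h2 := he (Sum.inr l)
    linarith

variable {Γ : Subgroup G2}

/-- growth property of a representation -/
def Grw {κ : Type*} [Fintype κ] [DecidableEq κ] (ρ : Γ →* Matrix κ κ ℂ) (a : ℕ) : Prop :=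
  ∃ C : ℝ, 0 < C ∧ ∀ g : Γ, hs (mt (g : G2)) ≤ C * hs (ρ g) ^ a

theorem growth (h : SG Γ) {p q : ℕ} (hp : 0 < p) : ∃ R ε : ℝ, 0 < ε ∧
    ∀ ρ : Γ →* Matrix (II p q) (II p q) ℂ,
      (∀ γ : Γ, hs (mt (γ : G2)) ≤ R → hs (ρ γ - sg p q γ) ≤ ε) → Grw ρ 2 := by
  obtain ⟨M, hM⟩ := h.coc
  have hM2 : 2 ≤ M := by
    obtain ⟨γ, hγ⟩ := hM 1
    exact (two_le_hs _).trans hγ
  let M' : ℝ := p * M + q
  have hM' : ∀ d : G2, hs (mt d) ≤ M → hs (sg p q d) ≤ M' := by
    intro d hd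
    rw [hs_sg]
    have : (p : ℝ) * hs (mt d) ≤ p * M := mul_le_mul_of_nonneg_left hd (by positivity)
    simp only [M']; linarith
  have hp' : (1 : ℝ) ≤ p := by exact_mod_cast hp
  have hM'0 : 0 < M' := by
    have : (0 : ℝ) ≤ q := by positivity
    simp only [M']; nlinarith
  let c : ℝ := Fintype.card (II p q)
  have hc : 0 < c := by
    have : Nonempty (II p q) := ⟨Sum.inl (⟨0, hp⟩, 0)⟩
    simp only [c]
    exact_mod_cast Fintype.card_pos
  let ε : ℝ := 1 / 4 / (M' * M' * c ^ 2)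
  have hε : 0 < ε := by positivity
  refine ⟨M * 17 * M, ε, hε, fun ρ hρ => ?_⟩
  -- bound of `ρ` on a finite set
  obtain ⟨K, hK⟩ : ∃ K : ℝ, ∀ γ : Γ, hs (mt (γ : G2)) ≤ M * 32 → hs (ρ γ) ≤ K := by
    have h1 : (Set.image (fun γ : Γ => hs (ρ γ)) {γ : Γ | hs (mt (γ : G2)) ≤ M * 32}).Finite :=
      (h.fin _).image _
    obtain ⟨L, hL⟩ := h1.bddAbove
    exact ⟨L, fun γ hγ => hL ⟨γ, hγ, rfl⟩⟩
  have hK0 : 0 ≤ K := (hs_nonneg _).trans (hK 1 (by
    change hs (mt 1) ≤ _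
    rw [mt_one, hs2]; norm_num; linarith))
  refine ⟨32 * (M' * (K * K) * M') ^ 2 + 1, by positivity, fun g => ?_⟩
  obtain ⟨N, γ, d, hd, hδ, h0, hN, -, hg⟩ := decomp hM (g : G2)
  let e : II p q → ℂ := Pi.single (Sum.inl (⟨0, hp⟩, 0)) 1
  let Y : ℕ → Matrix (II p q) (II p q) ℂ := fun j =>
    sg p q (d j)⁻¹ * ρ (γ j * (γ N)⁻¹) * sg p q (d N)
  have hinv : ∀ x : G2, sg p q x * sg p q x⁻¹ = 1 := fun x => by
    rw [← map_mul, mul_inv_cancel, map_one]
  have hinv' : ∀ x : G2, sg p q x⁻¹ * sg p q x = 1 := fun x => by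
    rw [← map_mul, inv_mul_cancel, map_one]
  have hcone : ∀ i : ℕ, i ≤ N → Cone (Y (N - i) *ᵥ e) (3 ^ i) := by
    intro i
    induction i with
    | zero =>
      intro _
      have : Y N = 1 := by
        simp only [Y]
        rw [mul_inv_cancel, map_one, mul_one, hinv']
      rw [Nat.sub_zero, this, Matrix.one_mulVec]
      refine ⟨⟨0, hp⟩, by simp [e], fun i => ?_⟩
      simp only [e]
      by_cases hi : i = Sum.inl (⟨0, hp⟩, 0)
      · rw [hi]
      · simp [hi]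
    | succ i ih =>
      intro hi
      have h1 := ih (by omega)
      set j := N - (i + 1) with hj
      have hj1 : N - i = j + 1 := by omega
      rw [hj1] at h1
      let δ : Γ := γ j * (γ (j + 1))⁻¹
      have hδj : (δ : G2) = d j * a4 * (d (j + 1))⁻¹ := hδ j
      let E : Matrix (II p q) (II p q) ℂ := sg p q (d j)⁻¹ * (ρ δ - sg p q δ) * sg p q (d (j + 1))
      have hSE : sg p q a4 + E = sg p q (d j)⁻¹ * ρ δ * sg p q (d (j + 1)) := by
        have : sg p q a4 = sg p q (d j)⁻¹ * sg p q δ * sg p q (d (j + 1)) := by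
          rw [hδj, ← map_mul, ← map_mul]; congr 1; group
        simp only [E]
        rw [this]; noncomm_ring
      have hstep : Y j = (sg p q a4 + E) * Y (j + 1) := by
        rw [hSE]
        simp only [Y]
        have h2 : ρ (γ j * (γ N)⁻¹) = ρ δ * ρ (γ (j + 1) * (γ N)⁻¹) := by
          rw [← map_mul]; congr 1; simp only [δ]; group
        rw [h2]
        calc sg p q (d j)⁻¹ * (ρ δ * ρ (γ (j + 1) * (γ N)⁻¹)) * sg p q (d N)
            = sg p q (d j)⁻¹ * ρ δ * 1 * ρ (γ (j + 1) * (γ N)⁻¹) * sg p q (d N) := by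
              simp only [mul_one, Matrix.mul_assoc]
          _ = _ := by rw [← hinv (d (j + 1))]; simp only [Matrix.mul_assoc]
      rw [hstep, ← Matrix.mulVec_mulVec, pow_succ, mul_comm]
      apply cone_step _ h1
      have hd1 : hs (sg p q (d j)⁻¹) ≤ M' := hM' _ (by rw [hs_inv]; exact hd j)
      have hd2 : hs (sg p q (d (j + 1))) ≤ M' := hM' _ (hd _)
      have hd3 : hs (ρ δ - sg p q δ) ≤ ε := hρ δ (by
        rw [hδj]
        refine (hs_mt_mul _ _).trans (mul_le_mul ?_ ?_ (hs_nonneg _) (by positivity))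
        · refine (hs_mt_mul _ _).trans (mul_le_mul (hd j) ?_ (hs_nonneg _) (by positivity))
          rw [mt_a4, hs2]; norm_num
        · rw [hs_inv]; exact hd (j + 1))
      have hE : hs E ≤ M' * ε * M' := by
        refine (hs_mul _ _).trans (mul_le_mul ?_ hd2 (hs_nonneg _) (by positivity))
        exact (hs_mul _ _).trans (mul_le_mul hd1 hd3 (hs_nonneg _) (by positivity))
      calc hs E * (Fintype.card (II p q) : ℝ) ^ 2 ≤ M' * ε * M' * c ^ 2 :=
            mul_le_mul_of_nonneg_right hE (by positivity)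
        _ ≤ 1 / 4 := by
            simp only [ε]
            apply le_of_eq
            field_simp
  obtain ⟨k, hk, -⟩ := hcone N le_rfl
  rw [Nat.sub_self] at hk
  have h9 : (9 : ℝ) ^ N ≤ hs (Y 0) := by
    have h1 : (Y 0 *ᵥ e) (Sum.inl (k, 0)) = Y 0 (Sum.inl (k, 0)) (Sum.inl (⟨0, hp⟩, 0)) := by
      simp [e]
    rw [h1] at hk
    calc (9 : ℝ) ^ N = (3 ^ N) ^ 2 := by rw [← pow_mul, mul_comm, pow_mul]; norm_num
      _ ≤ ‖Y 0 (Sum.inl (k, 0)) (Sum.inl (⟨0, hp⟩, 0))‖ ^ 2 := pow_le_pow_left₀ (by positivity) hk 2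
      _ ≤ _ := entry_le_hs _ _ _
  have hY0 : hs (Y 0) ≤ M' * (K * hs (ρ g) * K) * M' := by
    have h1 : γ 0 * (γ N)⁻¹ = γ 0 * g * (γ N * g)⁻¹ := by group
    have h2 : hs (ρ (γ 0 * (γ N)⁻¹)) ≤ K * hs (ρ g) * K := by
      rw [h1, map_mul, map_mul]
      refine (hs_mul _ _).trans (mul_le_mul ?_ ?_ (hs_nonneg _) (mul_nonneg hK0 (hs_nonneg _)))
      · exact (hs_mul _ _).trans (mul_le_mul_of_nonneg_right (hK _ (by linarith)) (hs_nonneg _))
      · apply hK
        rw [Subgroup.coe_inv, hs_inv]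
        exact hN
    refine (hs_mul _ _).trans (mul_le_mul ?_ (hM' _ (hd N)) (hs_nonneg _)
      (mul_nonneg hM'0.le (mul_nonneg (mul_nonneg hK0 (hs_nonneg _)) hK0)))
    exact (hs_mul _ _).trans (mul_le_mul (hM' _ (by rw [hs_inv]; exact hd 0)) h2 (hs_nonneg _) hM'0.le)
  have h10 : (9 : ℝ) ^ N ≤ (M' * (K * K) * M') * hs (ρ g) := by
    refine (h9.trans hY0).trans (le_of_eq ?_)
    ring
  calc hs (mt (g : G2)) ≤ 32 * 16 ^ N := hg
    _ ≤ 32 * (9 ^ N) ^ 2 := by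
        rw [← pow_mul, mul_comm N 2, pow_mul]
        exact mul_le_mul_of_nonneg_left (pow_le_pow_left₀ (by norm_num) (by norm_num) N) (by norm_num)
    _ ≤ 32 * ((M' * (K * K) * M') * hs (ρ g)) ^ 2 :=
        mul_le_mul_of_nonneg_left (pow_le_pow_left₀ (by positivity) h10 2) (by norm_num)
    _ = 32 * (M' * (K * K) * M') ^ 2 * hs (ρ g) ^ 2 := by ring
    _ ≤ _ := by
        have : 0 ≤ hs (ρ g) ^ 2 := by positivity
        nlinarith

end K4H41.SA
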