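import Mathlib
import Pool.Agent.K4H41.SA.Cone

/-! The shortest closed geodesic of a closed surface is simple; absolute irreducibility of
the inclusion. -/

namespace K4H41.SA

open Matrix Filter Topology

variable {Γ : Subgroup G2}

theorem isClosedEmbedding_mt : IsClosedEmbedding (fun g : G2 => mt g) := by
  refine ⟨⟨Topology.IsInducing.subtypeVal, Subtype.val_injective⟩, ?_⟩
  have : Set.range (fun g : G2 => mt g) = {A : Matrix (Fin 2) (Fin 2) ℝ | A.det = 1} := by
    ext A
    constructor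
    · rintro ⟨g, rfl⟩; exact g.2
    · intro h; exact ⟨⟨A, h⟩, rfl⟩
  rw [this]
  exact isClosed_eq (Continuous.matrix_det continuous_id) continuous_const

theorem isCompact_ball (M : ℝ) : IsCompact {g : G2 | hs (mt g) ≤ M} := by
  have h1 : IsCompact {A : Matrix (Fin 2) (Fin 2) ℝ | hs A ≤ M} := by
    have h2 : IsCompact (Set.univ.pi fun _ : Fin 2 => Set.univ.pi fun _ : Fin 2 =>
        Set.Icc (-(|M| + 1)) (|M| + 1) : Set (Fin 2 → Fin 2 → ℝ)) :=
      isCompact_univ_pi fun _ => isCompact_univ_pi fun _ => isCompact_Icc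
    refine IsCompact.of_isClosed_subset h2 (isClosed_le continuous_hs continuous_const) ?_
    intro A hA i _ j _
    have h3 := (entry_le_hs A i j).trans (hA : hs A ≤ M)
    rw [Real.norm_eq_abs, sq_abs] at h3
    have h4 := le_abs_self M
    rw [Set.mem_Icc]
    have h5 := abs_nonneg M
    constructor <;> nlinarith
  exact isClosedEmbedding_mt.isCompact_preimage h1

theorem continuous_mt : Continuous (fun g : G2 => mt g) := isClosedEmbedding_mt.continuous

theorem exists_ne_one (h : SG Γ) : ∃ γ : Γ, γ ≠ 1 := by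
  by_contra hcon
  push Not at hcon
  obtain ⟨M, hM⟩ := h.coc
  obtain ⟨γ, hγ⟩ := hM (aflow (|M| + 1))
  rw [hcon γ, Subgroup.coe_one, one_mul, hs_aflow] at hγ
  have h1 := Real.add_one_le_exp (|M| + 1)
  have h2 := Real.exp_pos (-(|M| + 1))
  have h3 := le_abs_self M
  linarith

/-- global minimum of the displacement -/
theorem exists_min (h : SG Γ) : ∃ (γ : Γ) (x : G2), γ ≠ 1 ∧
    ∀ (γ' : Γ) (y : G2), γ' ≠ 1 → hs (mt (x⁻¹ * γ * x)) ≤ hs (mt (y⁻¹ * γ' * y)) := by
  classical
  obtain ⟨M, hM⟩ := h.coc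
  obtain ⟨γ₁, hγ₁⟩ := exists_ne_one h
  have hM0 : 0 ≤ M := by
    obtain ⟨γ, hγ⟩ := hM 1
    exact (hs_nonneg _).trans hγ
  set v := hs (mt (γ₁ : G2)) with hv
  let Φ : Finset Γ := (h.fin (M * v * M)).toFinset.filter (fun γ => γ ≠ 1)
  have hne : ({g : G2 | hs (mt g) ≤ M}).Nonempty := by
    obtain ⟨γ, hγ⟩ := hM 1; exact ⟨_, hγ⟩
  have hcont : ∀ γ : Γ, Continuous fun x : G2 => hs (mt (x⁻¹ * γ * x)) := by
    intro γ
    refine continuous_hs.comp (continuous_mt.comp ?_)
    fun_prop
  choose dm hdm using fun γ : Γ => (isCompact_ball M).exists_isMinOn hne (hcont γ).continuousOn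
  -- reduction of an arbitrary pair
  have hred : ∀ (γ' : Γ) (y : G2), γ' ≠ 1 → hs (mt (y⁻¹ * γ' * y)) ≤ v →
      ∃ γ'' ∈ Φ, hs (mt ((dm γ'')⁻¹ * γ'' * dm γ'')) ≤ hs (mt (y⁻¹ * γ' * y)) := by
    intro γ' y hγ' hle
    obtain ⟨δ, hδ⟩ := hM y
    let d : G2 := δ * y
    let γ'' : Γ := δ * γ' * δ⁻¹
    have e1 : d⁻¹ * (γ'' : G2) * d = y⁻¹ * γ' * y := by
      simp only [d, γ'', Subgroup.coe_mul, Subgroup.coe_inv]; group
    have e2 : (γ'' : G2) = d * (y⁻¹ * γ' * y) * d⁻¹ := by
      rw [← e1]; group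
    have h1 : hs (mt (γ'' : G2)) ≤ M * v * M := by
      rw [e2]
      refine (hs_mt_mul _ _).trans (mul_le_mul ?_ ?_ (hs_nonneg _) (mul_nonneg hM0 (hs_nonneg _)))
      · exact (hs_mt_mul _ _).trans (mul_le_mul hδ hle (hs_nonneg _) hM0)
      · rw [hs_inv]; exact hδ
    refine ⟨γ'', ?_, ?_⟩
    · simp only [Φ, Finset.mem_filter, Set.Finite.mem_toFinset, Set.mem_ofPred_eq]
      refine ⟨h1, fun h2 => hγ' ?_⟩
      have h3 : δ * γ' * δ⁻¹ = 1 := h2
      have h4 : γ' = δ⁻¹ * (δ * γ' * δ⁻¹) * δ := by group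
      rw [h4, h3]; group
    · have h2 := (hdm γ'').2 (show d ∈ {g : G2 | hs (mt g) ≤ M} from hδ)
      simp only [Set.mem_ofPred_eq] at h2
      rw [← e1]
      exact h2
  obtain ⟨γ₂, hγ₂, hγ₂'⟩ := hred γ₁ 1 hγ₁ (by simp [hv])
  obtain ⟨γ, hγ, hmin⟩ := Finset.exists_min_image Φ (fun γ => hs (mt ((dm γ)⁻¹ * γ * dm γ))) ⟨γ₂, hγ₂⟩
  refine ⟨γ, dm γ, (Finset.mem_filter.mp hγ).2, fun γ' y hγ' => ?_⟩
  by_cases hle : hs (mt (y⁻¹ * γ' * y)) ≤ v
  · obtain ⟨γ'', h1, h2⟩ := hred γ' y hγ' hle
    exact (hmin γ'' h1).trans h2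
  · have h1 := hmin γ₂ hγ₂
    have h2 : hs (mt ((1 : G2)⁻¹ * γ₁ * 1)) = v := by simp [hv]
    rw [h2] at hγ₂'
    exact (h1.trans hγ₂').trans (not_le.mp hle).le

/-- an element of minimal norm in its conjugacy class is symmetric or orthogonal -/
theorem sym_or_orth {g : G2} (hmin : ∀ y : G2, hs (mt g) ≤ hs (mt (y⁻¹ * g * y))) :
    mt g 0 1 = mt g 1 0 ∨ Orth g := by
  have key : ∀ h : G2, (∀ y : G2, hs (mt h) ≤ hs (mt (y⁻¹ * h * y))) →
      mt h 0 1 ^ 2 = mt h 1 0 ^ 2 := by
    intro h hh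
    have h1 : ∀ t : ℝ, mt h 0 1 ^ 2 + mt h 1 0 ^ 2 ≤
        mt h 0 1 ^ 2 * Real.exp (-2 * t) + mt h 1 0 ^ 2 * Real.exp (2 * t) := by
      intro t
      have h2 := hh (aflow t)
      have h3 : mt ((aflow t)⁻¹ * h * aflow t) =
          !![mt h 0 0, mt h 0 1 * Real.exp (-t); mt h 1 0 * Real.exp t, mt h 1 1] := by
        rw [← aflow_neg, mt_mul, mt_mul, mt_aflow, mt_aflow]
        have e1 : Real.exp (-t / 2) * Real.exp (t / 2) = 1 := by
          rw [← Real.exp_add, show -t / 2 + t / 2 = 0 by ring, Real.exp_zero]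
        have e2 : Real.exp (-t / 2) * Real.exp (-t / 2) = Real.exp (-t) := by
          rw [← Real.exp_add]; ring_nf
        have e3 : Real.exp (t / 2) * Real.exp (t / 2) = Real.exp t := by
          rw [← Real.exp_add]; ring_nf
        have e4 : - -t / 2 = t / 2 := by ring
        rw [e4, ← e2, ← e3]
        nth_rw 1 [Matrix.eta_fin_two (mt h)]
        generalize Real.exp (-t / 2) = x at *
        generalize Real.exp (t / 2) = y at *
        generalize mt h 0 0 = a
        generalize mt h 0 1 = b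
        generalize mt h 1 0 = c
        generalize mt h 1 1 = d
        rw [Matrix.mul_fin_two, Matrix.mul_fin_two]
        have f1 : (x * a + 0 * c) * y + (x * b + 0 * d) * 0 = a := by linear_combination a * e1
        have f2 : (x * a + 0 * c) * 0 + (x * b + 0 * d) * x = b * (x * x) := by ring
        have f3 : (0 * a + y * c) * y + (0 * b + y * d) * 0 = c * (y * y) := by ring
        have f4 : (0 * a + y * c) * 0 + (0 * b + y * d) * x = d := by linear_combination d * e1
        rw [f1, f2, f3, f4]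
      rw [h3, hs2, hs2] at h2
      simp only [Matrix.of_apply, Matrix.cons_val', Matrix.cons_val_zero, Matrix.cons_val_one,
        Matrix.cons_val_fin_one] at h2
      have e5 : Real.exp (-2 * t) = Real.exp (-t) ^ 2 := by rw [sq, ← Real.exp_add]; ring_nf
      have e6 : Real.exp (2 * t) = Real.exp t ^ 2 := by rw [sq, ← Real.exp_add]; ring_nf
      rw [e5, e6]
      nlinarith
    have h2 : ∀ u : ℝ, 0 < u → mt h 0 1 ^ 2 + mt h 1 0 ^ 2 ≤ mt h 0 1 ^ 2 / u + mt h 1 0 ^ 2 * u := by
      intro u hu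
      have h3 := h1 (Real.log u / 2)
      rw [show -2 * (Real.log u / 2) = -Real.log u by ring,
        show 2 * (Real.log u / 2) = Real.log u by ring, Real.exp_neg, Real.exp_log hu] at h3
      rw [div_eq_mul_inv]; exact h3
    set B := mt h 0 1 ^ 2
    set C := mt h 1 0 ^ 2
    have h3 : ∀ u : ℝ, 0 < u → 0 ≤ (u - 1) * (C * u - B) := by
      intro u hu
      have h4 := h2 u hu
      have h5 : 0 ≤ (B / u + C * u - (B + C)) * u := mul_nonneg (by linarith) hu.le
      have h6 : (B / u + C * u - (B + C)) * u = (u - 1) * (C * u - B) := by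
        field_simp; ring
      rwa [h6] at h5
    have hB : 0 ≤ B := sq_nonneg _
    have hC : 0 ≤ C := sq_nonneg _
    apply le_antisymm
    · -- B ≤ C
      by_contra hcon
      push Not at hcon
      -- choose u > 1 with C u < B
      by_cases hC0 : C = 0
      · have := h3 2 (by norm_num); rw [hC0] at this hcon; nlinarith
      · have hCpos : 0 < C := lt_of_le_of_ne hC (Ne.symm hC0)
        have := h3 ((B / C + 1) / 2) (by positivity)
        have h7 : 1 < B / C := by rw [lt_div_iff₀ hCpos]; linarith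
        have h8 : C * ((B / C + 1) / 2) - B = (C - B) / 2 := by field_simp; ring
        rw [h8] at this
        nlinarith
    · by_contra hcon
      push Not at hcon
      have hCpos : 0 < C := lt_of_le_of_lt hB hcon
      have := h3 ((B / C + 1) / 2) (by positivity)
      have h7 : B / C < 1 := by rw [div_lt_one hCpos]; exact hcon
      have h8 : C * ((B / C + 1) / 2) - B = (C - B) / 2 := by field_simp; ring
      rw [h8] at this
      nlinarith
  have h1 := key g hmin
  let R := rot (Real.pi / 4)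
  have h2 := key (R⁻¹ * g * R) (by
    intro y
    have e1 : hs (mt (R⁻¹ * g * R)) = hs (mt g) := by
      rw [mt_mul, hs_orth_right (orth_rot _), mt_mul, hs_orth_left (orth_rot _).inv]
    rw [e1]
    have e2 : y⁻¹ * (R⁻¹ * g * R) * y = (R * y)⁻¹ * g * (R * y) := by group
    rw [e2]
    exact hmin _)
  have hdet := det2 g
  set a := mt g 0 0
  set b := mt g 0 1
  set c := mt g 1 0
  set d := mt g 1 1
  have hs2' : Real.cos (Real.pi / 4) = √2 / 2 := Real.cos_pi_div_four
  have hs3 : Real.sin (Real.pi / 4) = √2 / 2 := Real.sin_pi_div_four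
  have hsq : √2 * √2 = 2 := Real.mul_self_sqrt (by norm_num)
  have hRR : mt (R⁻¹ * g * R) = !![(a + b + c + d) / 2, (d - a + b - c) / 2;
      (d - a - (b - c)) / 2, (a + d - b - c) / 2] := by
    rw [show R⁻¹ = rot (-(Real.pi / 4)) by rw [rot_neg], mt_mul, mt_mul, mt_rot, mt_rot,
      Real.cos_neg, Real.sin_neg, hs2', hs3, Matrix.eta_fin_two (mt g)]
    change !![√2 / 2, - -(√2 / 2); -(√2 / 2), √2 / 2] * !![a, b; c, d] *
      !![√2 / 2, -(√2 / 2); √2 / 2, √2 / 2] = _
    rw [Matrix.mul_fin_two, Matrix.mul_fin_two]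
    generalize √2 = x at *
    have f1 : (x / 2 * a + - -(x / 2) * c) * (x / 2) + (x / 2 * b + - -(x / 2) * d) * (x / 2) =
        (a + b + c + d) / 2 := by linear_combination ((a + b + c + d) / 4) * hsq
    have f2 : (x / 2 * a + - -(x / 2) * c) * -(x / 2) + (x / 2 * b + - -(x / 2) * d) * (x / 2) =
        (d - a + b - c) / 2 := by linear_combination ((d - a + b - c) / 4) * hsq
    have f3 : (-(x / 2) * a + x / 2 * c) * (x / 2) + (-(x / 2) * b + x / 2 * d) * (x / 2) =
        (d - a - (b - c)) / 2 := by linear_combination ((d - a - (b - c)) / 4) * hsq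
    have f4 : (-(x / 2) * a + x / 2 * c) * -(x / 2) + (-(x / 2) * b + x / 2 * d) * (x / 2) =
        (a + d - b - c) / 2 := by linear_combination ((a + d - b - c) / 4) * hsq
    rw [f1, f2, f3, f4]
  have e01 : mt (R⁻¹ * g * R) 0 1 = (d - a + b - c) / 2 := by rw [hRR]; rfl
  have e10 : mt (R⁻¹ * g * R) 1 0 = (d - a - (b - c)) / 2 := by rw [hRR]; rfl
  rw [e01, e10] at h2
  have h3 : (d - a) * (b - c) = 0 := by nlinarith
  rcases mul_eq_zero.mp h3 with h4 | h4
  · have h5 : (b - c) * (b + c) = 0 := by nlinarith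
    rcases mul_eq_zero.mp h5 with h6 | h6
    · left; linarith
    · right
      rw [Orth]
      have hd : d = a := by linarith
      have hc : c = -b := by linarith
      have hb2 : a * a + b * b = 1 := by rw [hd, hc] at hdet; linarith
      ext i j
      fin_cases i <;> fin_cases j <;> simp [Matrix.mul_apply, Fin.sum_univ_two]
      · change a * a + c * c = 1; rw [hc]; linarith
      · change a * b + c * d = 0; rw [hc, hd]; ring
      · change b * a + d * c = 0; rw [hc, hd]; ring
      · change b * b + d * d = 1; rw [hd]; linarith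
  · left; linarith

end K4H41.SA
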