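import Mathlib
import Pool.Agent.K4H41.SA.Systole

/-! Existence of a simple closed geodesic; the inclusion spans the matrix algebra. -/

namespace K4H41.SA

open Matrix Filter Topology

variable {Γ : Subgroup G2}

theorem IsSurfaceGroup.sg {Γ : Subgroup G2} (h : IsSurfaceGroup Γ) : SG Γ := by
  obtain ⟨hd, ht, D, hD, hD'⟩ := h
  refine ⟨fun R => ?_, ?_, ?_⟩
  · have h1 : Tendsto ((↑) : Γ → G2) cofinite (Filter.cocompact G2) :=
      Γ.tendsto_coe_cofinite_of_discrete (isDiscrete_iff_discreteTopology.mpr hd)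
    have h2 := h1 (isCompact_ball R).compl_mem_cocompact
    rw [Filter.mem_map, Filter.mem_cofinite] at h2
    refine h2.subset ?_
    intro γ hγ
    simp only [Set.mem_compl_iff, Set.mem_preimage, not_not]
    exact hγ
  · have h1 : BddAbove ((fun g : G2 => hs (mt g)) '' D) :=
      (hD.image (continuous_hs.comp continuous_mt)).bddAbove
    obtain ⟨M, hM⟩ := h1
    refine ⟨M, fun x => ?_⟩
    obtain ⟨γ, hγ, hx⟩ := hD' x
    exact ⟨⟨γ, hγ⟩, hM ⟨_, hx, rfl⟩⟩
  · intro γ n hn h1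
    have := ht γ γ.2 n hn (by
      have := congrArg (fun g : Γ => (g : G2)) h1
      simpa using this)
    exact Subtype.ext this

/-- an element conjugate into the rotations is trivial -/
theorem eq_one_of_orth (h : SG Γ) {γ : Γ} {x : G2} (ho : Orth (x⁻¹ * γ * x)) : γ = 1 := by
  have hpow : ∀ n : ℕ, Orth ((x⁻¹ * γ * x) ^ n) := by
    intro n
    induction n with
    | zero => simpa using orth_one
    | succ n ih => rw [pow_succ]; exact ih.mul ho
  have hpow' : ∀ n : ℕ, ((γ ^ n : Γ) : G2) = x * (x⁻¹ * γ * x) ^ n * x⁻¹ := by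
    intro n
    induction n with
    | zero => simp
    | succ n ih =>
      rw [pow_succ, Subgroup.coe_mul, ih, pow_succ]; group
  have hb : ∀ n : ℕ, hs (mt ((γ ^ n : Γ) : G2)) ≤ hs (mt x) * 2 * hs (mt x) := by
    intro n
    rw [hpow' n]
    refine (hs_mt_mul _ _).trans (mul_le_mul ?_ (by rw [hs_inv]) (hs_nonneg _)
      (mul_nonneg (hs_nonneg _) (by norm_num)))
    refine (hs_mt_mul _ _).trans (mul_le_mul_of_nonneg_left ?_ (hs_nonneg _))
    have : hs (mt ((x⁻¹ * γ * x) ^ n)) = 2 := by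
      have h1 := hs_orth_left (hpow n) 1
      rw [mul_one] at h1
      rw [h1, hs2]; norm_num
    rw [this]
  have hfin := h.fin (hs (mt x) * 2 * hs (mt x))
  have hni : ¬ Function.Injective (fun n : ℕ => γ ^ n) := by
    intro hinj
    have h1 : (Set.range fun n : ℕ => γ ^ n).Infinite := Set.infinite_range_of_injective hinj
    exact h1 (hfin.subset (by rintro _ ⟨n, rfl⟩; exact hb n))
  rw [Function.Injective] at hni
  push Not at hni
  obtain ⟨n, m, hnm, hne⟩ := hni
  rcases lt_or_gt_of_ne hne with h1 | h1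
  · refine h.tf γ (m - n) (by omega) ?_
    have h2 : γ ^ m = γ ^ n * γ ^ (m - n) := by rw [← pow_add]; congr 1; omega
    have h3 : γ ^ n = γ ^ m := hnm
    rw [← h3] at h2
    exact (mul_eq_left.mp h2.symm)
  · refine h.tf γ (n - m) (by omega) ?_
    have h2 : γ ^ n = γ ^ m * γ ^ (n - m) := by rw [← pow_add]; congr 1; omega
    have h3 : γ ^ n = γ ^ m := hnm
    rw [h3] at h2
    exact (mul_eq_left.mp h2.symm)

/-- the shortest closed geodesic is simple -/
theorem exists_simple (h : SG Γ) : ∃ (x : G2) (T : ℝ) (γ : Γ), 0 < T ∧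
    (mt (x * aflow T) = mt ((γ : G2) * x) ∨ mt (x * aflow T) = -mt ((γ : G2) * x)) ∧
    IsSimpleClosed Γ x := by
  obtain ⟨γ, x, hγ, hmin⟩ := exists_min h
  set g : G2 := x⁻¹ * γ * x with hg
  have hgmin : ∀ y : G2, hs (mt g) ≤ hs (mt (y⁻¹ * g * y)) := by
    intro y
    have h1 := hmin γ (x * y) hγ
    have h2 : (x * y)⁻¹ * (γ : G2) * (x * y) = y⁻¹ * g * y := by rw [hg]; group
    rwa [h2] at h1
  have hno : ¬ Orth g := fun ho => hγ (eq_one_of_orth h ho)
  have hsym : mt g 0 1 = mt g 1 0 := (sym_or_orth hgmin).resolve_right hno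
  have hdet : mt g 0 0 * mt g 1 1 - mt g 0 1 ^ 2 = 1 := by
    have := det2 g
    rw [← hsym] at this
    rw [sq]; exact this
  obtain ⟨θ, T, ε, hT, hε, heq⟩ := sym_diag hdet
  have hge : mt g = !![mt g 0 0, mt g 0 1; mt g 0 1, mt g 1 1] := by
    conv_lhs => rw [Matrix.eta_fin_two (mt g), ← hsym]
  rw [← hge] at heq
  have hrr : mt (rot (-θ)) * mt (rot θ) = 1 := by rw [rot_neg]; exact mt_inv_mul _
  have hε2 : ε * ε = 1 := by rcases hε with h1 | h1 <;> rw [h1] <;> norm_num
  -- T is positive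
  have hTpos : 0 < T := by
    rcases lt_or_eq_of_le hT with h1 | h1
    · exact h1
    · exfalso
      apply hno
      rw [← h1, aflow_zero, mt_one, mul_one] at heq
      have h2 : mt (rot θ) * mt (rot (-θ)) = 1 := by rw [rot_neg]; exact mt_mul_inv _
      rw [h2] at heq
      rw [Orth, heq]
      simp only [Matrix.transpose_smul, Matrix.transpose_one, Matrix.smul_mul, Matrix.mul_smul,
        mul_one]
      rw [smul_smul, hε2, one_smul]
  have hcomm : mt (g * rot θ) = ε • mt (rot θ * aflow T) := by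
    refine (mt_mul g (rot θ)).trans ?_
    rw [heq, Matrix.smul_mul, Matrix.mul_assoc, hrr, mul_one, mt_mul]
  set y : G2 := x * rot θ with hy
  have hclosed : mt ((γ : G2) * y) = ε • mt (y * aflow T) := by
    have h1 : (γ : G2) * y = x * (g * rot θ) := by rw [hy, hg]; group
    have h2 : y * aflow T = x * (rot θ * aflow T) := by rw [hy]; group
    rw [h1, h2, mt_mul, hcomm, Matrix.mul_smul, ← mt_mul]
  have hclosed' : mt (y * aflow T) = mt ((γ : G2) * y) ∨ mt (y * aflow T) = -mt ((γ : G2) * y) := by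
    rcases hε with h1 | h1
    · left; rw [hclosed, h1, one_smul]
    · right; rw [hclosed, h1]; simp
  refine ⟨y, T, γ, hTpos, hclosed', T, hTpos, ⟨γ, γ.2, hclosed'⟩, ?_⟩
  intro s t hs0 hst htT γ' hγ' ho
  let z : G2 := y * aflow s
  set k : G2 := (y * aflow s)⁻¹ * (γ' * (y * aflow t)) with hk
  have hzk : z⁻¹ * γ' * z = k * aflow (-(t - s)) := by
    have h1 : aflow t * aflow (-(t - s)) = aflow s := by rw [← aflow_add]; ring_nf
    calc z⁻¹ * γ' * z = z⁻¹ * γ' * (y * (aflow t * aflow (-(t - s)))) := by rw [h1]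
      _ = k * aflow (-(t - s)) := by rw [hk]; simp only [z]; group
  have hval : hs (mt (z⁻¹ * γ' * z)) = Real.exp (t - s) + Real.exp (-(t - s)) := by
    rw [hzk, mt_mul, hs_orth_left ho, hs_aflow]; ring_nf
  have hgval : hs (mt g) = Real.exp T + Real.exp (-T) := by
    rw [heq, hs_smul, hs_orth_right (orth_rot _), hs_orth_left (orth_rot _), hs_aflow]
    have : ‖ε‖ ^ 2 = 1 := by rcases hε with h1 | h1 <;> rw [h1] <;> simp
    rw [this, one_mul]
  -- the function is strictly increasing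
  have hmono : Real.exp (t - s) + Real.exp (-(t - s)) < Real.exp T + Real.exp (-T) := by
    have h1 : 0 < t - s := by linarith
    have h2 : t - s < T := by linarith
    have e1 : Real.exp (t - s) < Real.exp T := Real.exp_lt_exp.mpr h2
    have e2 : 1 < Real.exp (t - s) := Real.one_lt_exp_iff.mpr h1
    rw [Real.exp_neg, Real.exp_neg]
    set a := Real.exp (t - s)
    set b := Real.exp T
    have ha : 0 < a := by linarith
    have hb : 0 < b := by linarith
    have h3 : a + a⁻¹ - (b + b⁻¹) = (a - b) * (a * b - 1) / (a * b) := by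
      field_simp; ring
    have h4 : (a - b) * (a * b - 1) / (a * b) < 0 := by
      apply div_neg_of_neg_of_pos _ (by positivity)
      apply mul_neg_of_neg_of_pos (by linarith)
      nlinarith
    linarith
  by_cases h1 : (⟨γ', hγ'⟩ : Γ) = 1
  · have h2 : γ' = 1 := congrArg (fun g : Γ => (g : G2)) h1
    have h3 : hs (mt (z⁻¹ * γ' * z)) = 2 := by
      rw [h2, mul_one, inv_mul_cancel, mt_one, hs2]; norm_num
    rw [h3] at hval
    have h4 : 0 < t - s := by linarith
    have e2 : 1 < Real.exp (t - s) := Real.one_lt_exp_iff.mpr h4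
    rw [Real.exp_neg] at hval
    set a := Real.exp (t - s)
    have ha : 0 < a := by linarith
    have h5 : (a - 1) ^ 2 = 0 := by
      have h6 : a * 2 = a * a + 1 := by
        have := congrArg (fun r => a * r) hval
        simp only [mul_add] at this
        rwa [mul_inv_cancel₀ ha.ne'] at this
      nlinarith
    have h7 : a - 1 = 0 := by simpa using h5
    linarith
  · have h2 := hmin ⟨γ', hγ'⟩ z h1
    rw [hgval] at h2
    have h3 : hs (mt (z⁻¹ * ((⟨γ', hγ'⟩ : Γ) : G2) * z)) = Real.exp (t - s) + Real.exp (-(t - s)) :=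
      hval
    rw [h3] at h2
    linarith

/-- the elements of the group are not simultaneously diagonalisable -/
theorem not_diag (h : SG Γ) (y : G2) :
    ¬ ∀ γ : Γ, mt (y⁻¹ * γ * y) 0 1 = 0 ∧ mt (y⁻¹ * γ * y) 1 0 = 0 := by
  intro hd
  obtain ⟨M, hM⟩ := h.coc
  have hM2 : 2 ≤ M := by
    obtain ⟨γ, hγ⟩ := hM 1
    exact (two_le_hs _).trans hγ
  set M' := hs (mt y) * M with hM'
  have hM'0 : 0 ≤ M' := mul_nonneg (hs_nonneg _) (by linarith)
  let n : ℝ := M' + 1
  let u : G2 := ⟨!![1, n; 0, 1], by simp [Matrix.det_fin_two_of]⟩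
  obtain ⟨γ, hγ⟩ := hM (y * u)
  have h1 : hs (mt (y⁻¹ * γ * y * u)) ≤ M' := by
    have : y⁻¹ * (γ : G2) * y * u = y⁻¹ * (γ * (y * u)) := by group
    rw [this]
    refine (hs_mt_mul _ _).trans (mul_le_mul (by rw [hs_inv]) hγ (hs_nonneg _) (hs_nonneg _))
  obtain ⟨h01, h10⟩ := hd γ
  have hdet := det2 (y⁻¹ * γ * y)
  set w := y⁻¹ * (γ : G2) * y with hw
  have h2 : mt (w * u) = !![mt w 0 0, mt w 0 0 * n; 0, mt w 1 1] := by
    rw [mt_mul]
    nth_rw 1 [Matrix.eta_fin_two (mt w)]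
    change !![mt w 0 0, mt w 0 1; mt w 1 0, mt w 1 1] * !![1, n; 0, 1] = _
    rw [Matrix.mul_fin_two, h01, h10]
    simp
  rw [h2, hs2] at h1
  simp only [Matrix.of_apply, Matrix.cons_val', Matrix.cons_val_zero, Matrix.cons_val_one,
    Matrix.cons_val_fin_one] at h1
  rw [h01, h10] at hdet
  set a := mt w 0 0
  set d := mt w 1 1
  have had : a * d = 1 := by linarith
  have hn : n = M' + 1 := rfl
  have h3 : 2 * (a * n) * d ≤ (a * n) ^ 2 + d ^ 2 := by nlinarith [sq_nonneg (a * n - d)]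
  have h4 : 2 * (a * n) * d = 2 * n := by
    calc 2 * (a * n) * d = 2 * n * (a * d) := by ring
      _ = 2 * n := by rw [had, mul_one]
  nlinarith [sq_nonneg a]

theorem conj_pow_entries {α w : G2} {l : ℝ} {ε : ℝ} (hε : ε = 1 ∨ ε = -1)
    (hα : mt α = ε • mt (aflow l)) (n : ℕ) :
    mt (α⁻¹ ^ n * w * α ^ n) = !![mt w 0 0, mt w 0 1 * Real.exp (-(n * l));
      mt w 1 0 * Real.exp (n * l), mt w 1 1] := by
  have hε2 : ε * ε = 1 := by rcases hε with h1 | h1 <;> rw [h1] <;> norm_num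
  have h1 : ∀ n : ℕ, mt (α ^ n) = ε ^ n • mt (aflow (n * l)) := by
    intro n
    induction n with
    | zero => simp [aflow_zero]
    | succ n ih =>
      rw [pow_succ, mt_mul, ih, hα, Matrix.smul_mul, Matrix.mul_smul, smul_smul, ← mt_mul,
        ← aflow_add, pow_succ]
      congr 3
      push_cast; ring
  have hαi : mt α⁻¹ = ε • mt (aflow (-l)) := by
    have h2 : mt α⁻¹ * mt α = 1 := mt_inv_mul α
    have h3 : (ε • mt (aflow (-l))) * mt α = 1 := by
      rw [hα, Matrix.smul_mul, Matrix.mul_smul, smul_smul, hε2, one_smul, aflow_neg]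
      exact mt_inv_mul _
    have h4 : mt α * mt α⁻¹ = 1 := mt_mul_inv α
    calc mt α⁻¹ = (ε • mt (aflow (-l))) * mt α * mt α⁻¹ := by rw [h3, one_mul]
      _ = ε • mt (aflow (-l)) := by rw [Matrix.mul_assoc, h4, mul_one]
  have h1' : mt (α⁻¹ ^ n) = ε ^ n • mt (aflow (-(n * l))) := by
    induction n with
    | zero => simp [aflow_zero]
    | succ n ih =>
      rw [pow_succ, mt_mul, ih, hαi, Matrix.smul_mul, Matrix.mul_smul, smul_smul, ← mt_mul,
        ← aflow_add, pow_succ]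
      congr 3
      push_cast; ring
  rw [mt_mul, mt_mul, h1, h1', Matrix.smul_mul, Matrix.smul_mul, Matrix.mul_smul, smul_smul,
    ← mul_pow, hε2, one_pow, one_smul, mt_aflow, mt_aflow]
  set t := (n : ℝ) * l
  have e1 : Real.exp (-t / 2) * Real.exp (t / 2) = 1 := by
    rw [← Real.exp_add, show -t / 2 + t / 2 = 0 by ring, Real.exp_zero]
  have e2 : Real.exp (-t / 2) * Real.exp (-t / 2) = Real.exp (-t) := by
    rw [← Real.exp_add]; ring_nf
  have e3 : Real.exp (t / 2) * Real.exp (t / 2) = Real.exp t := by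
    rw [← Real.exp_add]; ring_nf
  have e4 : - -t / 2 = t / 2 := by ring
  rw [e4, ← e2, ← e3]
  nth_rw 1 [Matrix.eta_fin_two (mt w)]
  generalize Real.exp (-t / 2) = x at *
  generalize Real.exp (t / 2) = y at *
  generalize mt w 0 0 = a
  generalize mt w 0 1 = b
  generalize mt w 1 0 = c
  generalize mt w 1 1 = d
  rw [Matrix.mul_fin_two, Matrix.mul_fin_two]
  have f1 : (x * a + 0 * c) * y + (x * b + 0 * d) * 0 = a := by linear_combination a * e1
  have f2 : (x * a + 0 * c) * 0 + (x * b + 0 * d) * x = b * (x * x) := by ring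
  have f3 : (0 * a + y * c) * y + (0 * b + y * d) * 0 = c * (y * y) := by ring
  have f4 : (0 * a + y * c) * 0 + (0 * b + y * d) * x = d := by linear_combination d * e1
  rw [f1, f2, f3, f4]

/-- triangular elements are diagonal -/
theorem tri_diag (h : SG Γ) {y : G2} {γ₀ : Γ} {l ε : ℝ} (hl : l ≠ 0) (hε : ε = 1 ∨ ε = -1)
    (hα : mt (y⁻¹ * γ₀ * y) = ε • mt (aflow l)) (γ : Γ)
    (htri : (0 < l ∧ mt (y⁻¹ * γ * y) 1 0 = 0) ∨ (l < 0 ∧ mt (y⁻¹ * γ * y) 0 1 = 0)) :
    mt (y⁻¹ * γ * y) 0 1 = 0 ∧ mt (y⁻¹ * γ * y) 1 0 = 0 := by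
  set w := y⁻¹ * (γ : G2) * y with hw
  set α := y⁻¹ * (γ₀ : G2) * y with hα'
  let γn : ℕ → Γ := fun n => γ₀⁻¹ ^ n * γ * γ₀ ^ n
  have hpow : ∀ n : ℕ, α ^ n = y⁻¹ * (γ₀ : G2) ^ n * y := by
    intro n
    induction n with
    | zero => simp
    | succ n ih => rw [pow_succ, ih, pow_succ, hα']; group
  have hpow' : ∀ n : ℕ, α⁻¹ ^ n = y⁻¹ * ((γ₀ : G2))⁻¹ ^ n * y := by
    intro n
    rw [inv_pow, inv_pow, hpow]; group
  have hγn : ∀ n, (γn n : G2) = y * (α⁻¹ ^ n * w * α ^ n) * y⁻¹ := by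
    intro n
    simp only [γn, Subgroup.coe_mul, Subgroup.coe_pow, Subgroup.coe_inv, hpow, hpow', hw]
    group
  have hent : ∀ n, mt (y⁻¹ * (γn n : G2) * y) = !![mt w 0 0, mt w 0 1 * Real.exp (-(n * l));
      mt w 1 0 * Real.exp (n * l), mt w 1 1] := by
    intro n
    have : y⁻¹ * (γn n : G2) * y = α⁻¹ ^ n * w * α ^ n := by rw [hγn]; group
    rw [this, conj_pow_entries hε hα]
  have hb : ∀ n, hs (mt (γn n : G2)) ≤ hs (mt y) * hs (mt w) * hs (mt y) := by
    intro n
    have h1 : (γn n : G2) = y * (y⁻¹ * (γn n : G2) * y) * y⁻¹ := by group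
    rw [h1]
    refine (hs_mt_mul _ _).trans (mul_le_mul ?_ (by rw [hs_inv]) (hs_nonneg _)
      (mul_nonneg (hs_nonneg _) (hs_nonneg _)))
    refine (hs_mt_mul _ _).trans (mul_le_mul_of_nonneg_left ?_ (hs_nonneg _))
    rw [hent, hs2, hs2]
    simp only [Matrix.of_apply, Matrix.cons_val', Matrix.cons_val_zero, Matrix.cons_val_one,
      Matrix.cons_val_fin_one]
    rcases htri with ⟨hl', h10⟩ | ⟨hl', h01⟩
    · rw [h10]
      have : Real.exp (-(n * l)) ≤ 1 := Real.exp_le_one_iff.mpr (by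
        have : 0 ≤ (n : ℝ) * l := by positivity
        linarith)
      have h0 := Real.exp_pos (-(n * l))
      have h2 : (mt w 0 1 * Real.exp (-(n * l))) ^ 2 ≤ mt w 0 1 ^ 2 := by
        rw [mul_pow]
        have h3 : Real.exp (-(n * l)) ^ 2 ≤ 1 := pow_le_one₀ h0.le this
        nlinarith [sq_nonneg (mt w 0 1)]
      nlinarith
    · rw [h01]
      have : Real.exp (n * l) ≤ 1 := Real.exp_le_one_iff.mpr
        (mul_nonpos_of_nonneg_of_nonpos (by positivity) hl'.le)
      have h0 := Real.exp_pos (n * l)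
      have h2 : (mt w 1 0 * Real.exp (n * l)) ^ 2 ≤ mt w 1 0 ^ 2 := by
        rw [mul_pow]
        have h3 : Real.exp (n * l) ^ 2 ≤ 1 := pow_le_one₀ h0.le this
        nlinarith [sq_nonneg (mt w 1 0)]
      nlinarith
  have hfin := h.fin (hs (mt y) * hs (mt w) * hs (mt y))
  have hni : ¬ Function.Injective γn := by
    intro hinj
    have h1 : (Set.range γn).Infinite := Set.infinite_range_of_injective hinj
    exact h1 (hfin.subset (by rintro _ ⟨n, rfl⟩; exact hb n))
  rw [Function.Injective] at hni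
  push Not at hni
  obtain ⟨n, m, hnm, hne⟩ := hni
  have h1 := hent n
  rw [hnm, hent m] at h1
  have h01 := congrFun (congrFun h1 0) 1
  have h10 := congrFun (congrFun h1 1) 0
  simp only [Matrix.of_apply, Matrix.cons_val', Matrix.cons_val_zero, Matrix.cons_val_one,
    Matrix.cons_val_fin_one] at h01 h10
  have hne' : (n : ℝ) * l ≠ m * l := by
    intro h2
    have := mul_right_cancel₀ hl h2
    exact hne (by exact_mod_cast this)
  constructor
  · by_contra h2
    have h3 := mul_left_cancel₀ h2 h01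
    have h4 := Real.exp_injective h3
    exact hne' (by linarith)
  · by_contra h2
    have h3 := mul_left_cancel₀ h2 h10
    have h4 := Real.exp_injective h3
    exact hne' h4.symm

/-- the inclusion is absolutely irreducible -/
theorem span_top (h : SG Γ) :
    Submodule.span ℂ (Set.range fun γ : Γ => cm (mt (γ : G2))) = ⊤ := by
  by_contra hne
  obtain ⟨f, hf, hker⟩ := Submodule.exists_le_ker_of_lt_top _ (lt_top_iff_ne_top.mpr hne)
  -- the functional as a trace
  let L : Matrix (Fin 2) (Fin 2) ℂ := Matrix.of fun j i => f (Matrix.single i j 1)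
  have hL : ∀ X, f X = (L * X).trace := by
    intro X
    conv_lhs => rw [Matrix.matrix_eq_sum_single X]
    simp only [map_sum]
    rw [Matrix.trace, Finset.sum_comm]
    refine Finset.sum_congr rfl fun j _ => ?_
    rw [Matrix.diag, Matrix.mul_apply]
    refine Finset.sum_congr rfl fun i _ => ?_
    have : Matrix.single i j (X i j) = X i j • Matrix.single i j (1 : ℂ) := by
      rw [Matrix.smul_single]; simp
    rw [this, map_smul, smul_eq_mul, mul_comm]
    rfl
  have hL0 : ∀ γ : Γ, (L * cm (mt (γ : G2))).trace = 0 := by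
    intro γ
    rw [← hL]
    exact hker (Submodule.subset_span ⟨γ, rfl⟩)
  obtain ⟨y, T, γ₀, hT, hcl, -⟩ := exists_simple h
  obtain ⟨ε, hε, hα⟩ : ∃ ε : ℝ, (ε = 1 ∨ ε = -1) ∧ mt (y⁻¹ * (γ₀ : G2) * y) = ε • mt (aflow T) := by
    have h0 : mt (y⁻¹ * (γ₀ : G2) * y) = mt y⁻¹ * mt ((γ₀ : G2) * y) := by
      rw [← mt_mul]; congr 1; group
    have h1 : mt (aflow T) = mt y⁻¹ * mt (y * aflow T) := by
      rw [← mt_mul]; congr 1; group
    rcases hcl with h2 | h2
    · exact ⟨1, Or.inl rfl, by rw [h0, ← h2, ← h1, one_smul]⟩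
    · refine ⟨-1, Or.inr rfl, ?_⟩
      rw [h1, h2, h0]; simp
  -- conjugated functional
  let L' := cm (mt y⁻¹) * L * cm (mt y)
  let j : Γ → Matrix (Fin 2) (Fin 2) ℂ := fun γ => cm (mt (y⁻¹ * γ * y))
  have hj : ∀ γ, j γ = cm (mt y⁻¹) * cm (mt (γ : G2)) * cm (mt y) := by
    intro γ; simp only [j]; rw [mt_mul, mt_mul, cm_mul, cm_mul]
  have hyy : cm (mt y) * cm (mt y⁻¹) = 1 := by rw [← cm_mul, mt_mul_inv, cm_one]
  have hjm : ∀ γ γ' : Γ, j γ * j γ' = j (γ * γ') := by
    intro γ γ'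
    rw [hj, hj, hj, Subgroup.coe_mul, mt_mul, cm_mul]
    calc cm (mt y⁻¹) * cm (mt (γ : G2)) * cm (mt y) * (cm (mt y⁻¹) * cm (mt (γ' : G2)) * cm (mt y))
        = cm (mt y⁻¹) * cm (mt (γ : G2)) * (cm (mt y) * cm (mt y⁻¹)) * cm (mt (γ' : G2)) * cm (mt y) := by
          simp only [Matrix.mul_assoc]
      _ = _ := by rw [hyy, mul_one]; simp only [Matrix.mul_assoc]
  have hL' : ∀ γ, (L' * j γ).trace = 0 := by
    intro γ
    rw [hj]
    have : L' * (cm (mt y⁻¹) * cm (mt (γ : G2)) * cm (mt y)) =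
        cm (mt y⁻¹) * (L * cm (mt (γ : G2)) * cm (mt y)) := by
      calc L' * (cm (mt y⁻¹) * cm (mt (γ : G2)) * cm (mt y))
          = cm (mt y⁻¹) * L * (cm (mt y) * cm (mt y⁻¹)) * cm (mt (γ : G2)) * cm (mt y) := by
            simp only [L', Matrix.mul_assoc]
        _ = _ := by rw [hyy, mul_one]; simp only [Matrix.mul_assoc]
    rw [this, Matrix.trace_mul_comm, Matrix.mul_assoc, hyy, mul_one]
    exact hL0 γ
  have hj1 : j 1 = 1 := by
    simp only [j]; rw [Subgroup.coe_one, mul_one, inv_mul_cancel, mt_one, cm_one]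
  -- diagonal entries vanish
  have hdiag : ∀ X : Matrix (Fin 2) (Fin 2) ℂ, (∀ γ, (X * j γ).trace = 0) → X 0 0 = 0 ∧ X 1 1 = 0 := by
    intro X hX
    have h1 := hX 1
    rw [hj1, mul_one, Matrix.trace_fin_two] at h1
    have h2 := hX γ₀
    have h3 : j γ₀ = !![(ε * Real.exp (T / 2) : ℂ), 0; 0, (ε * Real.exp (-T / 2) : ℂ)] := by
      simp only [j]
      rw [hα, mt_aflow]
      ext a b
      fin_cases a <;> fin_cases b <;> simp [cm]
    rw [h3, Matrix.trace_fin_two] at h2
    simp only [Matrix.mul_apply, Fin.sum_univ_two, Matrix.of_apply, Matrix.cons_val',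
      Matrix.cons_val_zero, Matrix.cons_val_one, Matrix.cons_val_fin_one, mul_zero, add_zero,
      zero_add] at h2
    have hx : X 1 1 = -X 0 0 := by linear_combination h1
    have hεne : (ε : ℂ) ≠ 0 := by rcases hε with h | h <;> rw [h] <;> simp
    have hexp : ((Real.exp (T / 2) : ℝ) : ℂ) - ((Real.exp (-T / 2) : ℝ) : ℂ) ≠ 0 := by
      rw [← Complex.ofReal_sub, Ne, Complex.ofReal_eq_zero, sub_eq_zero]
      intro h5
      have := Real.exp_injective h5
      linarith
    have h4 : X 0 0 * ((ε : ℂ) * (((Real.exp (T / 2) : ℝ) : ℂ) - ((Real.exp (-T / 2) : ℝ) : ℂ))) = 0 := by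
      rw [hx] at h2
      linear_combination h2
    have h5 : X 0 0 = 0 := by
      rcases mul_eq_zero.mp h4 with h6 | h6
      · exact h6
      · exact absurd h6 (mul_ne_zero hεne hexp)
    exact ⟨h5, by rw [hx, h5, neg_zero]⟩
  obtain ⟨hd0, hd1⟩ := hdiag L' hL'
  have hL'' : ∀ γ, (j γ) 0 1 * L' 1 0 = 0 ∧ (j γ) 1 0 * L' 0 1 = 0 := by
    intro γ
    have h1 := hdiag (j γ * L') (by
      intro γ'
      rw [Matrix.mul_assoc, Matrix.trace_mul_comm, Matrix.mul_assoc, hjm]
      exact hL' _)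
    rw [Matrix.mul_apply, Matrix.mul_apply, Fin.sum_univ_two, Fin.sum_univ_two, hd0, hd1] at h1
    simpa using h1
  have hL'ne : L' 0 1 ≠ 0 ∨ L' 1 0 ≠ 0 := by
    by_contra hcon
    push Not at hcon
    have hL'0 : L' = 0 := by
      ext a b
      fin_cases a <;> fin_cases b
      · exact hd0
      · exact hcon.1
      · exact hcon.2
      · exact hd1
    have hyy' : cm (mt y⁻¹) * cm (mt y) = 1 := by rw [← cm_mul, mt_inv_mul, cm_one]
    have hLz : L = 0 := by
      calc L = (cm (mt y) * cm (mt y⁻¹)) * L * (cm (mt y) * cm (mt y⁻¹)) := by rw [hyy]; simp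
        _ = cm (mt y) * L' * cm (mt y⁻¹) := by simp only [L', Matrix.mul_assoc]
        _ = 0 := by rw [hL'0]; simp
    apply hf
    ext X
    rw [hL, hLz]; simp
  have hjr : ∀ γ a b, j γ a b = ((mt (y⁻¹ * γ * y) a b : ℝ) : ℂ) := fun γ a b => rfl
  rcases hL'ne with h1 | h1
  · apply not_diag h y
    intro γ
    apply tri_diag h hT.ne' hε hα γ
    left
    refine ⟨hT, ?_⟩
    have h2 := (mul_eq_zero.mp (hL'' γ).2).resolve_right h1
    rw [hjr] at h2
    exact_mod_cast h2
  · apply not_diag h y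
    intro γ
    have hα' : mt (y⁻¹ * ((γ₀⁻¹ : Γ) : G2) * y) = ε • mt (aflow (-T)) := by
      have e1 : y⁻¹ * ((γ₀⁻¹ : Γ) : G2) * y = (y⁻¹ * (γ₀ : G2) * y)⁻¹ := by
        rw [Subgroup.coe_inv]; group
      rw [e1]
      have hε2 : ε * ε = 1 := by rcases hε with h1 | h1 <;> rw [h1] <;> norm_num
      have h3 : (ε • mt (aflow (-T))) * mt (y⁻¹ * (γ₀ : G2) * y) = 1 := by
        rw [hα, Matrix.smul_mul, Matrix.mul_smul, smul_smul, hε2, one_smul, aflow_neg]
        exact mt_inv_mul _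
      calc mt (y⁻¹ * (γ₀ : G2) * y)⁻¹
          = (ε • mt (aflow (-T))) * mt (y⁻¹ * (γ₀ : G2) * y) * mt (y⁻¹ * (γ₀ : G2) * y)⁻¹ := by
            rw [h3, one_mul]
        _ = ε • mt (aflow (-T)) := by rw [Matrix.mul_assoc, mt_mul_inv, mul_one]
    apply tri_diag h (by linarith : -T ≠ 0) hε hα' γ
    right
    refine ⟨by linarith, ?_⟩
    have h2 := (mul_eq_zero.mp (hL'' γ).1).resolve_right h1
    rw [hjr] at h2
    exact_mod_cast h2

end K4H41.SA
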