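import Mathlib
import Pool.Agent.K4H41.SA.Lim
import Pool.Agent.K4H41.SA.Simple
import Pool.Agent.K4H41.SA.Cone

/-! Proper discontinuity near characters of representations with uniform growth. -/

namespace K4H41.SA

open Matrix Filter Topology

variable {Γ : Subgroup G2}

theorem trace_sq' (X : G2) : (mt (X ^ 2)).trace = (mt X).trace ^ 2 - 2 := by
  rw [pow_two, mt_mul, Matrix.trace_fin_two, Matrix.trace_fin_two]
  have := det2 X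
  simp only [Matrix.mul_apply, Fin.sum_univ_two]
  linear_combination (-2) * this

theorem trace_pow_two (X : G2) (hX : 2 ≤ |(mt X).trace|) (j : ℕ) :
    2 ≤ |(mt (X ^ 2 ^ j)).trace| ∧
      (|(mt X).trace| - 1) ^ (2 ^ j) ≤ |(mt (X ^ 2 ^ j)).trace| - 1 := by
  induction j with
  | zero => simpa using hX
  | succ j ih =>
    obtain ⟨h1, h2⟩ := ih
    have h3 : (mt (X ^ 2 ^ (j + 1))).trace = (mt (X ^ 2 ^ j)).trace ^ 2 - 2 := by
      rw [pow_succ, pow_mul, trace_sq']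
    set u := |(mt (X ^ 2 ^ j)).trace| with hu
    have h4 : (mt (X ^ 2 ^ j)).trace ^ 2 = u ^ 2 := by rw [hu, sq_abs]
    have h5 : |(mt (X ^ 2 ^ (j + 1))).trace| = u ^ 2 - 2 := by
      rw [h3, h4, abs_of_nonneg]; nlinarith
    rw [h5]
    refine ⟨by nlinarith, ?_⟩
    have h6 : 0 ≤ (|(mt X).trace| - 1) ^ (2 ^ j) := pow_nonneg (by linarith) _
    calc (|(mt X).trace| - 1) ^ (2 ^ (j + 1)) = ((|(mt X).trace| - 1) ^ (2 ^ j)) ^ 2 := by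
          rw [pow_succ, pow_mul]
      _ ≤ (u - 1) ^ 2 := pow_le_pow_left₀ h6 h2 2
      _ ≤ _ := by nlinarith

theorem sq_trace_le (X : G2) : (mt X).trace ^ 2 ≤ 2 * hs (mt X) := by
  rw [hs2, Matrix.trace_fin_two]
  nlinarith [sq_nonneg (mt X 0 0 - mt X 1 1), sq_nonneg (mt X 0 1), sq_nonneg (mt X 1 0)]

theorem le_of_pow_le {x y K : ℝ} (hy : 0 < y)
    (h : ∀ j : ℕ, x ^ (2 ^ j) ≤ K * y ^ (2 ^ j)) : x ≤ y := by
  by_contra hcon
  push Not at hcon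
  have h1 : 1 < x / y := (one_lt_div hy).mpr hcon
  obtain ⟨n, hn⟩ := pow_unbounded_of_one_lt K h1
  have h2 : (x / y) ^ n ≤ (x / y) ^ (2 ^ n) := pow_le_pow_right₀ h1.le Nat.lt_two_pow_self.le
  have h3 : (x / y) ^ (2 ^ n) ≤ K := by
    rw [div_pow, div_le_iff₀ (by positivity)]
    exact h n
  linarith

section bd

variable {κ : Type*} [Fintype κ] [DecidableEq κ]

theorem hs_pow (Y : Matrix κ κ ℂ) (n : ℕ) : hs (Y ^ n) ≤ (hs (1 : Matrix κ κ ℂ) + 1) * (hs Y + 1) ^ n := by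
  have h1 := hs_nonneg (1 : Matrix κ κ ℂ)
  have h2 := hs_nonneg Y
  induction n with
  | zero => simp
  | succ n ih =>
    rw [pow_succ, pow_succ, ← mul_assoc]
    refine (hs_mul _ _).trans (mul_le_mul ih (by linarith) h2 (by positivity))

theorem trace_bd {ρ : Γ →* Matrix κ κ ℂ} {a : ℕ} (hG : Grw ρ a)
    (h : (Matrix κ κ ℂ)ˣ) (β : Γ) (hβ : 2 ≤ |(mt (β : G2)).trace|) :
    (|(mt (β : G2)).trace| - 1) ^ 2 ≤
      (hs ((h : Matrix κ κ ℂ) * ρ β * ((h⁻¹ : (Matrix κ κ ℂ)ˣ) : Matrix κ κ ℂ)) + 1) ^ a := by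
  obtain ⟨C, hC, hG⟩ := hG
  set Y := (h : Matrix κ κ ℂ) * ρ β * ((h⁻¹ : (Matrix κ κ ℂ)ˣ) : Matrix κ κ ℂ) with hY
  have hY0 := hs_nonneg Y
  have h10 := hs_nonneg (1 : Matrix κ κ ℂ)
  have hh0 := hs_nonneg (h : Matrix κ κ ℂ)
  have hi0 := hs_nonneg ((h⁻¹ : (Matrix κ κ ℂ)ˣ) : Matrix κ κ ℂ)
  have hpow : ∀ n : ℕ, Y ^ n = (h : Matrix κ κ ℂ) * ρ (β ^ n) *
      ((h⁻¹ : (Matrix κ κ ℂ)ˣ) : Matrix κ κ ℂ) := by
    intro n
    rw [hY, map_pow]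
    exact Units.conj_pow h (ρ β) n
  let c : ℝ := hs ((h⁻¹ : (Matrix κ κ ℂ)ˣ) : Matrix κ κ ℂ) * (hs (1 : Matrix κ κ ℂ) + 1) *
    hs (h : Matrix κ κ ℂ)
  have hc : 0 ≤ c := by positivity
  have hρ : ∀ n : ℕ, hs (ρ (β ^ n)) ≤ c * (hs Y + 1) ^ n := by
    intro n
    have h1 : ρ (β ^ n) = ((h⁻¹ : (Matrix κ κ ℂ)ˣ) : Matrix κ κ ℂ) * Y ^ n * (h : Matrix κ κ ℂ) := by
      rw [hpow]
      calc ρ (β ^ n) = (((h⁻¹ : (Matrix κ κ ℂ)ˣ) : Matrix κ κ ℂ) * h) * ρ (β ^ n) *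
            (((h⁻¹ : (Matrix κ κ ℂ)ˣ) : Matrix κ κ ℂ) * h) := by rw [Units.inv_mul]; simp
        _ = _ := by simp only [Matrix.mul_assoc]
    rw [h1]
    calc hs (((h⁻¹ : (Matrix κ κ ℂ)ˣ) : Matrix κ κ ℂ) * Y ^ n * (h : Matrix κ κ ℂ))
        ≤ hs ((h⁻¹ : (Matrix κ κ ℂ)ˣ) : Matrix κ κ ℂ) * ((hs (1 : Matrix κ κ ℂ) + 1) *
          (hs Y + 1) ^ n) * hs (h : Matrix κ κ ℂ) := by
          refine (hs_mul _ _).trans (mul_le_mul_of_nonneg_right ?_ hh0)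
          exact (hs_mul _ _).trans (mul_le_mul_of_nonneg_left (hs_pow Y n) hi0)
      _ = _ := by simp only [c]; ring
  apply le_of_pow_le (K := 2 * (C * c ^ a)) (by positivity)
  intro j
  obtain ⟨h1, h2⟩ := trace_pow_two (β : G2) hβ j
  have h3 := sq_trace_le ((β : G2) ^ 2 ^ j)
  have h4 := hG (β ^ 2 ^ j)
  rw [Subgroup.coe_pow] at h4
  have h5 := hρ (2 ^ j)
  have h6 : 0 ≤ (|(mt (β : G2)).trace| - 1) ^ (2 ^ j) := pow_nonneg (by linarith) _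
  have h8 : (mt ((β : G2) ^ 2 ^ j)).trace ^ 2 = |(mt ((β : G2) ^ 2 ^ j)).trace| ^ 2 := by
    rw [sq_abs]
  calc ((|(mt (β : G2)).trace| - 1) ^ 2) ^ 2 ^ j = ((|(mt (β : G2)).trace| - 1) ^ 2 ^ j) ^ 2 := by
        rw [← pow_mul, ← pow_mul, mul_comm]
    _ ≤ (|(mt ((β : G2) ^ 2 ^ j)).trace| - 1) ^ 2 := pow_le_pow_left₀ h6 h2 2
    _ ≤ |(mt ((β : G2) ^ 2 ^ j)).trace| ^ 2 := by nlinarith
    _ ≤ 2 * hs (mt ((β : G2) ^ 2 ^ j)) := by rw [← h8]; exact h3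
    _ ≤ 2 * (C * (c * (hs Y + 1) ^ 2 ^ j) ^ a) := by
        refine mul_le_mul_of_nonneg_left (h4.trans ?_) (by norm_num)
        exact mul_le_mul_of_nonneg_left (pow_le_pow_left₀ (hs_nonneg _) h5 a) hC.le
    _ = 2 * (C * c ^ a) * ((hs Y + 1) ^ a) ^ 2 ^ j := by
        rw [mul_pow, ← pow_mul, ← pow_mul, mul_comm (2 ^ j) a]; ring

end bd

/-- adjusting the conjugators -/
theorem exists_sl (h : (Matrix (Fin 2) (Fin 2) ℝ)ˣ) : ∃ g : G2, ∀ X : Matrix (Fin 2) (Fin 2) ℝ,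
    hs (mt g * X * mt g⁻¹) = hs ((h : Matrix (Fin 2) (Fin 2) ℝ) * X *
      ((h⁻¹ : (Matrix (Fin 2) (Fin 2) ℝ)ˣ) : Matrix (Fin 2) (Fin 2) ℝ)) := by
  set H := (h : Matrix (Fin 2) (Fin 2) ℝ) with hH
  set H' := ((h⁻¹ : (Matrix (Fin 2) (Fin 2) ℝ)ˣ) : Matrix (Fin 2) (Fin 2) ℝ) with hH'
  have hHH : H * H' = 1 := Units.mul_inv h
  have hH'H : H' * H = 1 := Units.inv_mul h
  have hdet : H.det ≠ 0 := by
    intro h0
    have := congrArg Matrix.det hHH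
    rw [Matrix.det_mul, h0, zero_mul, Matrix.det_one] at this
    norm_num at this
  obtain ⟨ε, hε, hεd⟩ : ∃ ε : ℝ, (ε = 1 ∨ ε = -1) ∧ 0 < ε * H.det := by
    rcases lt_or_gt_of_ne hdet with h1 | h1
    · exact ⟨-1, Or.inr rfl, by linarith⟩
    · exact ⟨1, Or.inl rfl, by linarith⟩
  have hε2 : ε * ε = 1 := by rcases hε with h1 | h1 <;> rw [h1] <;> norm_num
  let J : Matrix (Fin 2) (Fin 2) ℝ := !![1, 0; 0, ε]
  have hJJ : J * J = 1 := by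
    simp only [J]
    rw [Matrix.mul_fin_two, Matrix.one_fin_two]
    simp [hε2]
  have hJdet : J.det = ε := by simp [J, Matrix.det_fin_two]
  have hJhs : ∀ Y : Matrix (Fin 2) (Fin 2) ℝ, hs (J * Y * J) = hs Y := by
    intro Y
    have hε3 : ε ^ 2 = 1 := by rw [sq]; exact hε2
    rw [hs2, hs2]
    simp only [J, Matrix.mul_apply, Fin.sum_univ_two, Matrix.of_apply, Matrix.cons_val',
      Matrix.cons_val_zero, Matrix.cons_val_one, Matrix.cons_val_fin_one]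
    linear_combination (Y 0 1 ^ 2 + Y 1 0 ^ 2 + Y 1 1 ^ 2 * (ε ^ 2 + 1)) * hε3
  let r : ℝ := (Real.sqrt (ε * H.det))⁻¹
  have hr : r ^ 2 * (ε * H.det) = 1 := by
    simp only [r]
    rw [inv_pow, Real.sq_sqrt hεd.le, inv_mul_cancel₀ hεd.ne']
  let g : G2 := ⟨r • (J * H), by
    rw [Matrix.det_smul, Matrix.det_mul, hJdet, Fintype.card_fin, hr]⟩
  refine ⟨g, fun X => ?_⟩
  have h1 : mt g * X = (J * (H * X * H') * J) * mt g := by
    change (r • (J * H)) * X = (J * (H * X * H') * J) * (r • (J * H))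
    rw [Matrix.smul_mul, Matrix.mul_smul]
    congr 1
    calc J * H * X = J * (H * X * (H' * H)) := by rw [hH'H, mul_one]; simp only [Matrix.mul_assoc]
      _ = J * (H * X * H') * (J * J) * H := by rw [hJJ, mul_one]; simp only [Matrix.mul_assoc]
      _ = _ := by simp only [Matrix.mul_assoc]
  rw [h1, Matrix.mul_assoc, mt_mul_inv, mul_one, hJhs]

/-- the inclusion as a homomorphism to the matrices -/
def inc (Γ : Subgroup G2) : Γ →* Matrix (Fin 2) (Fin 2) ℝ where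
  toFun g := mt (g : G2)
  map_one' := rfl
  map_mul' _ _ := rfl

theorem finiteness (hΓ : SG Γ) (𝒰 : Ultrafilter ℕ) (h𝒰 : (𝒰 : Filter ℕ) ≤ atTop)
    (α : ℕ → MulAut Γ)
    (hb : ∀ γ : Γ, ∃ C : ℝ, ∀ᶠ n in (𝒰 : Filter ℕ), |(mt ((α n γ : Γ) : G2)).trace| ≤ C) :
    ∃ ψ : MulAut Γ, ∀ᶠ n in (𝒰 : Filter ℕ), ∃ γ : Γ, MulAut.conj γ * α n = ψ := by
  obtain ⟨S, hS⟩ := exists_gens hΓ
  obtain ⟨h, ρ', hlim, -⟩ := lim_rep (𝕜 := ℝ) (ι := Fin 2) (κ := S) (fun s => (s : Γ))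
    (by rw [Subtype.range_coe_subtype]; simpa using hS) 𝒰 h𝒰
    (fun n => (inc Γ).comp (α n).toMonoidHom) (fun γ => by
      obtain ⟨C, hC⟩ := hb γ
      exact ⟨C, by filter_upwards [hC] with n hn; exact hn⟩)
  obtain ⟨M, hM⟩ := hΓ.coc
  have hM0 : 0 ≤ M := by
    obtain ⟨γ, hγ⟩ := hM 1
    exact (hs_nonneg _).trans hγ
  choose g hg using fun n => exists_sl (h n)
  choose γ hγ using fun n => hM (g n)⁻¹
  have hfin : ∀ x : Γ, ∃ v : Γ, ∀ᶠ n in (𝒰 : Filter ℕ), γ n * α n x * (γ n)⁻¹ = v := by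
    intro x
    have h1 : ∀ᶠ n in (𝒰 : Filter ℕ), hs ((h n : Matrix (Fin 2) (Fin 2) ℝ) * mt ((α n x : Γ) : G2) *
        (((h n)⁻¹ : (Matrix (Fin 2) (Fin 2) ℝ)ˣ) : Matrix (Fin 2) (Fin 2) ℝ)) < hs (ρ' x) + 1 := by
      have h2 := (continuous_hs.tendsto (ρ' x)).comp (hlim x)
      exact h2.eventually (gt_mem_nhds (by linarith))
    have h3 : ∀ᶠ n in (𝒰 : Filter ℕ), ∃ v ∈ {v : Γ | hs (mt (v : G2)) ≤ M * (hs (ρ' x) + 1) * M},
        γ n * α n x * (γ n)⁻¹ = v := by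
      filter_upwards [h1] with n hn
      refine ⟨_, ?_, rfl⟩
      change hs (mt ((γ n * α n x * (γ n)⁻¹ : Γ) : G2)) ≤ _
      have h4 : ((γ n * α n x * (γ n)⁻¹ : Γ) : G2) =
          ((γ n : G2) * (g n)⁻¹) * (g n * (α n x : Γ) * (g n)⁻¹) * ((γ n : G2) * (g n)⁻¹)⁻¹ := by
        simp only [Subgroup.coe_mul, Subgroup.coe_inv]
        group
      have h5 : hs (mt (g n * (α n x : Γ) * (g n)⁻¹)) ≤ hs (ρ' x) + 1 := by
        rw [mt_mul, mt_mul, hg]; exact hn.le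
      have h6 := hs_nonneg (ρ' x)
      rw [h4]
      refine (hs_mt_mul _ _).trans (mul_le_mul ?_ ?_ (hs_nonneg _) (by positivity))
      · exact (hs_mt_mul _ _).trans (mul_le_mul (hγ n) h5 (hs_nonneg _) hM0)
      · rw [hs_inv]; exact hγ n
    rw [Ultrafilter.eventually_exists_mem_iff (hΓ.fin _)] at h3
    obtain ⟨v, -, hv⟩ := h3
    exact ⟨v, hv⟩
  choose v hv using hfin
  have hall : ∀ᶠ n in (𝒰 : Filter ℕ), ∀ x ∈ S, γ n * α n x * (γ n)⁻¹ = v x :=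
    (Filter.eventually_all_finset S).mpr fun x _ => hv x
  obtain ⟨n₀, hn₀⟩ := hall.exists
  refine ⟨MulAut.conj (γ n₀) * α n₀, ?_⟩
  filter_upwards [hall] with n hn
  refine ⟨γ n, ?_⟩
  have h1 : (MulAut.conj (γ n) * α n : MulAut Γ).toMonoidHom =
      (MulAut.conj (γ n₀) * α n₀ : MulAut Γ).toMonoidHom := by
    apply MonoidHom.eq_of_eqOn_denseM hS
    intro x hx
    have h2 := hn x hx
    have h3 := hn₀ x hx
    change γ n * α n x * (γ n)⁻¹ = γ n₀ * α n₀ x * (γ n₀)⁻¹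
    rw [h2, h3]
  ext1 x
  exact DFunLike.congr_fun h1 x

theorem outer_eq {φ ψ : MulAut Γ} {γ : Γ} (h : MulAut.conj γ * φ⁻¹ = ψ) :
    (φ : Outer Γ) = (ψ⁻¹ : MulAut Γ) := by
  rw [QuotientGroup.eq]
  refine ⟨γ⁻¹, ?_⟩
  rw [← h]
  simp

end K4H41.SA
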