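import Mathlib
import Pool.Agent.K4H41.SA.PD

/-! The domain of the characters with stable growth, and unions with it. -/

namespace K4H41.SA

open Matrix Filter Topology

variable {Γ : Subgroup G2} {d : ℕ}

/-- the underlying matrix representation -/
def mr (ρ : Γ →* Matrix.SpecialLinearGroup (Fin d) ℂ) : Γ →* Matrix (Fin d) (Fin d) ℂ where
  toFun g := (ρ g).1
  map_one' := by rw [map_one]; rfl
  map_mul' g h := by rw [map_mul]; rfl

/-- the character of a representation with growth exponent `a` -/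
def GChar (a : ℕ) (χ : CharVar Γ d) : Prop :=
  ∃ ρ : Γ →* Matrix.SpecialLinearGroup (Fin d) ℂ, character ρ = χ.1 ∧ Grw (mr ρ) a

/-- the characters with stable growth -/
def QI (Γ : Subgroup G2) (d : ℕ) : Set (CharVar Γ d) := {χ | ∃ a, ∀ᶠ χ' in 𝓝 χ, GChar a χ'}

theorem isOpen_QI : IsOpen (QI Γ d) := by
  rw [isOpen_iff_eventually]
  rintro χ ⟨a, ha⟩
  filter_upwards [ha.eventually_nhds] with χ' h
  exact ⟨a, h⟩

theorem continuous_eval (γ : Γ) : Continuous fun χ : CharVar Γ d => χ.1 γ :=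
  (continuous_apply γ).comp continuous_subtype_val

theorem continuous_act (φ : MulAut Γ) : Continuous (act φ : CharVar Γ d → CharVar Γ d) := by
  apply Continuous.subtype_mk
  exact continuous_pi fun g => continuous_eval (φ⁻¹ g)

theorem act_mul (φ ψ : MulAut Γ) (χ : CharVar Γ d) : act (φ * ψ) χ = act φ (act ψ χ) := by
  apply Subtype.ext
  funext g
  change χ.1 ((φ * ψ)⁻¹ g) = χ.1 (ψ⁻¹ (φ⁻¹ g))
  rw [_root_.mul_inv_rev]
  rfl

theorem act_one (χ : CharVar Γ d) : act 1 χ = χ := by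
  apply Subtype.ext
  funext g
  change χ.1 ((1 : MulAut Γ)⁻¹ g) = χ.1 g
  rw [inv_one]
  rfl

theorem act_inv_act (φ : MulAut Γ) (χ : CharVar Γ d) : act φ⁻¹ (act φ χ) = χ := by
  rw [← act_mul, inv_mul_cancel, act_one]

theorem act_act_inv (φ : MulAut Γ) (χ : CharVar Γ d) : act φ (act φ⁻¹ χ) = χ := by
  rw [← act_mul, mul_inv_cancel, act_one]

theorem act_QI (hΓ : SG Γ) (φ : MulAut Γ) {χ : CharVar Γ d} (hχ : χ ∈ QI Γ d) :
    act φ χ ∈ QI Γ d := by
  obtain ⟨a, ha⟩ := hχ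
  obtain ⟨C', a', hC', hpg⟩ := poly_growth hΓ ((inc Γ).comp φ.toMonoidHom)
  refine ⟨a * a', ?_⟩
  have h1 : Tendsto (act φ⁻¹ : CharVar Γ d → CharVar Γ d) (𝓝 (act φ χ)) (𝓝 χ) := by
    have := (continuous_act (d := d) φ⁻¹).tendsto (act φ χ)
    rwa [act_inv_act] at this
  filter_upwards [h1.eventually ha] with χ' h
  obtain ⟨ρ, hρ, C, hC, hG⟩ := h
  refine ⟨ρ.comp (φ⁻¹ : MulAut Γ).toMonoidHom, ?_, C' * C ^ a', by positivity, ?_⟩
  · rw [← act_act_inv φ χ']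
    funext g
    change character ρ (φ⁻¹ g) = (act φ⁻¹ χ').1 (φ⁻¹ g)
    rw [hρ]
  · intro g
    have h2 := hpg (φ⁻¹ g)
    have h3 : ((inc Γ).comp φ.toMonoidHom) (φ⁻¹ g) = mt (g : G2) := by
      change mt ((φ (φ⁻¹ g) : Γ) : G2) = _
      rw [MulAut.apply_inv_self]
    rw [h3] at h2
    have h4 := hG (φ⁻¹ g)
    calc hs (mt (g : G2)) ≤ C' * hs (mt ((φ⁻¹ g : Γ) : G2)) ^ a' := h2
      _ ≤ C' * (C * hs (mr ρ (φ⁻¹ g)) ^ a) ^ a' :=
          mul_le_mul_of_nonneg_left (pow_le_pow_left₀ (hs_nonneg _) h4 a') hC'.le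
      _ = C' * C ^ a' * hs (mr ρ (φ⁻¹ g)) ^ (a * a') := by rw [mul_pow, ← pow_mul]; ring
      _ = _ := rfl

/-- the main discreteness statement -/
theorem disc (hΓ : SG Γ) (𝒰 : Ultrafilter ℕ) (h𝒰 : (𝒰 : Filter ℕ) ≤ atTop)
    {x : ℕ → CharVar Γ d} {φ : ℕ → MulAut Γ} {a : ℕ}
    (hx : ∀ᶠ n in (𝒰 : Filter ℕ), GChar a (x n)) {y : CharVar Γ d}
    (hy : Tendsto (fun n => act (φ n) (x n)) 𝒰 (𝓝 y)) :
    ∃ q : Outer Γ, ∀ᶠ n in (𝒰 : Filter ℕ), ((φ n : MulAut Γ) : Outer Γ) = q := by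
  classical
  have hch : ∀ n, ∃ ρ : Γ →* Matrix.SpecialLinearGroup (Fin d) ℂ, character ρ = (x n).1 ∧
      (GChar a (x n) → Grw (mr ρ) a) := by
    intro n
    by_cases h : GChar a (x n)
    · obtain ⟨ρ, hρ, hG⟩ := h
      exact ⟨ρ, hρ, fun _ => hG⟩
    · obtain ⟨ρ, hρ⟩ := (x n).2
      exact ⟨ρ, hρ, fun h' => absurd h' h⟩
  choose ρ hρ hG using hch
  obtain ⟨S, hS⟩ := exists_gens hΓ
  obtain ⟨h, ρ', hlim, -⟩ := lim_rep (𝕜 := ℂ) (ι := Fin d) (κ := S) (fun s => (s : Γ))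
    (by rw [Subtype.range_coe_subtype]; simpa using hS) 𝒰 h𝒰
    (fun n => (mr (ρ n)).comp ((φ n)⁻¹ : MulAut Γ).toMonoidHom) (fun γ => by
      have h1 : Tendsto (fun n => ‖(act (φ n) (x n)).1 γ‖) 𝒰 (𝓝 ‖y.1 γ‖) :=
        (((continuous_eval γ).norm).tendsto y).comp hy
      refine ⟨‖y.1 γ‖ + 1, ?_⟩
      filter_upwards [h1.eventually (gt_mem_nhds (lt_add_one _))] with n hn
      have h2 : ((mr (ρ n)).comp ((φ n)⁻¹ : MulAut Γ).toMonoidHom γ).trace =
          (act (φ n) (x n)).1 γ := by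
        change character (ρ n) ((φ n)⁻¹ γ) = (x n).1 ((φ n)⁻¹ γ)
        rw [hρ]
      rw [h2]; exact hn.le)
  obtain ⟨ψ, hψ⟩ := finiteness hΓ 𝒰 h𝒰 (fun n => (φ n)⁻¹) (fun γ => by
    have h1 := (continuous_hs.tendsto (ρ' γ)).comp (hlim γ)
    refine ⟨(hs (ρ' γ) + 1 + 1) ^ a + 3, ?_⟩
    have h0 : 0 ≤ (hs (ρ' γ) + 1 + 1) ^ a := by
      have := hs_nonneg (ρ' γ)
      positivity
    filter_upwards [h1.eventually (gt_mem_nhds (lt_add_one _)), hx] with n hn hxn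
    by_cases ht : 2 ≤ |(mt ((((φ n)⁻¹ : MulAut Γ) γ : Γ) : G2)).trace|
    · have h2 := trace_bd (hG n hxn) (h n) (((φ n)⁻¹ : MulAut Γ) γ) ht
      have h3 : hs ((h n : Matrix (Fin d) (Fin d) ℂ) * mr (ρ n) (((φ n)⁻¹ : MulAut Γ) γ) *
          (((h n)⁻¹ : (Matrix (Fin d) (Fin d) ℂ)ˣ) : Matrix (Fin d) (Fin d) ℂ)) ≤
          hs (ρ' γ) + 1 := hn.le
      have h4 := hs_nonneg ((h n : Matrix (Fin d) (Fin d) ℂ) * mr (ρ n) (((φ n)⁻¹ : MulAut Γ) γ) *
          (((h n)⁻¹ : (Matrix (Fin d) (Fin d) ℂ)ˣ) : Matrix (Fin d) (Fin d) ℂ))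
      have h5 := h2.trans (pow_le_pow_left₀ (by linarith) (add_le_add_left h3 1) a)
      nlinarith
    · push Not at ht
      linarith)
  refine ⟨(ψ⁻¹ : MulAut Γ), ?_⟩
  filter_upwards [hψ] with n hn
  obtain ⟨γ, hγ⟩ := hn
  exact outer_eq hγ

theorem firstCountable (h : Countable Γ) : FirstCountableTopology (CharVar Γ d) := by
  have h1 : Topology.IsInducing (fun χ : CharVar Γ d => χ.1) := Topology.IsInducing.subtypeVal
  exact h1.firstCountableTopology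

theorem conj_aut (ψ : MulAut Γ) (γ : Γ) : MulAut.conj (ψ γ) = ψ * MulAut.conj γ * ψ⁻¹ := by
  ext1 x
  change ψ γ * x * (ψ γ)⁻¹ = ψ (γ * ψ⁻¹ x * γ⁻¹)
  rw [map_mul, map_mul, map_inv, MulAut.apply_inv_self]

theorem countable (hΓ : SG Γ) : Countable Γ := by
  have h1 : (Set.univ : Set Γ) = ⋃ n : ℕ, {γ : Γ | hs (mt (γ : G2)) ≤ n} := by
    symm
    rw [Set.eq_univ_iff_forall]
    intro γ
    obtain ⟨n, hn⟩ := exists_nat_ge (hs (mt (γ : G2)))
    exact Set.mem_iUnion.mpr ⟨n, hn⟩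
  rw [← Set.countable_univ_iff, h1]
  exact Set.countable_iUnion fun n => (hΓ.fin n).countable

/-- the union of a domain of discontinuity with the characters of stable growth -/
theorem isDoD_union (hΓ : SG Γ) {A : Set (CharVar Γ d)} (hA : IsDoD A) : IsDoD (A ∪ QI Γ d) := by
  have hcount := countable hΓ
  have hfc : FirstCountableTopology (CharVar Γ d) := firstCountable hcount
  obtain ⟨hA1, hA2, hA3⟩ := hA
  refine ⟨hA1.union isOpen_QI, ?_, ?_⟩
  · rintro φ χ (h | h)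
    · exact Or.inl (hA2 φ χ h)
    · exact Or.inr (act_QI hΓ φ h)
  · intro K hK hKc
    by_contra hinf
    let Q : Set (Outer Γ) := {q : Outer Γ | ∃ φ : MulAut Γ, (φ : Outer Γ) = q ∧
      (act φ '' K ∩ K).Nonempty}
    have hQ : Q.Infinite := hinf
    let e : ℕ ↪ Q := hQ.natEmbedding
    have hch : ∀ n : ℕ, ∃ (φ : MulAut Γ) (x : CharVar Γ d), (φ : Outer Γ) = (e n : Outer Γ) ∧
        x ∈ K ∧ act φ x ∈ K := by
      intro n
      obtain ⟨φ, hφ, y, ⟨x, hx, hxy⟩, hy⟩ := (e n).2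
      exact ⟨φ, x, hφ, hx, by rw [hxy]; exact hy⟩
    choose φ₀ x₀ hφ₀ hx₀ hy₀ using hch
    obtain ⟨x, hxK, θ₁, hθ₁, hlim₁⟩ := hKc.tendsto_subseq hx₀
    obtain ⟨y, hyK, θ₂, hθ₂, hlim₂⟩ := hKc.tendsto_subseq (fun n => hy₀ (θ₁ n))
    let θ : ℕ → ℕ := θ₁ ∘ θ₂
    have hθ : StrictMono θ := hθ₁.comp hθ₂
    let φ : ℕ → MulAut Γ := fun n => φ₀ (θ n)
    let xs : ℕ → CharVar Γ d := fun n => x₀ (θ n)
    let ys : ℕ → CharVar Γ d := fun n => act (φ n) (xs n)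
    have hxs : Tendsto xs atTop (𝓝 x) := hlim₁.comp hθ₂.tendsto_atTop
    have hys : Tendsto ys atTop (𝓝 y) := hlim₂
    have hinj : Function.Injective fun n => ((φ n : MulAut Γ) : Outer Γ) := by
      intro m n hmn
      have h1 : ((φ m : MulAut Γ) : Outer Γ) = (φ n : MulAut Γ) := hmn
      simp only [φ] at h1
      rw [hφ₀, hφ₀] at h1
      exact hθ.injective (e.injective (Subtype.ext h1))
    let 𝒰 : Ultrafilter ℕ := hyperfilter ℕ
    have h𝒰 : (𝒰 : Filter ℕ) ≤ atTop := by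
      rw [← Nat.cofinite_eq_atTop]
      exact hyperfilter_le_cofinite
    have hcontr : ∀ q : Outer Γ, ¬ ∀ᶠ n in (𝒰 : Filter ℕ), ((φ n : MulAut Γ) : Outer Γ) = q := by
      intro q hq
      have h1 : {n : ℕ | ((φ n : MulAut Γ) : Outer Γ) = q}.Subsingleton := by
        intro m hm n hn
        exact hinj (hm.trans hn.symm)
      exact Set.Finite.notMem_hyperfilter h1.finite hq
    by_cases hx : x ∈ QI Γ d
    · obtain ⟨a, ha⟩ := hx
      obtain ⟨q, hq⟩ := disc hΓ 𝒰 h𝒰 (x := xs) (φ := φ) (a := a)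
        ((hxs.mono_left h𝒰).eventually ha) (hys.mono_left h𝒰)
      exact hcontr q hq
    by_cases hy : y ∈ QI Γ d
    · obtain ⟨a, ha⟩ := hy
      have hback : ∀ n, act (φ n)⁻¹ (ys n) = xs n := fun n => act_inv_act _ _
      obtain ⟨q, hq⟩ := disc hΓ 𝒰 h𝒰 (x := ys) (φ := fun n => (φ n)⁻¹) (a := a) (y := x)
        ((hys.mono_left h𝒰).eventually ha) (by simp only [hback]; exact hxs.mono_left h𝒰)
      obtain ⟨ψ, rfl⟩ := QuotientGroup.mk_surjective q
      apply hcontr ((ψ⁻¹ : MulAut Γ) : Outer Γ)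
      filter_upwards [hq] with n hn
      rw [QuotientGroup.eq] at hn ⊢
      obtain ⟨γ, hγ⟩ := hn
      -- `φ n * ψ = conj γ`
      rw [inv_inv] at hγ
      refine ⟨(ψ γ)⁻¹, ?_⟩
      rw [map_inv, conj_aut, hγ]
      group
    have hxA : x ∈ A := (hK hxK).resolve_right hx
    have hyA : y ∈ A := (hK hyK).resolve_right hy
    have hev : ∀ᶠ n in atTop, xs n ∈ A ∧ ys n ∈ A :=
      (hxs.eventually (hA1.mem_nhds hxA)).and (hys.eventually (hA1.mem_nhds hyA))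
    obtain ⟨N, hN⟩ := eventually_atTop.mp hev
    let xs' : ℕ → CharVar Γ d := fun n => xs (n + N)
    let ys' : ℕ → CharVar Γ d := fun n => ys (n + N)
    have hxs' : Tendsto xs' atTop (𝓝 x) := hxs.comp (tendsto_add_atTop_nat N)
    have hys' : Tendsto ys' atTop (𝓝 y) := hys.comp (tendsto_add_atTop_nat N)
    let K' : Set (CharVar Γ d) := insert x (Set.range xs') ∪ insert y (Set.range ys')
    have hK'c : IsCompact K' := hxs'.isCompact_insert_range.union hys'.isCompact_insert_range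
    have hK'A : K' ⊆ A := by
      rintro z (hz | hz)
      · rcases hz with rfl | ⟨n, rfl⟩
        · exact hxA
        · exact (hN _ (by omega)).1
      · rcases hz with rfl | ⟨n, rfl⟩
        · exact hyA
        · exact (hN _ (by omega)).2
    have hfin := hA3 K' hK'A hK'c
    have hinj' : Function.Injective fun n => ((φ (n + N) : MulAut Γ) : Outer Γ) := by
      intro m n hmn
      have := hinj hmn
      omega
    refine Set.infinite_of_injective_forall_mem hinj' (fun n => ?_) hfin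
    refine ⟨φ (n + N), rfl, ys' n, ⟨xs' n, Or.inl (Or.inr ⟨n, rfl⟩), rfl⟩, Or.inr (Or.inr ⟨n, rfl⟩)⟩

end K4H41.SA
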