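import Mathlib
import Pool.Agent.K4H41.SA.Simple

/-! A representation whose character is `p χ₀ + q` is not simple `k`-Anosov when
`k` is neither `p` nor `p + q`. -/

namespace K4H41.SA

open Matrix Filter Topology Polynomial

section alg

variable {d : ℕ} {A P : Matrix (Fin d) (Fin d) ℂ}

theorem exists_eig {Q e : Matrix (Fin d) (Fin d) ℂ} {μ : ℂ} {m : ℕ} (hQA : Q * A = A * Q)
    (hQ : Q * Q = Q) (he : (A - μ • (1 : Matrix (Fin d) (Fin d) ℂ)) ^ m * e = 0) (hne : Q * e ≠ 0) :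
    ∃ v : Fin d → ℂ, v ≠ 0 ∧ Q *ᵥ v = v ∧ A *ᵥ v = μ • v := by
  set N := A - μ • (1 : Matrix (Fin d) (Fin d) ℂ) with hN
  have hQN : Q * N = N * Q := by
    rw [hN, mul_sub, sub_mul, hQA]; simp
  have hQNj : ∀ j : ℕ, Q * N ^ j = N ^ j * Q := by
    intro j
    induction j with
    | zero => simp
    | succ j ih => rw [pow_succ, ← Matrix.mul_assoc, ih, Matrix.mul_assoc, hQN, ← Matrix.mul_assoc]
  obtain ⟨u₀, hu₀⟩ : ∃ u₀, (Q * e) *ᵥ u₀ ≠ 0 := by
    by_contra hcon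
    push Not at hcon
    apply hne
    apply Matrix.mulVec_injective
    funext v
    rw [hcon v, Matrix.zero_mulVec]
  set u := (Q * e) *ᵥ u₀ with hu
  have hex : ∃ j : ℕ, (N ^ j) *ᵥ u = 0 := by
    refine ⟨m, ?_⟩
    rw [hu, Matrix.mulVec_mulVec, ← Matrix.mul_assoc, ← hQNj, Matrix.mul_assoc, he, mul_zero,
      Matrix.zero_mulVec]
  classical
  have hspec := Nat.find_spec hex
  have hpos : 0 < Nat.find hex := by
    rw [Nat.pos_iff_ne_zero]
    intro h0
    rw [h0] at hspec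
    simp only [pow_zero, Matrix.one_mulVec] at hspec
    exact hu₀ hspec
  obtain ⟨j, hj⟩ := Nat.exists_eq_succ_of_ne_zero hpos.ne'
  have hmin : (N ^ j) *ᵥ u ≠ 0 := Nat.find_min hex (by omega)
  rw [hj] at hspec
  refine ⟨(N ^ j) *ᵥ u, hmin, ?_, ?_⟩
  · have hfin : Q * (N ^ j * (Q * e)) = N ^ j * (Q * e) := by
      calc Q * (N ^ j * (Q * e)) = Q * (Q * (N ^ j * e)) := by
            rw [← Matrix.mul_assoc (N ^ j), ← hQNj, Matrix.mul_assoc Q (N ^ j)]
        _ = Q * (N ^ j * e) := by rw [← Matrix.mul_assoc, hQ]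
        _ = N ^ j * (Q * e) := by rw [← Matrix.mul_assoc, hQNj, Matrix.mul_assoc]
    rw [hu, Matrix.mulVec_mulVec (Q * e |>.mulVec u₀) Q (N ^ j)]
    rw [Matrix.mulVec_mulVec, Matrix.mulVec_mulVec, Matrix.mul_assoc, hfin]
  · have h1 : N *ᵥ ((N ^ j) *ᵥ u) = 0 := by
      rw [Matrix.mulVec_mulVec, ← pow_succ']; exact hspec
    rw [hN, Matrix.sub_mulVec, Matrix.smul_mulVec, Matrix.one_mulVec, sub_eq_zero] at h1
    exact h1

/-- spectral polynomials -/
theorem spectral {a b c : ℂ} (hab : a ≠ b) (hac : a ≠ c) (m : ℕ) (hm : 0 < m) :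
    ∃ g : ℂ[X], g.eval a = 1 ∧ g.eval b = 0 ∧ g.eval c = 0 ∧
      (X - C b) ^ m * (X - C c) ^ m ∣ g ∧ (X - C a) ^ m ∣ g - 1 := by
  have h1 : IsCoprime ((X - C a : ℂ[X]) ^ m) ((X - C b) ^ m * (X - C c) ^ m) := by
    apply IsCoprime.mul_right
    · exact (isCoprime_X_sub_C_of_isUnit_sub (sub_ne_zero.mpr hab).isUnit).pow
    · exact (isCoprime_X_sub_C_of_isUnit_sub (sub_ne_zero.mpr hac).isUnit).pow
  obtain ⟨s, t, hst⟩ := h1
  refine ⟨t * ((X - C b) ^ m * (X - C c) ^ m), ?_, ?_, ?_, ⟨t, by ring⟩, ?_⟩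
  · have := congrArg (Polynomial.eval a) hst
    simp only [eval_add, eval_mul, eval_pow, eval_sub, eval_X, eval_C, sub_self,
      zero_pow hm.ne', mul_zero, zero_add, eval_one] at this
    simp only [eval_mul, eval_pow, eval_sub, eval_X, eval_C]
    exact this
  · simp [hm.ne']
  · simp [hm.ne']
  · refine ⟨-s, ?_⟩
    rw [← hst]; ring

theorem count {a : ℂ} (ha : 1 < ‖a‖) {p q k : ℕ}
    (htr : ∀ n : ℕ, (A ^ n).trace = p * (a ^ n + a⁻¹ ^ n) + q)
    (hPA : P * A = A * P) (hP : P * P = P) (hk : P.trace = k)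
    (hdom : ∀ (v w : Fin d → ℂ) (μ ν : ℂ), v ≠ 0 → w ≠ 0 → P *ᵥ v = v → P *ᵥ w = 0 →
      A *ᵥ v = μ • v → A *ᵥ w = ν • w → ‖ν‖ < ‖μ‖)
    (hk0 : k ≠ 0) (hkd : k ≠ 2 * p + q) (hkp : k ≠ p) (hkq : k ≠ p + q) : False := by
  have ha0 : a ≠ 0 := by
    rintro rfl; simp at ha; linarith
  have hai : ‖a⁻¹‖ < 1 := by
    rw [norm_inv]; exact inv_lt_one_of_one_lt₀ ha
  have hne1 : a ≠ 1 := by rintro rfl; simp at ha
  have hne2 : a ≠ a⁻¹ := by
    intro h; rw [← h] at hai; linarith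
  have hne3 : a⁻¹ ≠ 1 := by
    intro h; rw [h] at hai; simp at hai
  have htrf : ∀ f : ℂ[X], (aeval A f).trace = p * (f.eval a + f.eval a⁻¹) + q * f.eval 1 := by
    intro f
    induction f using Polynomial.induction_on' with
    | add f g hf hg => rw [map_add, Matrix.trace_add, hf, hg]; simp only [eval_add]; ring
    | monomial n c =>
      rw [aeval_monomial, Algebra.algebraMap_eq_smul_one, Matrix.smul_mul, one_mul,
        Matrix.trace_smul, htr, smul_eq_mul]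
      simp only [eval_monomial, one_pow]
      ring
  -- nilpotency
  let F : ℂ[X] := (X - C a) * (X - C 1) * (X - C a⁻¹)
  have hnil : IsNilpotent (aeval A F) := by
    apply nilp_of_trace
    intro j hj
    rw [← map_pow, htrf]
    have hj' : j ≠ 0 := by omega
    simp [F, hj']
  obtain ⟨m0, hm0⟩ := hnil
  let m := m0 + 1
  have hm : aeval A ((X - C a) ^ m * (X - C 1) ^ m * (X - C a⁻¹) ^ m) = 0 := by
    have : ((X - C a) ^ m * (X - C 1) ^ m * (X - C a⁻¹) ^ m : ℂ[X]) = F ^ m0 * F := by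
      rw [← pow_succ, ← mul_pow, ← mul_pow]
    rw [this, map_mul, map_pow, hm0, zero_mul]
  have hzero : ∀ f : ℂ[X], (X - C a) ^ m * (X - C 1) ^ m * (X - C a⁻¹) ^ m ∣ f → aeval A f = 0 := by
    rintro f ⟨g, rfl⟩
    rw [map_mul, hm, zero_mul]
  obtain ⟨g1, h11, h12, h13, h14, h15⟩ := spectral hne1 hne2 m (by omega)
  obtain ⟨g2, h21, h22, h23, h24, h25⟩ := spectral (Ne.symm hne1) (Ne.symm hne3) m (by omega)
  obtain ⟨g3, h31, h32, h33, h34, h35⟩ := spectral (Ne.symm hne2) hne3 m (by omega)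
  -- g1 : a ; others 1, a⁻¹.  g2 : 1 ; others a, a⁻¹.  g3 : a⁻¹ ; others a, 1
  set e1 := aeval A g1 with he1
  set e2 := aeval A g2 with he2
  set e3 := aeval A g3 with he3
  have haev : ∀ μ : ℂ, aeval A (X - C μ) = A - μ • (1 : Matrix (Fin d) (Fin d) ℂ) := by
    intro μ; rw [map_sub, aeval_X, aeval_C, Algebra.algebraMap_eq_smul_one]
  have hk1 : (A - a • (1 : Matrix (Fin d) (Fin d) ℂ)) ^ m * e1 = 0 := by
    rw [← haev, ← map_pow, he1, ← map_mul]
    apply hzero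
    rw [mul_assoc]
    exact mul_dvd_mul_left _ h14
  have hk2 : (A - (1 : ℂ) • (1 : Matrix (Fin d) (Fin d) ℂ)) ^ m * e2 = 0 := by
    rw [← haev, ← map_pow, he2, ← map_mul]
    apply hzero
    have : ((X - C a) ^ m * (X - C 1) ^ m * (X - C a⁻¹) ^ m : ℂ[X]) =
      (X - C 1) ^ m * ((X - C a) ^ m * (X - C a⁻¹) ^ m) := by ring
    rw [this]
    exact mul_dvd_mul_left _ h24
  have hk3 : (A - a⁻¹ • (1 : Matrix (Fin d) (Fin d) ℂ)) ^ m * e3 = 0 := by
    rw [← haev, ← map_pow, he3, ← map_mul]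
    apply hzero
    have : ((X - C a) ^ m * (X - C 1) ^ m * (X - C a⁻¹) ^ m : ℂ[X]) =
      (X - C a⁻¹) ^ m * ((X - C a) ^ m * (X - C 1) ^ m) := by ring
    rw [this]
    exact mul_dvd_mul_left _ h34
  have hsum : e1 + e2 + e3 = 1 := by
    rw [← sub_eq_zero, he1, he2, he3, ← map_one (aeval A : ℂ[X] →ₐ[ℂ] Matrix (Fin d) (Fin d) ℂ), ← map_add, ← map_add, ← map_sub]
    apply hzero
    have c1 : IsCoprime ((X - C a : ℂ[X]) ^ m) ((X - C 1) ^ m) :=
      (isCoprime_X_sub_C_of_isUnit_sub (sub_ne_zero.mpr hne1).isUnit).pow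
    have c2 : IsCoprime ((X - C a : ℂ[X]) ^ m) ((X - C a⁻¹) ^ m) :=
      (isCoprime_X_sub_C_of_isUnit_sub (sub_ne_zero.mpr hne2).isUnit).pow
    have c3 : IsCoprime ((X - C 1 : ℂ[X]) ^ m) ((X - C a⁻¹) ^ m) :=
      (isCoprime_X_sub_C_of_isUnit_sub (sub_ne_zero.mpr (Ne.symm hne3)).isUnit).pow
    have d1 : (X - C a) ^ m ∣ g1 + g2 + g3 - 1 := by
      have : g1 + g2 + g3 - 1 = (g1 - 1) + g2 + g3 := by ring
      rw [this]
      exact dvd_add (dvd_add h15 ((dvd_mul_right _ _).trans h24)) ((dvd_mul_right _ _).trans h34)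
    have d2 : (X - C 1) ^ m ∣ g1 + g2 + g3 - 1 := by
      have : g1 + g2 + g3 - 1 = g1 + (g2 - 1) + g3 := by ring
      rw [this]
      exact dvd_add (dvd_add ((dvd_mul_right _ _).trans h14) h25) ((dvd_mul_left _ _).trans h34)
    have d3 : (X - C a⁻¹) ^ m ∣ g1 + g2 + g3 - 1 := by
      have : g1 + g2 + g3 - 1 = g1 + g2 + (g3 - 1) := by ring
      rw [this]
      exact dvd_add (dvd_add ((dvd_mul_left _ _).trans h14) ((dvd_mul_left _ _).trans h24)) h35
    exact (IsCoprime.mul_left c2 c3).mul_dvd (c1.mul_dvd d1 d2) d3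
  have hQA : (1 - P) * A = A * (1 - P) := by rw [sub_mul, mul_sub, hPA]; simp
  have hQ : (1 - P) * (1 - P) = 1 - P := by
    rw [sub_mul, one_mul, mul_sub, mul_one, hP]; simp
  -- comparisons
  have hcmp : ∀ (μ ν : ℂ) (e f : Matrix (Fin d) (Fin d) ℂ),
      (A - μ • (1 : Matrix (Fin d) (Fin d) ℂ)) ^ m * e = 0 →
      (A - ν • (1 : Matrix (Fin d) (Fin d) ℂ)) ^ m * f = 0 → P * e ≠ 0 → (1 - P) * f ≠ 0 →
      ‖ν‖ < ‖μ‖ := by
    intro μ ν e f he hf hPe hPf
    obtain ⟨v, hv0, hv1, hv2⟩ := exists_eig hPA hP he hPe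
    obtain ⟨w, hw0, hw1, hw2⟩ := exists_eig hQA hQ hf hPf
    refine hdom v w μ ν hv0 hw0 hv1 ?_ hv2 hw2
    rw [Matrix.sub_mulVec, Matrix.one_mulVec] at hw1
    have := sub_eq_self.mp hw1
    exact this
  have t1 : e1.trace = p := by rw [he1, htrf, h11, h12, h13]; simp
  have t2 : e2.trace = q := by rw [he2, htrf, h21, h22, h23]; simp
  have hPdec : P = P * e1 + P * e2 + P * e3 := by rw [← mul_add, ← mul_add, hsum, mul_one]
  have hfull : ∀ e : Matrix (Fin d) (Fin d) ℂ, (1 - P) * e = 0 → P * e = e := by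
    intro e he
    rw [sub_mul, one_mul, sub_eq_zero] at he
    exact he.symm
  by_cases u3 : P * e3 = 0
  · by_cases u2 : P * e2 = 0
    · by_cases u1 : P * e1 = 0
      · rw [u1, u2, u3] at hPdec
        rw [hPdec] at hk
        simp at hk
        exact hk0 (by exact_mod_cast hk.symm)
      · have w1 : (1 - P) * e1 = 0 := by
          by_contra hcon
          exact lt_irrefl _ (hcmp a a e1 e1 hk1 hk1 u1 hcon)
        rw [hfull _ w1, u2, u3] at hPdec
        rw [hPdec, add_zero, add_zero, t1] at hk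
        exact hkp (by exact_mod_cast hk.symm)
    · have w2 : (1 - P) * e2 = 0 := by
        by_contra hcon
        exact lt_irrefl _ (hcmp 1 1 e2 e2 hk2 hk2 u2 hcon)
      have w1 : (1 - P) * e1 = 0 := by
        by_contra hcon
        have := hcmp 1 a e2 e1 hk2 hk1 u2 hcon
        rw [norm_one] at this
        linarith
      rw [hfull _ w1, hfull _ w2, u3] at hPdec
      rw [hPdec, add_zero, Matrix.trace_add, t1, t2] at hk
      exact hkq (by exact_mod_cast hk.symm)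
  · have w3 : (1 - P) * e3 = 0 := by
      by_contra hcon
      exact lt_irrefl _ (hcmp a⁻¹ a⁻¹ e3 e3 hk3 hk3 u3 hcon)
    have w2 : (1 - P) * e2 = 0 := by
      by_contra hcon
      have := hcmp a⁻¹ 1 e3 e2 hk3 hk2 u3 hcon
      rw [norm_one] at this
      linarith
    have w1 : (1 - P) * e1 = 0 := by
      by_contra hcon
      have := hcmp a⁻¹ a e3 e1 hk3 hk1 u3 hcon
      linarith
    rw [hfull _ w1, hfull _ w2, hfull _ w3, hsum] at hPdec
    rw [hPdec] at hk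
    have h0 := htr 0
    rw [pow_zero] at h0
    rw [h0] at hk
    simp only [pow_zero] at hk
    apply hkd
    have : ((2 * p + q : ℕ) : ℂ) = k := by push_cast; rw [← hk]; ring
    exact_mod_cast this.symm

end alg

variable {Γ : Subgroup G2}

theorem pow_flow {α : G2} {l ε : ℝ} (hα : mt α = ε • mt (aflow l)) (n : ℕ) :
    mt (α ^ n) = ε ^ n • mt (aflow (n * l)) := by
  induction n with
  | zero => simp [aflow_zero]
  | succ n ih =>
    rw [pow_succ, mt_mul, ih, hα, Matrix.smul_mul, Matrix.mul_smul, smul_smul, ← mt_mul,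
      ← aflow_add, pow_succ]
    congr 3
    push_cast; ring

theorem inv_flow {α : G2} {l ε : ℝ} (hε : ε * ε = 1) (hα : mt α = ε • mt (aflow l)) :
    mt α⁻¹ = ε • mt (aflow (-l)) := by
  have h3 : (ε • mt (aflow (-l))) * mt α = 1 := by
    rw [hα, Matrix.smul_mul, Matrix.mul_smul, smul_smul, hε, one_smul, aflow_neg]
    exact mt_inv_mul _
  have h4 : mt α * mt α⁻¹ = 1 := mt_mul_inv α
  calc mt α⁻¹ = (ε • mt (aflow (-l))) * mt α * mt α⁻¹ := by rw [h3, one_mul]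
    _ = ε • mt (aflow (-l)) := by rw [Matrix.mul_assoc, h4, mul_one]

theorem simple_smul {x : G2} (hx : IsSimpleClosed Γ x) (γ : Γ) : IsSimpleClosed Γ ((γ : G2) * x) := by
  obtain ⟨T, hT, ⟨γ', hγ', hcl⟩, hinj⟩ := hx
  refine ⟨T, hT, ⟨(γ : G2) * γ' * (γ : G2)⁻¹, ?_, ?_⟩, ?_⟩
  · exact Γ.mul_mem (Γ.mul_mem γ.2 hγ') (Γ.inv_mem γ.2)
  · have e1 : (γ : G2) * x * aflow T = γ * (x * aflow T) := by group
    have e2 : (γ : G2) * γ' * (γ : G2)⁻¹ * (γ * x) = γ * (γ' * x) := by group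
    rw [e1, e2, mt_mul (γ : G2), mt_mul (γ : G2)]
    rcases hcl with h | h
    · left; rw [h]
    · right; rw [h, Matrix.mul_neg]
  · intro s t hs hst htT δ hδ ho
    refine hinj s t hs hst htT ((γ : G2)⁻¹ * δ * γ) (Γ.mul_mem (Γ.mul_mem (Γ.inv_mem γ.2) hδ) γ.2) ?_
    have : ((γ : G2) * x * aflow s)⁻¹ * (δ * (γ * x * aflow t)) =
        (x * aflow s)⁻¹ * ((γ : G2)⁻¹ * δ * γ * (x * aflow t)) := by group
    rwa [this] at ho

theorem not_anosov (h : SG Γ) {d p q k : ℕ} (hk0 : k ≠ 0) (hkd : k ≠ 2 * p + q) (hkp : k ≠ p)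
    (hkq : k ≠ p + q) (ρ : Γ →* Matrix.SpecialLinearGroup (Fin d) ℂ)
    (hρ : ∀ γ : Γ, (ρ γ).1.trace = p * (cm (mt (γ : G2))).trace + q) :
    ¬ IsSimpleAnosov Γ k ρ := by
  rintro ⟨P, H, -, -, hP, hH, hequiv, hneg, hflow, C, c, hC, hc, hdom⟩
  obtain ⟨x, T, γ, hT, hcl, hsimple⟩ := exists_simple h
  obtain ⟨ε, hε, hα⟩ : ∃ ε : ℝ, (ε = 1 ∨ ε = -1) ∧ mt (x⁻¹ * (γ : G2) * x) = ε • mt (aflow T) := by
    have h0 : mt (x⁻¹ * (γ : G2) * x) = mt x⁻¹ * mt ((γ : G2) * x) := by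
      rw [← mt_mul]; congr 1; group
    have h1 : mt (aflow T) = mt x⁻¹ * mt (x * aflow T) := by
      rw [← mt_mul]; congr 1; group
    rcases hcl with h2 | h2
    · exact ⟨1, Or.inl rfl, by rw [h0, ← h2, ← h1, one_smul]⟩
    · refine ⟨-1, Or.inr rfl, ?_⟩
      rw [h1, h2, h0]; simp
  have hε2 : ε * ε = 1 := by rcases hε with h1 | h1 <;> rw [h1] <;> norm_num
  have hεn : ∀ n : ℕ, ε ^ n = 1 ∨ ε ^ n = -1 := by
    intro n
    rcases hε with h1 | h1
    · left; rw [h1]; simp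
    · rw [h1]; exact neg_one_pow_eq_or ℝ n
  have hx : x ∈ BirmanSeries Γ := subset_closure hsimple
  have hγx : ∀ n : ℕ, ((γ ^ n : Γ) : G2) * x ∈ BirmanSeries Γ := fun n =>
    subset_closure (simple_smul hsimple _)
  -- the orbit
  have horb : ∀ n : ℕ, mt (((γ ^ n : Γ) : G2) * x) = ε ^ n • mt (x * aflow (n * T)) := by
    intro n
    have h1 : ((γ ^ n : Γ) : G2) * x = x * (x⁻¹ * (γ : G2) * x) ^ n := by
      have : ∀ n : ℕ, (x⁻¹ * (γ : G2) * x) ^ n = x⁻¹ * (γ : G2) ^ n * x := by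
        intro n
        induction n with
        | zero => simp
        | succ n ih => rw [pow_succ, ih, pow_succ]; group
      rw [this, Subgroup.coe_pow]; group
    rw [h1, mt_mul, pow_flow hα, Matrix.mul_smul, ← mt_mul]
  have hagree : ∀ n : ℕ, P (x * aflow (n * T)) = P (((γ ^ n : Γ) : G2) * x) ∧
      H (x * aflow (n * T)) = H (((γ ^ n : Γ) : G2) * x) := by
    intro n
    rcases hεn n with h1 | h1
    · have h2 := horb n
      rw [h1, one_smul] at h2
      have h3 : ((γ ^ n : Γ) : G2) * x = x * aflow (n * T) := Subtype.ext h2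
      rw [h3]; exact ⟨rfl, rfl⟩
    · have h2 := horb n
      rw [h1] at h2
      apply hneg _ (hγx n)
      rw [h2]; simp
  let A : Matrix (Fin d) (Fin d) ℂ := (ρ γ⁻¹).1
  have hAn : ∀ n : ℕ, (ρ (γ ^ n)⁻¹).1 = A ^ n := by
    intro n
    rw [← inv_pow, map_pow]
    exact Matrix.SpecialLinearGroup.coe_pow _ _
  have hAinv : ∀ n : ℕ, (ρ (γ ^ n)).1 * A ^ n = 1 := by
    intro n
    rw [← hAn]
    have : ρ (γ ^ n) * ρ (γ ^ n)⁻¹ = 1 := by rw [← map_mul, mul_inv_cancel, map_one]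
    exact congrArg (fun g : Matrix.SpecialLinearGroup (Fin d) ℂ => g.1) this
  have hHn : ∀ n : ℕ, H (x * aflow (n * T)) = (A ^ n)ᴴ * H x * A ^ n := by
    intro n
    rw [(hagree n).2]
    have h1 := (hequiv x hx (γ ^ n)).2
    rw [← h1]
    have h2 := hAinv n
    have h3 : (A ^ n)ᴴ * (ρ (γ ^ n)).1ᴴ = 1 := by
      rw [← Matrix.conjTranspose_mul, h2, Matrix.conjTranspose_one]
    calc H (((γ ^ n : Γ) : G2) * x)
        = ((A ^ n)ᴴ * (ρ (γ ^ n)).1ᴴ) * H (((γ ^ n : Γ) : G2) * x) * ((ρ (γ ^ n)).1 * A ^ n) := by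
          rw [h2, h3]; simp
      _ = _ := by simp only [Matrix.mul_assoc]
  have hnn : ∀ (n : ℕ) (v : Fin d → ℂ), hnorm (H (x * aflow (n * T))) v =
      hnorm (H x) ((A ^ n) *ᵥ v) := by
    intro n v
    rw [hHn, hnorm, hnorm]
    congr 2
    rw [Matrix.star_mulVec, ← Matrix.dotProduct_mulVec, Matrix.mulVec_mulVec,
      Matrix.mulVec_mulVec]
  have hPA : P x * A = A * P x := by
    have h1 := (hequiv x hx γ).1
    have h2 := hflow x hx T
    have h3 := (hagree 1).1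
    rw [pow_one, Nat.cast_one, one_mul, h2] at h3
    rw [h1] at h3
    have h4 := hAinv 1
    rw [pow_one, pow_one] at h4
    have h5 : A * (ρ γ).1 = 1 := mul_eq_one_comm.mp h4
    have h6 : A * P x = P x * A := by
      nth_rw 1 [h3]
      calc A * ((ρ γ).1 * P x * (ρ γ⁻¹).1) = (A * (ρ γ).1) * P x * (ρ γ⁻¹).1 := by
            simp only [Matrix.mul_assoc]
        _ = _ := by rw [h5, one_mul]
    exact h6.symm
  have hposn : ∀ v : Fin d → ℂ, v ≠ 0 → 0 < hnorm (H x) v := by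
    intro v hv
    exact Real.sqrt_pos.mpr ((hH x hx).2 v hv)
  have hsm : ∀ (z : ℂ) (v : Fin d → ℂ), hnorm (H x) (z • v) = ‖z‖ * hnorm (H x) v := by
    intro z v
    rw [hnorm, hnorm]
    have : (star (z • v) ⬝ᵥ (H x *ᵥ (z • v))).re = ‖z‖ ^ 2 * (star v ⬝ᵥ (H x *ᵥ v)).re := by
      rw [star_smul, Matrix.mulVec_smul, smul_dotProduct, dotProduct_smul, smul_smul, smul_eq_mul]
      have h1 : star z * z = ((‖z‖ ^ 2 : ℝ) : ℂ) := by
        have := Complex.conj_mul' z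
        push_cast
        exact this
      rw [h1, Complex.re_ofReal_mul]
    rw [this, Real.sqrt_mul (by positivity), Real.sqrt_sq (norm_nonneg z)]
  have hApow : ∀ (n : ℕ) (v : Fin d → ℂ) (μ : ℂ), A *ᵥ v = μ • v → (A ^ n) *ᵥ v = μ ^ n • v := by
    intro n v μ hv
    induction n with
    | zero => simp
    | succ n ih =>
      rw [pow_succ, ← Matrix.mulVec_mulVec, hv, Matrix.mulVec_smul, ih, smul_smul, pow_succ,
        mul_comm]
  -- the trace
  let a : ℂ := ((ε * Real.exp (T / 2) : ℝ) : ℂ)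
  have ha : 1 < ‖a‖ := by
    simp only [a]
    rw [Complex.norm_real, norm_mul, Real.norm_eq_abs, Real.norm_eq_abs, Real.abs_exp]
    have : |ε| = 1 := by rcases hε with h1 | h1 <;> rw [h1] <;> simp
    rw [this, one_mul]
    exact Real.one_lt_exp_iff.mpr (by linarith)
  have htr : ∀ n : ℕ, (A ^ n).trace = p * (a ^ n + a⁻¹ ^ n) + q := by
    intro n
    rw [← hAn, hρ, cm_trace]
    congr 2
    have h1 : mt (((γ ^ n)⁻¹ : Γ) : G2) = mt x * mt ((x⁻¹ * (γ : G2) * x)⁻¹ ^ n) * mt x⁻¹ := by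
      rw [← mt_mul, ← mt_mul]
      congr 1
      have h2 : (x⁻¹ * (γ : G2) * x)⁻¹ = x⁻¹ * (γ : G2)⁻¹ * x := by group
      have h3 : ∀ n : ℕ, (x⁻¹ * (γ : G2)⁻¹ * x) ^ n = x⁻¹ * ((γ : G2)⁻¹) ^ n * x := by
        intro n
        induction n with
        | zero => simp
        | succ n ih => rw [pow_succ, ih, pow_succ]; group
      rw [h2, h3]
      simp only [Subgroup.coe_inv, Subgroup.coe_pow, inv_pow]
      group
    rw [h1, Matrix.trace_mul_comm, ← Matrix.mul_assoc, mt_inv_mul, one_mul,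
      pow_flow (inv_flow hε2 hα), Matrix.trace_smul, mt_aflow, Matrix.trace_fin_two]
    simp only [Matrix.of_apply, Matrix.cons_val', Matrix.cons_val_zero, Matrix.cons_val_one,
      Matrix.cons_val_fin_one, smul_eq_mul]
    have e1 : Real.exp (n * -T / 2) = (Real.exp (T / 2))⁻¹ ^ n := by
      rw [← Real.exp_neg, ← Real.exp_nat_mul]; ring_nf
    have e2 : Real.exp (-(n * -T) / 2) = Real.exp (T / 2) ^ n := by
      rw [← Real.exp_nat_mul]; ring_nf
    have e3 : ε⁻¹ = ε := by rcases hε with h1 | h1 <;> rw [h1] <;> norm_num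
    rw [e1, e2]
    simp only [a]
    rw [← Complex.ofReal_inv, ← Complex.ofReal_pow, ← Complex.ofReal_pow, ← Complex.ofReal_add]
    congr 1
    rw [mul_inv, e3, mul_pow, mul_pow]
    ring
  refine count ha htr hPA (hP x hx).1 ?_ ?_ hk0 hkd hkp hkq
  · -- trace of the projection
    have h1 : IsIdempotentElem (Matrix.toLin' (P x)) := by
      change Matrix.toLin' (P x) * Matrix.toLin' (P x) = Matrix.toLin' (P x)
      rw [Module.End.mul_eq_comp, ← Matrix.toLin'_mul, (hP x hx).1]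
    have h2 := (LinearMap.IsIdempotentElem.isProj_range _ h1).trace
    rw [Matrix.trace_toLin'_eq] at h2
    rw [h2]
    congr 1
    have h3 := (hP x hx).2
    rw [Matrix.rank_eq_finrank_range_toLin (P x) (Pi.basisFun ℂ (Fin d)) (Pi.basisFun ℂ (Fin d)),
      Matrix.toLin_eq_toLin'] at h3
    exact h3
  · intro v w μ ν hv0 hw0 hPv hPw hAv hAw
    by_contra hcon
    push Not at hcon
    have hμ0 : μ ≠ 0 := by
      intro h0
      rw [h0, zero_smul] at hAv
      have h1 := hAinv 1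
      rw [pow_one, pow_one] at h1
      have h2 : ((ρ γ).1 * A) *ᵥ v = v := by rw [h1, Matrix.one_mulVec]
      rw [← Matrix.mulVec_mulVec, hAv, Matrix.mulVec_zero] at h2
      exact hv0 h2.symm
    have hμpos : 0 < ‖μ‖ := norm_pos_iff.mpr hμ0
    have hνpos : 0 < ‖ν‖ := lt_of_lt_of_le hμpos hcon
    have key : ∀ n : ℕ, 1 ≤ C * Real.exp (-c * (n * T)) := by
      intro n
      have h1 := hdom x hx v w hv0 hw0 hPv hPw (n * T) (by positivity)
      rw [hnn, hnn, hApow n v μ hAv, hApow n w ν hAw, hsm, hsm, norm_pow, norm_pow,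
        mul_div_assoc, mul_div_assoc, div_self (hposn v hv0).ne', div_self (hposn w hw0).ne',
        mul_one, mul_one] at h1
      have h2 : ‖μ‖ ^ n ≤ ‖ν‖ ^ n := pow_le_pow_left₀ hμpos.le hcon n
      have h3 : 0 < ‖ν‖ ^ n := by positivity
      have h4 : ‖ν‖ ^ n ≤ C * Real.exp (-c * (n * T)) * ‖ν‖ ^ n :=
        h1.trans (mul_le_mul_of_nonneg_left h2 (by positivity))
      have h5 : 1 * ‖ν‖ ^ n ≤ C * Real.exp (-c * (n * T)) * ‖ν‖ ^ n := by rwa [one_mul]
      exact le_of_mul_le_mul_right h5 h3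
    have hlim : Tendsto (fun n : ℕ => C * Real.exp (-c * (n * T))) atTop (𝓝 (C * 0)) := by
      refine Tendsto.const_mul _ ?_
      refine Real.tendsto_exp_atBot.comp ?_
      have : (fun n : ℕ => -c * ((n : ℝ) * T)) = fun n : ℕ => -((c * T) * (n : ℝ)) := by
        funext n; ring
      rw [this]
      exact tendsto_neg_atTop_atBot.comp
        (Tendsto.const_mul_atTop (by positivity) tendsto_natCast_atTop_atTop)
    have := ge_of_tendsto' hlim key
    rw [mul_zero] at this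
    linarith

end K4H41.SA
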