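import Mathlib
import Pool.Agent.K4H41.SA.Dom
import Pool.Agent.K4H41.SA.NotAnosov

/-! The simple Anosov domains are not maximal for `d ≥ 4`. -/

namespace K4H41.SA

open Matrix Filter Topology

variable {Γ : Subgroup G2} {d : ℕ}

/-- conjugation of a representation -/
def cjh {ι : Type*} [Fintype ι] [DecidableEq ι] (u : (Matrix ι ι ℂ)ˣ) (ρ : Γ →* Matrix ι ι ℂ) :
    Γ →* Matrix ι ι ℂ where
  toFun g := (u : Matrix ι ι ℂ) * ρ g * ((u⁻¹ : (Matrix ι ι ℂ)ˣ) : Matrix ι ι ℂ)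
  map_one' := by rw [map_one, mul_one, Units.mul_inv]
  map_mul' g h := by
    rw [map_mul]
    calc (u : Matrix ι ι ℂ) * (ρ g * ρ h) * ((u⁻¹ : (Matrix ι ι ℂ)ˣ) : Matrix ι ι ℂ)
        = (u : Matrix ι ι ℂ) * ρ g * (((u⁻¹ : (Matrix ι ι ℂ)ˣ) : Matrix ι ι ℂ) * u) * ρ h *
          ((u⁻¹ : (Matrix ι ι ℂ)ˣ) : Matrix ι ι ℂ) := by
          rw [Units.inv_mul, mul_one]; simp only [Matrix.mul_assoc]
      _ = _ := by simp only [Matrix.mul_assoc]

/-- the complexified inclusion -/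
noncomputable def cmh (Γ : Subgroup G2) : Γ →* Matrix (Fin 2) (Fin 2) ℂ where
  toFun g := cm (mt (g : G2))
  map_one' := cm_one
  map_mul' g h := cm_mul _ _

theorem hs_reindex {ι κ : Type*} [Fintype ι] [Fintype κ] (e : ι ≃ κ) (X : Matrix ι ι ℂ) :
    hs (X.reindex e e) = hs X := by
  simp only [hs, Matrix.reindex_apply, Matrix.submatrix_apply]
  rw [Equiv.sum_comp e.symm (fun i => ∑ j, ‖X i (e.symm j)‖ ^ 2)]
  exact Finset.sum_congr rfl fun i _ => Equiv.sum_comp e.symm (fun j => ‖X i j‖ ^ 2)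

theorem mem_QI (hΓ : SG Γ) {p q : ℕ} (hp : 0 < p) (e : II p q ≃ Fin d) (χ : CharVar Γ d)
    (hχ : ∀ γ : Γ, χ.1 γ = p * (cm (mt (γ : G2))).trace + q) : χ ∈ QI Γ d := by
  have hfc : FirstCountableTopology (CharVar Γ d) := firstCountable (countable hΓ)
  refine ⟨2, ?_⟩
  by_contra hcon
  rw [Filter.not_eventually] at hcon
  obtain ⟨xs, hlimx, hnot⟩ := exists_seq_forall_of_frequently hcon
  choose ρ hρ using fun n => (xs n).2
  let 𝒰 : Ultrafilter ℕ := hyperfilter ℕ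
  have h𝒰 : (𝒰 : Filter ℕ) ≤ atTop := by
    rw [← Nat.cofinite_eq_atTop]
    exact hyperfilter_le_cofinite
  have htrlim : ∀ γ : Γ, Tendsto (fun n => (mr (ρ n) γ).trace) 𝒰 (𝓝 (χ.1 γ)) := by
    intro γ
    have h1 : Tendsto (fun n => (xs n).1 γ) 𝒰 (𝓝 (χ.1 γ)) :=
      ((continuous_eval γ).tendsto χ).comp (hlimx.mono_left h𝒰)
    refine h1.congr fun n => ?_
    rw [← hρ n]; rfl
  obtain ⟨S, hS⟩ := exists_gens hΓ
  have hS' : Submonoid.closure (Set.range fun s : S => (s : Γ)) = ⊤ := by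
    rw [Subtype.range_coe_subtype]; simpa using hS
  obtain ⟨h, ρ', hlim, hmin⟩ := lim_rep (𝕜 := ℂ) (ι := Fin d) (κ := S) (fun s => (s : Γ))
    hS' 𝒰 h𝒰 (fun n => mr (ρ n)) (fun γ => by
      refine ⟨‖χ.1 γ‖ + 1, ?_⟩
      filter_upwards [(htrlim γ).norm.eventually (gt_mem_nhds (lt_add_one _))] with n hn
      exact hn.le)
  have htr : ∀ γ, (ρ' γ).trace = p * (cmh Γ γ).trace + q := by
    intro γ
    have h1 := (continuous_trace'.tendsto (ρ' γ)).comp (hlim γ)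
    have h2 : Tendsto (fun n => (mr (ρ n) γ).trace) 𝒰 (𝓝 (ρ' γ).trace) := by
      refine h1.congr fun n => ?_
      simp only [Function.comp_apply]
      rw [Matrix.trace_mul_comm, ← Matrix.mul_assoc, Units.inv_mul, one_mul]
    rw [tendsto_nhds_unique h2 (htrlim γ), hχ]
    rfl
  have hne : ∃ γ, cmh Γ γ ≠ 1 := by
    obtain ⟨γ, hγ⟩ := exists_ne_one hΓ
    refine ⟨γ, fun h1 => hγ ?_⟩
    apply Subtype.ext
    apply Subtype.ext
    have h2 : cm (mt (γ : G2)) = cm 1 := by rw [cm_one]; exact h1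
    ext i j
    have h3 := congrFun (congrFun h2 i) j
    simp only [cm, Matrix.map_apply] at h3
    exact_mod_cast h3
  obtain ⟨k, hk⟩ := iso_std (cmh Γ) (span_top hΓ) hne ρ' htr
    (fun X hX hXt => nondeg (fun s : S => (s : Γ)) hS' ρ' hmin hX hXt) e
  obtain ⟨R, ε, hε, hgrow⟩ := growth hΓ (q := q) hp
  let ρt : ℕ → Γ →* Matrix (II p q) (II p q) ℂ := fun n =>
    ((Matrix.reindexAlgEquiv ℂ ℂ e.symm : Matrix (Fin d) (Fin d) ℂ ≃ₐ[ℂ] Matrix (II p q) (II p q) ℂ) :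
      Matrix (Fin d) (Fin d) ℂ →* Matrix (II p q) (II p q) ℂ).comp (cjh (k * h n) (mr (ρ n)))
  have hρt : ∀ n γ, ρt n γ = ((k : Matrix (Fin d) (Fin d) ℂ) * ((h n : Matrix (Fin d) (Fin d) ℂ) *
      mr (ρ n) γ * (((h n)⁻¹ : (Matrix (Fin d) (Fin d) ℂ)ˣ) : Matrix (Fin d) (Fin d) ℂ)) *
      ((k⁻¹ : (Matrix (Fin d) (Fin d) ℂ)ˣ) : Matrix (Fin d) (Fin d) ℂ)).reindex e.symm e.symm := by
    intro n γ
    change (((k * h n : (Matrix (Fin d) (Fin d) ℂ)ˣ) : Matrix (Fin d) (Fin d) ℂ) * mr (ρ n) γ *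
      (((k * h n)⁻¹ : (Matrix (Fin d) (Fin d) ℂ)ˣ) : Matrix (Fin d) (Fin d) ℂ)).reindex
        e.symm e.symm = _
    congr 1
    rw [_root_.mul_inv_rev, Units.val_mul, Units.val_mul]
    simp only [Matrix.mul_assoc]
  have hcont : Continuous fun X : Matrix (Fin d) (Fin d) ℂ =>
      ((k : Matrix (Fin d) (Fin d) ℂ) * X *
        ((k⁻¹ : (Matrix (Fin d) (Fin d) ℂ)ˣ) : Matrix (Fin d) (Fin d) ℂ)).reindex e.symm e.symm := by
    refine Continuous.matrix_submatrix ?_ _ _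
    exact (continuous_const.matrix_mul continuous_id).matrix_mul continuous_const
  have hconv : ∀ γ : Γ, Tendsto (fun n => ρt n γ) 𝒰 (𝓝 (sg p q γ)) := by
    intro γ
    have h1 := (hcont.tendsto (ρ' γ)).comp (hlim γ)
    have h2 : ((k : Matrix (Fin d) (Fin d) ℂ) * ρ' γ *
        ((k⁻¹ : (Matrix (Fin d) (Fin d) ℂ)ˣ) : Matrix (Fin d) (Fin d) ℂ)).reindex e.symm e.symm =
        sg p q γ := by
      rw [hk, sg_apply]
      ext i j
      simp only [Matrix.reindex_apply, Matrix.submatrix_apply, Equiv.symm_symm,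
        Equiv.symm_apply_apply]
      rfl
    rw [h2] at h1
    refine h1.congr fun n => ?_
    rw [hρt]; rfl
  have hev : ∀ᶠ n in (𝒰 : Filter ℕ), ∀ γ ∈ {γ : Γ | hs (mt (γ : G2)) ≤ R},
      hs (ρt n γ - sg p q γ) ≤ ε := by
    rw [Filter.eventually_all_finite (hΓ.fin R)]
    intro γ _
    have h1 : Tendsto (fun n => hs (ρt n γ - sg p q γ)) 𝒰 (𝓝 (hs (sg p q γ - sg p q γ))) :=
      (continuous_hs.tendsto _).comp ((hconv γ).sub tendsto_const_nhds)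
    rw [sub_self, hs_zero] at h1
    filter_upwards [h1.eventually (gt_mem_nhds hε)] with n hn
    exact hn.le
  obtain ⟨n, hn⟩ := hev.exists
  obtain ⟨C, hC, hG⟩ := hgrow (ρt n) hn
  apply hnot n
  set u : (Matrix (Fin d) (Fin d) ℂ)ˣ := k * h n with hu
  refine ⟨ρ n, hρ n, C * (hs (u : Matrix (Fin d) (Fin d) ℂ) *
    hs ((u⁻¹ : (Matrix (Fin d) (Fin d) ℂ)ˣ) : Matrix (Fin d) (Fin d) ℂ)) ^ 2 + 1, by positivity,
    fun g => ?_⟩
  have h1 : hs (ρt n g) ≤ (hs (u : Matrix (Fin d) (Fin d) ℂ) *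
      hs ((u⁻¹ : (Matrix (Fin d) (Fin d) ℂ)ˣ) : Matrix (Fin d) (Fin d) ℂ)) * hs (mr (ρ n) g) := by
    change hs (((u : Matrix (Fin d) (Fin d) ℂ) * mr (ρ n) g *
      ((u⁻¹ : (Matrix (Fin d) (Fin d) ℂ)ˣ) : Matrix (Fin d) (Fin d) ℂ)).reindex e.symm e.symm) ≤ _
    rw [hs_reindex]
    refine ((hs_mul _ _).trans (mul_le_mul_of_nonneg_right (hs_mul _ _) (hs_nonneg _))).trans ?_
    apply le_of_eq; ring
  calc hs (mt (g : G2)) ≤ C * hs (ρt n g) ^ 2 := hG g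
    _ ≤ C * ((hs (u : Matrix (Fin d) (Fin d) ℂ) *
      hs ((u⁻¹ : (Matrix (Fin d) (Fin d) ℂ)ˣ) : Matrix (Fin d) (Fin d) ℂ)) * hs (mr (ρ n) g)) ^ 2 :=
        mul_le_mul_of_nonneg_left (pow_le_pow_left₀ (hs_nonneg _) h1 2) hC.le
    _ ≤ _ := by
        rw [mul_pow]
        have := hs_nonneg (mr (ρ n) g)
        nlinarith [sq_nonneg (hs (mr (ρ n) g))]

/-- the character of `p` copies of the inclusion and `q` trivial representations -/
theorem exists_chi (Γ : Subgroup G2) {p q : ℕ} (e : II p q ≃ Fin d) :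
    ∃ χ : CharVar Γ d, ∀ γ : Γ, χ.1 γ = p * (cm (mt (γ : G2))).trace + q := by
  let ρ : Γ →* Matrix.SpecialLinearGroup (Fin d) ℂ :=
    { toFun := fun g => ⟨(stdm p q (cm (mt (g : G2)))).reindex e e, by
        rw [Matrix.det_reindex_self, stdm_det, cm_det, (g : G2).2]; simp⟩
      map_one' := by
        apply Subtype.ext
        change (stdm p q (cm 1)).reindex e e = 1
        rw [cm_one, stdm_one]; simp
      map_mul' := fun g h => by
        apply Subtype.ext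
        change (stdm p q (cm (mt ((g : G2) * h)))).reindex e e =
          (stdm p q (cm (mt (g : G2)))).reindex e e * (stdm p q (cm (mt (h : G2)))).reindex e e
        rw [mt_mul, cm_mul, stdm_mul]
        simp only [Matrix.reindex_apply]
        rw [Matrix.submatrix_mul_equiv] }
  refine ⟨⟨character ρ, ρ, rfl⟩, fun γ => ?_⟩
  change ((stdm p q (cm (mt (γ : G2)))).reindex e e).trace = _
  rw [← stdm_trace]
  simp only [Matrix.trace, Matrix.diag, Matrix.reindex_apply, Matrix.submatrix_apply]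
  exact Equiv.sum_comp e.symm (fun i => stdm p q (cm (mt (γ : G2))) i i)

theorem isDoD_QI (hΓ : SG Γ) : IsDoD (QI Γ d) := by
  have h1 : IsDoD (∅ : Set (CharVar Γ d)) := by
    refine ⟨isOpen_empty, fun _ _ h => h.elim, fun K hK _ => ?_⟩
    rw [Set.subset_empty_iff] at hK
    subst hK
    simp
  simpa using isDoD_union hΓ h1

theorem exists_witness (hΓ : SG Γ) (hd : 4 ≤ d) {k : ℕ} (hk : 1 ≤ k) (hkd : k < d) :
    ∃ χ ∈ QI Γ d, χ ∉ SimpleAnosovDomain Γ d k := by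
  obtain ⟨p, q, hp, hpq, h1, h2⟩ : ∃ p q : ℕ, 0 < p ∧ 2 * p + q = d ∧ k ≠ p ∧ k ≠ p + q := by
    by_cases h : k = 1 ∨ k = d - 1
    · exact ⟨2, d - 4, by omega, by omega, by omega, by omega⟩
    · exact ⟨1, d - 2, by omega, by omega, by omega, by omega⟩
  let e : II p q ≃ Fin d := Fintype.equivFinOfCardEq (by simp; omega)
  obtain ⟨χ, hχ⟩ := exists_chi Γ e
  refine ⟨χ, mem_QI hΓ hp e χ hχ, ?_⟩
  rintro ⟨ρ, hρ, hA⟩
  refine not_anosov hΓ (d := d) (p := p) (q := q) (k := k) (by omega) (by omega) h1 h2 ρ ?_ hA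
  intro γ
  rw [← hχ, ← hρ]; rfl

theorem main (hΓ : IsSurfaceGroup Γ) (hd : 4 ≤ d) :
    ∃ U : Set (CharVar Γ d), IsDoD U ∧
      (∀ A : Set (CharVar Γ d), IsDoD A → IsDoD (A ∪ U)) ∧
      ∀ k : ℕ, 1 ≤ k → k < d →
        ¬ U ⊆ SimpleAnosovDomain Γ d k ∧ ¬ IsMaximalDoD (SimpleAnosovDomain Γ d k) := by
  refine ⟨QI Γ d, isDoD_QI hΓ.sg, fun A hA => isDoD_union hΓ.sg hA, fun k hk hkd => ?_⟩
  obtain ⟨χ, hχ, hχ'⟩ := exists_witness hΓ.sg hd hk hkd
  refine ⟨fun h => hχ' (h hχ), fun h => ?_⟩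
  obtain ⟨h1, h2⟩ := h
  have h3 := h2 _ (isDoD_union hΓ.sg h1) Set.subset_union_left
  exact hχ' (h3 ▸ Or.inr hχ)

end K4H41.SA
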